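import Pool.Agent.Helper5.N2.Stmts2

/-!
# N2, row FBD: if the harmonic part is affine, `k > 0` and `y > 0`, then `F` is bounded
-/

set_option autoImplicit false

namespace N284
open N2

/-- a character value of a real element is real -/
lemma ev_real {R : Type} [CommRing R] [DR R] (χ : Ev R) {f : R} (h : cj f = f) :
    χ f = (((χ f).re : ℝ) : ℂ) := by
  have h1 : (starRingEnd ℂ) (χ f) = χ f := by
    have := χ.hcj f
    rw [h] at this
    exact this.symm
  exact (Complex.conj_eq_iff_re.1 h1).symm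

theorem st_FBD (h1 : ST_G1) (h2 : ST_G2) (_h3 : ST_G3) (h4 : ST_G4) (hP : ST_P) (hI : ST_I)
    (hC : ST_CON) (hS : ST_SLOPE) : ST_FBD := by
  intro m N hP5 hk hy
  obtain ⟨cK, cG, cg, cy, GF, DK, D'K, DvB, DvA, BB0, AB, AA, psA, psB, DF, D'F, DG, D'G⟩ := h1 Sm m N
  obtain ⟨_, _, _, _, _, _, _, _, hq, hq', Dg, D'g, hal', hU', hV, hk1', hS', hBB, _, _, _, _⟩ :=
    h2 Sm m N
  obtain ⟨g4a, g4b, g4c, g4d, g4e, g4f, g4g, g4h⟩ := h4 Sm m N
  obtain ⟨p1, p2, p3, p4, p5, p6, p7, p8, p9, p10, p11⟩ := hP Sm m N hP5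
  obtain ⟨i1, i2, i3, i4⟩ := hI Sm m N hP5
  obtain ⟨c2, hc2⟩ := hC _ i1 i2
  obtain ⟨a, ha⟩ := hC _ i3 i4
  -- the basic identity
  have hDal : D' N.al = dot N.Ph N.Ph' - N.y * N.F := by
    have h := g4g
    rw [Dg, D'_mul, D'_ofNat] at h
    have h5 : (Cst (2 : ℂ) : Sm) * D' N.al = Cst (2 : ℂ) * (dot N.Ph N.Ph' - N.y * N.F) := by
      have e : (Cst (2 : ℂ) : Sm) = 2 := map_ofNat _ 2
      rw [e]
      linear_combination h
    exact Cst_mul_cancel two_ne_zero h5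
  have hD'y : D' N.y = -(2 * N.K * N.al') := by
    have : N.y = 1 - N.K * N.g := rfl
    rw [this, D'_sub, D'_one, D'_mul, D'K, D'g]
    ring
  have hkey : N.y * N.y * (N.BB * N.G - N.K * N.K * N.F * N.g)
      = 3 * N.K * N.y * (dot N.Ph N.Ph' - N.y * N.F) + 6 * N.K * N.K * (N.al * N.al') := by
    have e1 : D' (N.y * N.ph) = D' (3 * N.K * N.al) := by rw [p1]
    rw [D'_mul, D'_mul, D'_mul, D'_ofNat, D'K, hD'y, g4c, hDal] at e1
    linear_combination N.y * e1 + (2 * N.K * N.al') * p1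
  have hFre : ∀ p, 0 < (ev p N.F).re := by
    intro p
    have e1 : ev p N.F = ((∑ i, ‖ev p (N.A i)‖ ^ 2 : ℝ) : ℂ) := by
      rw [← N.hAB]; exact Ev.dot_cjv (ev p) N.A
    have e2 : (ev p N.F).re = ∑ i, ‖ev p (N.A i)‖ ^ 2 := by rw [e1, Complex.ofReal_re]
    have e3 : ev p N.F ≠ 0 := by
      intro h
      have := congrArg (ev p).h N.hFG
      rw [map_mul, h, zero_mul, map_one] at this
      exact zero_ne_one this
    have e4 : (ev p N.F).re ≠ 0 := by
      intro h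
      apply e3
      rw [ev_real (ev p) N.hFr, h, Complex.ofReal_zero]
    have e5 : 0 ≤ (ev p N.F).re := by rw [e2]; positivity
    exact lt_of_le_of_ne e5 (Ne.symm e4)
  -- real constants
  have hc2r : ∀ p, (ev p N.F).re ^ 2 * (ev p N.y).re ^ 3 = c2.re := by
    intro p
    have e := congrArg (ev p).h hc2
    rw [(ev p).hC, map_mul, map_mul, map_mul, map_mul, ev_real (ev p) N.hFr,
      ev_real (ev p) cy] at e
    have := congrArg Complex.re e
    rw [← this]
    norm_cast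
    ring
  have har : ∀ p, (ev p (dot N.Ph N.Ph')).re = a.re := by
    intro p
    have e := congrArg (ev p).h ha
    rw [(ev p).hC] at e
    exact congrArg Complex.re e
  have hareal : ∀ p, ev p (dot N.Ph N.Ph') = (((ev p (dot N.Ph N.Ph')).re : ℝ) : ℂ) := by
    intro p
    apply ev_real
    rw [cj_dot]
    change dot N.Ph' (cjv N.Ph') = _
    have : cjv N.Ph' = N.Ph := cjv_cjv N.Ph
    rw [this, dot_comm]
  have ha0 : ∀ p, 0 ≤ (ev p (dot N.Ph N.Ph')).re := by
    intro p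
    have e1 : ev p (dot N.Ph N.Ph') = ((∑ i, ‖ev p (N.Ph i)‖ ^ 2 : ℝ) : ℂ) :=
      Ev.dot_cjv (ev p) N.Ph
    rw [e1, Complex.ofReal_re]; positivity
  have hc2pos : 0 < c2.re := by
    rw [← hc2r (0, 0)]
    have := hFre (0, 0)
    have := hy (0, 0)
    positivity
  refine ⟨27 * a.re ^ 3 / c2.re, hS N.F (3 * N.k / 2) _ N.hFr hFre (by positivity) ?_⟩
  intro p hM
  -- values at p
  have Fr := hFre p
  have yr := hy p
  have vK : ev p N.K = ((N.k : ℝ) : ℂ) := (ev p).hC _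
  have vF := ev_real (ev p) N.hFr
  have vG := ev_real (ev p) cG
  have vg := ev_real (ev p) cg
  have vy := ev_real (ev p) cy
  have vBB := ev_real (ev p) hBB
  have va := hareal p
  have val : ev p (N.al * N.al') = ((‖ev p N.al‖ ^ 2 : ℝ) : ℂ) := by
    rw [map_mul]
    change ev p N.al * ev p (cj N.al) = _
    rw [(ev p).hcj, Complex.mul_conj, Complex.normSq_eq_norm_sq]
  have hBBp : 0 ≤ (ev p N.BB).re := by
    have e1 : ev p N.BB = ((∑ i, ‖ev p (N.b i)‖ ^ 2 : ℝ) : ℂ) := Ev.dot_cjv (ev p) N.b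
    rw [e1, Complex.ofReal_re]; positivity
  have hGp : 0 < (ev p N.G).re := by
    have e := congrArg (ev p).h N.hFG
    rw [map_mul, map_one, vF, vG] at e
    have e2 : (ev p N.F).re * (ev p N.G).re = 1 := by exact_mod_cast e
    by_contra hcon
    push Not at hcon
    nlinarith
  have hyg : (ev p N.y).re = 1 - N.k * (ev p N.g).re := by
    have : ev p N.y = 1 - ev p N.K * ev p N.g := by
      change ev p (1 - N.K * N.g) = _
      rw [map_sub, map_one, map_mul]
    rw [vK, vg] at this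
    rw [this]
    norm_cast
  -- the key identity at p
  have key : (ev p N.y).re ^ 2 * ((ev p N.BB).re * (ev p N.G).re
        - N.k ^ 2 * (ev p N.F).re * (ev p N.g).re)
      = 3 * N.k * (ev p N.y).re * (a.re - (ev p N.y).re * (ev p N.F).re)
        + 6 * N.k ^ 2 * ‖ev p N.al‖ ^ 2 := by
    have e := congrArg (ev p).h hkey
    rw [map_add, map_mul (ev p).h (6 * N.K * N.K), val] at e
    simp only [map_mul, map_sub, map_ofNat] at e
    rw [va, har p, vK, vF, vG, vg, vy, vBB] at e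
    have e' : (((ev p N.y).re ^ 2 * ((ev p N.BB).re * (ev p N.G).re
        - N.k ^ 2 * (ev p N.F).re * (ev p N.g).re) : ℝ) : ℂ)
      = ((3 * N.k * (ev p N.y).re * (a.re - (ev p N.y).re * (ev p N.F).re)
        + 6 * N.k ^ 2 * ‖ev p N.al‖ ^ 2 : ℝ) : ℂ) := by
      push_cast at e ⊢
      linear_combination e
    exact_mod_cast e'
  have slope : (ev p N.y).re ^ 2 * ‖ev p (D N.F)‖ ^ 2
      = 9 * N.k ^ 2 * ‖ev p N.al‖ ^ 2 * (ev p N.F).re ^ 2 := by
    have e0 : N.y * D N.F = 3 * N.K * N.al * N.F := by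
      rw [DF]; linear_combination N.F * p1
    have e := congrArg (ev p).h e0
    simp only [map_mul, map_ofNat] at e
    rw [vK, vF, vy] at e
    have e1 := congrArg norm e
    rw [norm_mul, norm_mul, norm_mul, norm_mul, Complex.norm_real, Complex.norm_real,
      Complex.norm_real, Real.norm_of_nonneg yr.le, Real.norm_of_nonneg hk.le,
      Real.norm_of_nonneg Fr.le] at e1
    have e3 : ‖(3 : ℂ)‖ = 3 := by simp
    rw [e3] at e1
    calc (ev p N.y).re ^ 2 * ‖ev p (D N.F)‖ ^ 2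
        = ((ev p N.y).re * ‖(ev p).h (D N.F)‖) ^ 2 := by ring
      _ = (3 * N.k * ‖(ev p).h N.al‖ * (ev p N.F).re) ^ 2 := by rw [e1]
      _ = _ := by ring
  have hc2p := hc2r p
  have ha0p : 0 ≤ a.re := by rw [← har p]; exact ha0 p
  rw [div_lt_iff₀ hc2pos] at hM
  set Fp := (ev p N.F).re
  set yp := (ev p N.y).re
  set gp := (ev p N.g).re
  set Gp := (ev p N.G).re
  set Bp := (ev p N.BB).re
  set L := ‖ev p N.al‖ ^ 2 with hL
  have h3a : 3 * a.re < yp * Fp := by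
    by_contra hcon
    push Not at hcon
    have h0 : 0 ≤ yp * Fp := by positivity
    have h1 : (yp * Fp) ^ 3 ≤ (3 * a.re) ^ 3 := pow_le_pow_left₀ h0 hcon 3
    have h2 : (yp * Fp) ^ 3 = c2.re * Fp := by rw [← hc2p]; ring
    rw [h2] at h1
    have h4 : (3 * a.re) ^ 3 = 27 * a.re ^ 3 := by ring
    rw [h4] at h1
    linarith
  have hBG : 0 ≤ yp ^ 2 * (Bp * Gp) := by positivity
  have hkg : N.k * gp = 1 - yp := by rw [hyg]; ring
  have hlow : N.k * yp * (yp * Fp * (2 + yp) - 3 * a.re) ≤ 6 * N.k ^ 2 * L := by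
    have e : N.k ^ 2 * Fp * gp = N.k * Fp * (1 - yp) := by rw [← hkg]; ring
    have e2 : 6 * N.k ^ 2 * L = N.k * yp * (yp * Fp * (2 + yp) - 3 * a.re) + yp ^ 2 * (Bp * Gp) := by
      linear_combination -key - yp ^ 2 * e
    linarith
  have hlow2 : N.k * yp * (yp * Fp) ≤ 6 * N.k ^ 2 * L := by
    refine le_trans ?_ hlow
    apply mul_le_mul_of_nonneg_left _ (by positivity)
    have h6 : 0 ≤ yp * Fp * yp := by positivity
    have h7 : yp * Fp * (2 + yp) - 3 * a.re = yp * Fp + yp * Fp * yp + (yp * Fp - 3 * a.re) := by ring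
    rw [h7]
    linarith
  have hfin : yp ^ 2 * (3 * N.k / 2 * Fp ^ 3) ≤ yp ^ 2 * ‖ev p (D N.F)‖ ^ 2 := by
    rw [slope]
    have h8 : 3 / 2 * Fp ^ 2 * (N.k * yp * (yp * Fp)) ≤ 3 / 2 * Fp ^ 2 * (6 * N.k ^ 2 * L) :=
      mul_le_mul_of_nonneg_left hlow2 (by positivity)
    have h9 : yp ^ 2 * (3 * N.k / 2 * Fp ^ 3) = 3 / 2 * Fp ^ 2 * (N.k * yp * (yp * Fp)) := by ring
    have h10 : 9 * N.k ^ 2 * L * Fp ^ 2 = 3 / 2 * Fp ^ 2 * (6 * N.k ^ 2 * L) := by ring
    rw [h9, h10]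
    exact h8
  exact le_of_mul_le_mul_left hfin (by positivity)

end N284
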