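import Pool.Agent.Helper8.Kak.Move
import Pool.Agent.Helper8.Kak.Space

/-!
# Base case and iteration for the sums-differences inequality

`SD_two : SD m 2` (two slices determine the line), monotonicity in the exponent, and iteration.
-/

set_option autoImplicit false

namespace Pool.Agent.Helper8.Kak

open Finset

section base

variable {Ω : Type} [Fintype Ω] {p : Ω → ℝ} {m : ℕ} {L : Type} {x v : L → Fin m → ℝ} {δ : ℝ}

/-- the direction is determined by two points of the line -/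
theorem dir_real {M : ℕ} (hδ : 0 < δ) (hM : 1 ≤ δ * M) (s t : Fin M) {X V : ℝ} (hV : |V| ≤ 1) :
    |V - (if s = t then 0 else
        (δ * (⌊(X + ht s * V) / δ⌋ : ℝ) - δ * (⌊(X + ht t * V) / δ⌋ : ℝ)) / (ht s - ht t))|
      ≤ 2 / dst s t * δ := by
  by_cases hst : s = t
  · subst hst
    rw [if_pos rfl, dst_self, sub_zero, div_div_eq_mul_div, div_one]
    linarith
  · rw [if_neg hst]
    have hne : ht s - ht t ≠ 0 := sub_ne_zero.2 (ht_ne_of_ne hst)
    have hd : dst s t = |ht s - ht t| := dst_eq_of_ne hst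
    have hd0 : 0 < |ht s - ht t| := abs_pos.2 hne
    have e1 := abs_floor_near (u := X + ht s * V) hδ
    have e2 := abs_floor_near (u := X + ht t * V) hδ
    have key : V - (δ * (⌊(X + ht s * V) / δ⌋ : ℝ) - δ * (⌊(X + ht t * V) / δ⌋ : ℝ)) / (ht s - ht t)
        = (((X + ht s * V) - δ * (⌊(X + ht s * V) / δ⌋ : ℝ))
          - ((X + ht t * V) - δ * (⌊(X + ht t * V) / δ⌋ : ℝ))) / (ht s - ht t) := by
      field_simp
      ring
    rw [key, abs_div, hd, div_mul_eq_mul_div]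
    apply div_le_div_of_nonneg_right _ hd0.le
    refine (abs_sub _ _).trans ?_
    linarith

open scoped Classical in
/-- two slices determine the line -/
theorem two_slices (hp : IsProb p) (hδ : 0 < δ) {M : ℕ} (hM : 1 ≤ δ * M)
    (hv : ∀ l i, |v l i| ≤ 1) (hinj : Function.Injective (fun l => cell δ (v l)))
    (r : Setoid Ω) (l : Ω → L) (s t : Ω → Fin M)
    (hm : ∀ ω ω', 0 < p ω → 0 < p ω' → r ω ω' → s ω = s ω' ∧ t ω = t ω' ∧
      cell δ (pnt x v (l ω) (s ω)) = cell δ (pnt x v (l ω') (s ω')) ∧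
      cell δ (pnt x v (l ω) (t ω)) = cell δ (pnt x v (l ω') (t ω'))) :
    Ent p (Setoid.ker l ⊓ r) - Ent p r ≤ m * (Ex p (fun ω => ld (s ω) (t ω)) + Real.log 11) := by
  have h := amb_cell hδ hp r (fun ω => v (l ω))
    (fun ω i => if s ω = t ω then 0 else
      (δ * ((cell δ (pnt x v (l ω) (s ω)) i : ℤ) : ℝ)
        - δ * ((cell δ (pnt x v (l ω) (t ω)) i : ℤ) : ℝ)) / (ht (s ω) - ht (t ω)))
    (fun ω => 4 / dst (s ω) (t ω)) (fun ω => by have := dst_pos (s ω) (t ω); positivity) ?_ ?_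
  · have e0 : Ent p (Setoid.ker (fun ω => cell δ (v (l ω))) ⊓ r) = Ent p (Setoid.ker l ⊓ r) := by
      refine Ent_congr' hp fun ω ω' _ _ => ?_
      constructor
      · rintro ⟨h1, h2⟩
        exact ⟨hinj h1, h2⟩
      · rintro ⟨h1, h2⟩
        exact ⟨congrArg (fun l => cell δ (v l)) h1, h2⟩
    rw [← e0]
    refine h.trans ?_
    apply mul_le_mul_of_nonneg_left _ (Nat.cast_nonneg _)
    have e : ∑ ω, p ω * Real.log (2 * (4 / dst (s ω) (t ω)) + 3)
        ≤ ∑ ω, (p ω * ld (s ω) (t ω) + p ω * Real.log 11) := by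
      refine Finset.sum_le_sum fun ω _ => ?_
      rw [← mul_add]
      exact mul_le_mul_of_nonneg_left (log_move _ _) (hp.1 ω)
    rw [Finset.sum_add_distrib, ← Finset.sum_mul, hp.2, one_mul] at e
    exact e
  · intro ω ω' h1 h2 h3
    obtain ⟨g1, g2, g3, g4⟩ := hm ω ω' h1 h2 h3
    constructor
    · funext i
      rw [g3, g4, g1, g2]
    · simp only [g1, g2]
  · intro ω _ i
    have hd := dst_pos (s ω) (t ω)
    refine (dir_real (X := x (l ω) i) hδ hM (s ω) (t ω) (hv (l ω) i)).trans ?_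
    apply mul_le_mul_of_nonneg_right _ hδ.le
    exact div_le_div_of_nonneg_right (by norm_num) hd.le

end base

/-- the sums-differences inequality with exponent 2, with no bound on the positions -/
theorem SD_two_core {m : ℕ} {δ : ℝ} {M : ℕ} (hδ : 0 < δ) (hM : 1 ≤ δ * M)
    {L : Type} {x v : L → Fin m → ℝ} (hv : ∀ l i, |v l i| ≤ 1)
    (hinj : Function.Injective (fun l => cell δ (v l)))
    {Ω : Type} [Fintype Ω] {p : Ω → ℝ} (hp : IsProb p) (K : Setoid Ω) (l : Ω → L) (T : Ω → Fin M) :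
      Ent p (K ⊓ Setoid.ker l) - Ent p K ≤
        2 * (Ent p (K ⊓ Setoid.ker T ⊓ Setoid.ker (fun ω => cell δ (pnt x v (l ω) (T ω))))
              - Ent p (K ⊓ Setoid.ker T))
        + (2 + m * (2 + 2 * Real.log 5 + Real.log 11)) *
          (Real.log M - (Ent p (K ⊓ Setoid.ker l ⊓ Setoid.ker T) - Ent p (K ⊓ Setoid.ker l)) + 1) := by
  classical
  set P : Ω → Fin m → ℤ := fun ω => cell δ (pnt x v (l ω) (T ω)) with hP
  have hA := A1_prob K l hp
  have f1 := A1_fst K l hp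
  have f2 := A1_snd K l hp
  have link : ∀ y : Ω × Ω, 0 < pA1 p K l y → K y.1 y.2 ∧ l y.1 = l y.2 := fun y hy =>
    fL_eq.1 (glue_link hy)
  set R : Setoid Ω := K ⊓ Setoid.ker l ⊓ Setoid.ker T with hR
  -- joint entropy of the line and the two heights
  have E1 : Ent (pA1 p K l) (Setoid.comap Prod.fst R ⊓ Setoid.comap Prod.snd R)
      = Ent p R + Ent p R - Ent p (K ⊓ Setoid.ker l) := by
    have h := Ent_glue (f := fL K l) (g := fL K l) hp hp (fun _ => rfl) R R
      (fun a a' _ _ h => fL_eq.2 h.1) (fun a a' _ _ h => fL_eq.2 h.1)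
    have e : Ent p (Setoid.ker (fL K l)) = Ent p (K ⊓ Setoid.ker l) :=
      Ent_congr' hp fun ω ω' _ _ => fL_eq
    rw [e] at h
    exact h
  have E2 : Ent (pA1 p K l) (Setoid.comap Prod.fst R) = Ent p R := f1.Ent_eq R
  -- submodularity
  set S : Setoid Ω := Setoid.ker T ⊓ Setoid.ker P with hS
  have E3 := submod hA (Setoid.comap Prod.fst S) (Setoid.comap Prod.snd S) (Setoid.comap Prod.fst K)
  have E3a : Ent (pA1 p K l) (Setoid.comap Prod.fst K) = Ent p K := f1.Ent_eq K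
  have E3b : Ent (pA1 p K l) (Setoid.comap Prod.fst S ⊓ Setoid.comap Prod.fst K)
      = Ent p (K ⊓ Setoid.ker T ⊓ Setoid.ker P) := by
    rw [← f1.Ent_eq (K ⊓ Setoid.ker T ⊓ Setoid.ker P)]
    refine Ent_congr' hA fun y y' _ _ => ?_
    exact ⟨fun h => ⟨⟨h.2, h.1.1⟩, h.1.2⟩, fun h => ⟨⟨h.1.2, h.2⟩, h.1.1⟩⟩
  have E3c : Ent (pA1 p K l) (Setoid.comap Prod.snd S ⊓ Setoid.comap Prod.fst K)
      = Ent p (K ⊓ Setoid.ker T ⊓ Setoid.ker P) := by
    rw [← f2.Ent_eq (K ⊓ Setoid.ker T ⊓ Setoid.ker P)]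
    refine Ent_congr' hA fun y y' hy hy' => ?_
    have k1 := (link y hy).1
    have k2 := (link y' hy').1
    constructor
    · intro h
      exact ⟨⟨K.trans (K.symm k1) (K.trans h.2 k2), h.1.1⟩, h.1.2⟩
    · intro h
      exact ⟨⟨h.1.2, h.2⟩, K.trans k1 (K.trans h.1.1 (K.symm k2))⟩
  -- determination
  set r0 : Setoid (Ω × Ω) := Setoid.comap Prod.fst S ⊓ (Setoid.comap Prod.snd S ⊓
    Setoid.comap Prod.fst K) with hr0
  have E4 := two_slices (x := x) hA hδ hM hv hinj r0 (fun y => l y.1) (fun y => T y.2)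
    (fun y => T y.1) ?_
  · have E4a : Ent (pA1 p K l) (Setoid.ker (fun y : Ω × Ω => l y.1) ⊓ r0)
        = Ent (pA1 p K l) (Setoid.comap Prod.fst R ⊓ Setoid.comap Prod.snd R) := by
      refine Ent_congr' hA fun y y' hy hy' => ?_
      obtain ⟨k1, l1⟩ := link y hy
      obtain ⟨k2, l2⟩ := link y' hy'
      constructor
      · intro h
        have hl : l y.1 = l y'.1 := h.1
        have hl2 : l y.2 = l y'.2 := by rw [← l1, ← l2]; exact hl
        have hK : K y.1 y'.1 := h.2.2.2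
        exact ⟨⟨⟨hK, hl⟩, h.2.1.1⟩, ⟨⟨K.trans (K.symm k1) (K.trans hK k2), hl2⟩, h.2.2.1.1⟩⟩
      · intro h
        have hl : l y.1 = l y'.1 := h.1.1.2
        have hl2 : l y.2 = l y'.2 := h.2.1.2
        have hK : K y.1 y'.1 := h.1.1.1
        have hT1 : T y.1 = T y'.1 := h.1.2
        have hT2 : T y.2 = T y'.2 := h.2.2
        have hP1 : P y.1 = P y'.1 := by simp only [hP, hl, hT1]
        have hP2 : P y.2 = P y'.2 := by simp only [hP, hl2, hT2]
        exact ⟨hl, ⟨hT1, hP1⟩, ⟨hT2, hP2⟩, hK⟩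
    have E5 := close hA (Setoid.comap Prod.fst R) (fun y : Ω × Ω => T y.1) (fun y => T y.2)
      (fun y y' _ _ h => h.2)
    have E5a : Ent (pA1 p K l) (Setoid.ker (fun y : Ω × Ω => T y.2) ⊓ Setoid.comap Prod.fst R)
        = Ent (pA1 p K l) (Setoid.comap Prod.fst R ⊓ Setoid.comap Prod.snd R) := by
      refine Ent_congr' hA fun y y' hy hy' => ?_
      obtain ⟨k1, l1⟩ := link y hy
      obtain ⟨k2, l2⟩ := link y' hy'
      constructor
      · intro h
        have hl : l y.1 = l y'.1 := h.2.1.2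
        have hl2 : l y.2 = l y'.2 := by rw [← l1, ← l2]; exact hl
        have hK : K y.1 y'.1 := h.2.1.1
        exact ⟨h.2, ⟨⟨K.trans (K.symm k1) (K.trans hK k2), hl2⟩, h.1⟩⟩
      · intro h
        exact ⟨h.2.2, h.1⟩
    have hEx : Ex (pA1 p K l) (fun y => ld (T y.2) (T y.1))
        = ∑ y, pA1 p K l y * Real.log (1 / dst (T y.2) (T y.1)) := rfl
    have H1 := Ent_height_le hp (K ⊓ Setoid.ker l) T
    have H1a : Ent p (Setoid.ker T ⊓ (K ⊓ Setoid.ker l)) = Ent p R := by rw [inf_comm]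
    have H2 := Ent_height_le hp K T
    have H2a : Ent p (Setoid.ker T ⊓ K) = Ent p (K ⊓ Setoid.ker T) := by rw [inf_comm]
    rw [H1a] at H1
    rw [H2a] at H2
    rw [E5a, E1, E2] at E5
    rw [E4a, E1, hEx] at E4
    rw [E3a, E3b, E3c] at E3
    set a1 := Ent p (K ⊓ Setoid.ker l)
    set a2 := Ent p R
    set b1 := Ent p K
    set b2 := Ent p (K ⊓ Setoid.ker T)
    set b3 := Ent p (K ⊓ Setoid.ker T ⊓ Setoid.ker P)
    set y0 := Ent (pA1 p K l) r0
    set e0 := ∑ y, pA1 p K l y * Real.log (1 / dst (T y.2) (T y.1))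
    set D := Real.log M - (a2 - a1) with hD
    have hD0 : 0 ≤ D := by rw [hD]; linarith
    have h5 : 0 ≤ Real.log 5 := Real.log_nonneg (by norm_num)
    have h11 : 0 ≤ Real.log 11 := Real.log_nonneg (by norm_num)
    have hm0 : (0 : ℝ) ≤ m := Nat.cast_nonneg m
    have k1 : (m : ℝ) * (e0 + Real.log 11) ≤ m * (2 * D + 2 * Real.log 5 + Real.log 11) := by
      refine mul_le_mul_of_nonneg_left ?_ hm0
      rw [hD]
      linarith
    have k2 : (m : ℝ) * (2 * D + 2 * Real.log 5 + Real.log 11)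
        ≤ m * (2 + 2 * Real.log 5 + Real.log 11) * (D + 1) := by
      rw [mul_assoc]
      refine mul_le_mul_of_nonneg_left ?_ hm0
      nlinarith
    have k3 : (2 + (m : ℝ) * (2 + 2 * Real.log 5 + Real.log 11)) * (D + 1)
        = 2 * (D + 1) + m * (2 + 2 * Real.log 5 + Real.log 11) * (D + 1) := by ring
    rw [k3]
    linarith
  · intro y y' hy hy' h
    obtain ⟨k1, l1⟩ := link y hy
    obtain ⟨k2, l2⟩ := link y' hy'
    refine ⟨h.2.1.1, h.1.1, ?_, ?_⟩
    · rw [l1, l2]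
      exact h.2.1.2
    · exact h.1.2

theorem SD_two (m : ℕ) : SD m 2 := by
  refine ⟨2 + m * (2 + 2 * Real.log 5 + Real.log 11), ?_, ?_⟩
  · have h1 : 0 ≤ Real.log 5 := Real.log_nonneg (by norm_num)
    have h2 : 0 ≤ Real.log 11 := Real.log_nonneg (by norm_num)
    positivity
  · intro δ M hδ _ hM L x v _ hv hinj Ω _ p hp K l T
    exact SD_two_core hδ hM hv hinj hp K l T

/-- monotonicity in the exponent -/
theorem SD_mono {m : ℕ} {α α' : ℝ} (h : α ≤ α') (hs : SD m α) : SD m α' := by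
  obtain ⟨C, hC, H⟩ := hs
  refine ⟨C, hC, ?_⟩
  intro δ M hδ hδ1 hM L x v hx hv hinj Ω _ p hp K l T
  refine (H δ M hδ hδ1 hM L x v hx hv hinj Ω p hp K l T).trans ?_
  have h1 : Ent p (K ⊓ Setoid.ker T) ≤
      Ent p (K ⊓ Setoid.ker T ⊓ Setoid.ker (fun ω => cell δ (pnt x v (l ω) (T ω)))) :=
    Ent_mono hp inf_le_left
  have h2 := mul_le_mul_of_nonneg_right h (sub_nonneg.2 h1)
  linarith

/-- one application of a step map, with a rational upper bound for its value -/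
theorem SD_step {m : ℕ} {f : ℝ → ℝ} (step : ∀ β, 1 < β → β ≤ 2 → SD m β → SD m (f β))
    {β q : ℝ} (h1 : 1 < β) (h2 : β ≤ 2) (hs : SD m β) (hq : f β ≤ q) : SD m q :=
  SD_mono hq (step β h1 h2 hs)

end Pool.Agent.Helper8.Kak
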