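import Pool.Agent.Helper84.KakStepZ

/-!
Choice of the parameter `c` by averaging.
-/

noncomputable section

open Finset Classical

namespace Pool.Agent.Helper84.Kak

/-- few times are close to a given time. -/
lemma card_near (Q t : ℕ) {r : ℝ} (hr : 0 ≤ r) :
    (((range Q).filter (fun σ : ℕ => |(σ : ℝ) - t| < r)).card : ℝ) ≤ 2 * r + 1 := by
  have h1 : ((range Q).filter (fun σ : ℕ => |(σ : ℝ) - t| < r)).image (fun σ : ℕ => (σ : ℤ)) ⊆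
      Finset.Icc ((t : ℤ) - ⌊r⌋) (t + ⌊r⌋) := by
    intro z hz
    obtain ⟨σ, hσ, rfl⟩ := mem_image.1 hz
    rw [mem_filter, abs_lt] at hσ
    rw [mem_Icc]
    constructor
    · have h2 : (t : ℤ) - σ ≤ ⌊r⌋ := by
        rw [Int.le_floor]; push_cast; linarith [hσ.2.1]
      linarith
    · have h2 : (σ : ℤ) - t ≤ ⌊r⌋ := by
        rw [Int.le_floor]; push_cast; linarith [hσ.2.2]
      linarith
  have h2 := card_le_card h1
  rw [card_image_of_injective _ Nat.cast_injective, Int.card_Icc] at h2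
  have h3 : 0 ≤ ⌊r⌋ := Int.floor_nonneg.2 hr
  have h4 : ((((t : ℤ) + ⌊r⌋ + 1 - (t - ⌊r⌋)).toNat : ℤ) : ℝ) = 2 * ⌊r⌋ + 1 := by
    rw [Int.toNat_of_nonneg (by linarith)]
    push_cast; ring
  have h5 : (((t : ℤ) + ⌊r⌋ + 1 - (t - ⌊r⌋)).toNat : ℝ) = 2 * ⌊r⌋ + 1 := by exact_mod_cast h4
  calc (((range Q).filter (fun σ : ℕ => |(σ : ℝ) - t| < r)).card : ℝ) ≤
        (((t : ℤ) + ⌊r⌋ + 1 - (t - ⌊r⌋)).toNat : ℝ) := by exact_mod_cast h2
    _ = 2 * ⌊r⌋ + 1 := h5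
    _ ≤ 2 * r + 1 := by linarith [Int.floor_le r]

/-- integer multiple in a half-open unit interval. -/
lemma exists_int_mult {g y : ℝ} (hg : g ≠ 0) (hg1 : |g| ≤ 1) :
    ∃ j : ℤ, y ≤ j * g ∧ j * g < y + 1 := by
  rcases lt_or_gt_of_ne hg with h | h
  · refine ⟨⌊y / g⌋, ?_, ?_⟩
    · have h1 := Int.floor_le (y / g)
      rw [le_div_iff_of_neg h] at h1
      linarith
    · have h1 := Int.lt_floor_add_one (y / g)
      rw [div_lt_iff_of_neg h] at h1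
      rw [abs_of_neg h] at hg1
      nlinarith
  · refine ⟨⌈y / g⌉, ?_, ?_⟩
    · have h1 := Int.le_ceil (y / g)
      rw [div_le_iff₀ h] at h1
      linarith
    · have h1 := Int.ceil_lt_add_one (y / g)
      rw [← sub_lt_iff_lt_add, lt_div_iff₀ h] at h1
      rw [abs_of_pos h] at hg1
      nlinarith

namespace Cfg

variable {m : ℕ} (X : Cfg m)

/-- total weight of small multiplicity pairs. -/
def Gam : ℝ := Gw (cl X.Q) X.L X.T X.q X.t X.t3 X.μ1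

lemma Gam_nonneg : 0 ≤ X.Gam := Gw_nonneg _ _ _ _

lemma sum_PP_om : ∑ p ∈ X.PP, X.om p = X.Gam := by
  have h1 : ∑ p ∈ X.PP, X.om p = ∑ p ∈ X.L ×ˢ X.AA, X.om p := by
    unfold PP
    apply sum_filter_of_ne
    intro p _ hne
    unfold om at hne
    have h1 := wt_pos_imp (left_ne_zero_of_mul hne)
    have h2 := wt_pos_imp (right_ne_zero_of_mul hne)
    exact ⟨h1, h2⟩
  rw [h1, sum_product_right]
  unfold Gam Gw
  apply sum_congr rfl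
  intro r hr
  have hr' := mem_AA.1 hr
  unfold om
  change ∑ x ∈ X.L, wt (cl X.Q) X.L X.T X.t r.1 x * wt (cl X.Q) X.L X.T X.q r.1 r.2 = _
  rw [← sum_mul, sum_wt hr'.1.1 hr'.2.1, one_mul]

lemma sum_om_mul_le (y : Line m × Line m → ℝ) (hy : ∀ r, 0 ≤ y r) :
    ∑ p ∈ X.PP, X.om p * y (p.2.1, p.1) ≤
      ∑ r ∈ X.L ×ˢ X.L, wt (cl X.Q) X.L X.T X.t r.1 r.2 * y r := by
  calc ∑ p ∈ X.PP, X.om p * y (p.2.1, p.1)
      ≤ ∑ p ∈ X.L ×ˢ (X.L ×ˢ X.L), X.om p * y (p.2.1, p.1) := by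
        apply sum_le_sum_of_subset_of_nonneg
        · intro p hp
          have h1 := mem_PP.1 hp
          have h2 := mem_AA.1 h1.1.2
          rw [mem_product, mem_product]
          exact ⟨h1.1.1, h2.1⟩
        · intro p _ _; exact mul_nonneg (X.om_nonneg p) (hy _)
    _ = ∑ l' ∈ X.L, ∑ l ∈ X.L, ∑ l'' ∈ X.L, (wt (cl X.Q) X.L X.T X.t l l' *
          wt (cl X.Q) X.L X.T X.q l l'') * y (l, l') := by
        rw [sum_product]
        apply sum_congr rfl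
        intro l' _
        rw [sum_product]
        rfl
    _ ≤ ∑ l' ∈ X.L, ∑ l ∈ X.L, wt (cl X.Q) X.L X.T X.t l l' * y (l, l') := by
        apply sum_le_sum
        intro l' _
        apply sum_le_sum
        intro l hl
        have h1 : ∑ l'' ∈ X.L, (wt (cl X.Q) X.L X.T X.t l l' *
          wt (cl X.Q) X.L X.T X.q l l'') * y (l, l') =
          (wt (cl X.Q) X.L X.T X.t l l' * y (l, l')) *
            ∑ l'' ∈ X.L, wt (cl X.Q) X.L X.T X.q l l'' := by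
          rw [mul_sum]
          apply sum_congr rfl
          intro l'' _; ring
        rw [h1]
        have h2 : 0 ≤ wt (cl X.Q) X.L X.T X.t l l' * y (l, l') :=
          mul_nonneg (wt_nonneg _ _ _) (hy _)
        have h3 := sum_wt_le (c := cl X.Q) (T := X.T) (i := X.q) hl
        nlinarith
    _ = ∑ r ∈ X.L ×ˢ X.L, wt (cl X.Q) X.L X.T X.t r.1 r.2 * y r := by
        rw [sum_product_right]

/-- grid size -/
def J : ℕ := ⌊2 * (X.Q : ℝ) / X.s ^ 4⌋₊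

/-- grid of indices -/
def JS : Finset ℤ := Finset.Icc (-(X.J : ℤ)) X.J

/-- grid of parameters -/
def cj (j : ℤ) : ℝ := j * (X.s ^ 2 / X.Q)

lemma JS_card : (X.JS.card : ℝ) ≤ 5 * X.Q / X.s ^ 4 := by
  have hs := X.hs
  have hQ := X.hQr
  have h1 : X.JS.card = 2 * X.J + 1 := by
    unfold JS
    rw [Int.card_Icc]
    omega
  rw [h1]
  push_cast
  have h2 : (X.J : ℝ) ≤ 2 * (X.Q : ℝ) / X.s ^ 4 := Nat.floor_le (by positivity)
  have h3 : 1 ≤ (X.Q : ℝ) / X.s ^ 4 := by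
    rw [le_div_iff₀ (by positivity), one_mul]
    have h4 : X.s ^ 4 ≤ 1 := pow_le_one₀ hs.le X.hs1
    have h5 : (1 : ℝ) ≤ X.Q := by exact_mod_cast X.hQ
    linarith
  calc 2 * (X.J : ℝ) + 1 ≤ 2 * (2 * (X.Q : ℝ) / X.s ^ 4) + (X.Q : ℝ) / X.s ^ 4 := by linarith
    _ = 5 * X.Q / X.s ^ 4 := by ring

/-- every target time is hit by the grid. -/
lemma grid_hit {τ σ n : ℕ} (hτ : τ < X.Q) (hσ : σ < X.Q) (hn : n < X.Q)
    (h1 : X.s * X.Q ≤ |(τ : ℝ) - X.q|) (h2 : X.s * X.Q ≤ |(τ : ℝ) - X.t3|)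
    (h3 : X.s * X.Q ≤ |(σ : ℝ) - X.t|) (h4 : X.s * X.Q ≤ |(σ : ℝ) - X.q|) :
    ∃ j ∈ X.JS, 0 ≤ X.xr (X.c1 (X.cj j) τ) σ ∧ X.nx (X.c1 (X.cj j) τ) σ = n := by
  have hs := X.hs
  have hQ := X.hQr
  have hsQ : 0 < X.s * X.Q := by positivity
  set G1 := ((τ : ℝ) - X.q) / ((τ : ℝ) - X.t3) with hG1
  set G2 := ((σ : ℝ) - X.t) / ((σ : ℝ) - X.q) with hG2
  set g := X.s ^ 2 * (G1 * G2) with hg
  have a1 : |G1| ≤ 1 / X.s := abs_ratio_le hs hQ (X.abs_sub_le hτ X.hqQ) h2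
  have a2 : |G2| ≤ 1 / X.s := abs_ratio_le hs hQ (X.abs_sub_le hσ X.htQ) h4
  have b1 : X.s ≤ |G1| := by
    have h5 : 0 < |(τ : ℝ) - X.t3| := lt_of_lt_of_le hsQ h2
    rw [hG1, abs_div, le_div_iff₀ h5]
    calc X.s * |(τ : ℝ) - X.t3| ≤ X.s * X.Q := by
          have := X.abs_sub_le hτ X.ht3Q
          gcongr
      _ ≤ _ := h1
  have b2 : X.s ≤ |G2| := by
    have h5 : 0 < |(σ : ℝ) - X.q| := lt_of_lt_of_le hsQ h4
    rw [hG2, abs_div, le_div_iff₀ h5]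
    calc X.s * |(σ : ℝ) - X.q| ≤ X.s * X.Q := by
          have := X.abs_sub_le hσ X.hqQ
          gcongr
      _ ≤ _ := h3
  have hgabs : |g| = X.s ^ 2 * (|G1| * |G2|) := by
    rw [hg, abs_mul, abs_mul, abs_of_nonneg (by positivity : 0 ≤ X.s ^ 2)]
  have hg1 : |g| ≤ 1 := by
    rw [hgabs]
    calc X.s ^ 2 * (|G1| * |G2|) ≤ X.s ^ 2 * (1 / X.s * (1 / X.s)) := by gcongr
      _ = 1 := by field_simp
  have hg2 : X.s ^ 4 ≤ |g| := by
    rw [hgabs]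
    calc X.s ^ 4 = X.s ^ 2 * (X.s * X.s) := by ring
      _ ≤ X.s ^ 2 * (|G1| * |G2|) := by gcongr
  have hg0 : g ≠ 0 := by
    intro h
    rw [h, abs_zero] at hg2
    have : 0 < X.s ^ 4 := by positivity
    linarith
  obtain ⟨j, hj1, hj2⟩ := exists_int_mult (y := (n : ℝ) - X.t) hg0 hg1
  have hxr : X.xr (X.c1 (X.cj j) τ) σ = X.t + j * g := by
    unfold xr c1 cj
    rw [← hG1, ← hG2, hg]
    field_simp
  have hn0 : (0 : ℝ) ≤ n := by positivity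
  refine ⟨j, ?_, ?_, ?_⟩
  · have h5 : |(j : ℝ)| * |g| ≤ X.Q + 1 := by
      rw [← abs_mul, abs_le]
      have h6 := abs_le.1 (X.abs_sub_le hn X.htQ)
      constructor <;> linarith [h6.1, h6.2]
    have h6 : |(j : ℝ)| ≤ 2 * X.Q / X.s ^ 4 := by
      rw [le_div_iff₀ (by positivity)]
      have h7 : (1 : ℝ) ≤ X.Q := by exact_mod_cast X.hQ
      calc |(j : ℝ)| * X.s ^ 4 ≤ |(j : ℝ)| * |g| := by gcongr
        _ ≤ X.Q + 1 := h5
        _ ≤ 2 * X.Q := by linarith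
    have h8 : |j| ≤ (X.J : ℤ) := by
      have h9 : j.natAbs ≤ X.J := by
        unfold J
        rw [Nat.le_floor_iff (by positivity)]
        have h10 : ((j.natAbs : ℕ) : ℝ) = |(j : ℝ)| := by
          rw [Nat.cast_natAbs]; push_cast; rfl
        rw [h10]; exact h6
      rw [Int.abs_eq_natAbs]; exact_mod_cast h9
    unfold JS
    rw [mem_Icc]
    exact abs_le.1 h8
  · rw [hxr]; linarith
  · unfold nx
    rw [hxr]
    rw [Nat.floor_eq_iff (by linarith)]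
    constructor <;> linarith

/-- times of `l` separated from two given times -/
def sep2 (l : Line m) (u v : ℕ) : Finset ℕ :=
  (X.T l).filter (fun σ => X.s * X.Q ≤ |(σ : ℝ) - u| ∧ X.s * X.Q ≤ |(σ : ℝ) - v|)

variable {X} in
lemma mem_sep2 {l : Line m} {u v σ : ℕ} : σ ∈ X.sep2 l u v ↔ σ ∈ X.T l ∧
    X.s * X.Q ≤ |(σ : ℝ) - u| ∧ X.s * X.Q ≤ |(σ : ℝ) - v| := by
  unfold sep2; rw [mem_filter]

lemma sep2_card {lam : ℝ} (hlam : X.s ≤ lam / 10) {l : Line m} (hl : l ∈ X.L)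
    (hT : lam * X.Q ≤ ((X.T l).card : ℝ)) (u v : ℕ) :
    lam / 2 * X.Q ≤ ((X.sep2 l u v).card : ℝ) := by
  have hs := X.hs
  have hQ := X.hQr
  have hsQ := X.hsQ
  have h1 : X.T l ⊆ X.sep2 l u v ∪ ((range X.Q).filter (fun σ : ℕ => |(σ : ℝ) - u| < X.s * X.Q) ∪
      (range X.Q).filter (fun σ : ℕ => |(σ : ℝ) - v| < X.s * X.Q)) := by
    intro σ hσ
    have hr := X.hT l hl hσ
    rw [mem_union, mem_union, mem_sep2, mem_filter, mem_filter]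
    by_cases h2 : X.s * X.Q ≤ |(σ : ℝ) - u|
    · by_cases h3 : X.s * X.Q ≤ |(σ : ℝ) - v|
      · left; exact ⟨hσ, h2, h3⟩
      · right; right; exact ⟨hr, not_le.1 h3⟩
    · right; left; exact ⟨hr, not_le.1 h2⟩
  have h2 : ((X.T l).card : ℝ) ≤ ((X.sep2 l u v).card : ℝ) + ((2 * (X.s * X.Q) + 1) +
      (2 * (X.s * X.Q) + 1)) := by
    have h3 := le_trans (card_le_card h1) (le_trans (card_union_le _ _)
      (Nat.add_le_add_left (card_union_le _ _) _))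
    have h4 := card_near X.Q u (r := X.s * X.Q) (by positivity)
    have h5 := card_near X.Q v (r := X.s * X.Q) (by positivity)
    have h6 : ((X.T l).card : ℝ) ≤ ((X.sep2 l u v).card : ℝ) +
      ((((range X.Q).filter (fun σ : ℕ => |(σ : ℝ) - u| < X.s * X.Q)).card : ℝ) +
       (((range X.Q).filter (fun σ : ℕ => |(σ : ℝ) - v| < X.s * X.Q)).card : ℝ)) := by
      exact_mod_cast h3
    linarith
  have h7 : X.s * X.Q ≤ lam / 10 * X.Q := by gcongr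
  linarith

/-- averaging over the grid. -/
theorem exists_c {lam : ℝ} (hlam0 : 0 < lam) (hlam : X.s ≤ lam / 10)
    (hTl : ∀ l ∈ X.L, lam * X.Q ≤ ((X.T l).card : ℝ))
    (hκ : X.κ ≤ lam ^ 3 * X.s ^ 4 / 160)
    (hB : ∀ σ n : ℕ, X.s * X.Q ≤ |(σ : ℝ) - X.t| → X.s * X.Q ≤ |(n : ℝ) - X.t| →
      Gw (cl X.Q) X.L X.T X.t σ n X.μ2 ≤ X.κ / 2 * X.Gam)
    (hU : X.K ^ (1 - 1 / X.α) * ((1 / X.a) * X.B * X.H) ^ (1 / X.α) *
      (X.B * (X.L.card / X.μ2)) ≤ X.κ / 2 * X.Gam) :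
    ∃ c : ℝ, X.κ * X.Gam ≤ ∑ p ∈ X.PG c, X.om p := by
  have hs := X.hs
  have hQ := X.hQr
  have hκ0 := X.hκ
  have hG0 := X.Gam_nonneg
  rcases hG0.eq_or_lt with hG | hG
  · refine ⟨0, ?_⟩
    rw [← hG, mul_zero]
    exact sum_nonneg (fun p _ => X.om_nonneg p)
  -- indicator functions
  let A0 : Tri m → Finset ℕ := fun p => X.sep2 p.1 X.t X.t
  let A1 : Tri m → Finset ℕ := fun p => X.sep2 p.2.1 X.t X.q
  let A2 : Tri m → Finset ℕ := fun p => X.sep2 p.2.2 X.q X.t3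
  let cc : ℤ → ℕ → ℝ := fun j τ => X.c1 (X.cj j) τ
  let e : Tri m → ℤ → ℕ → ℕ → ℝ := fun p j τ σ =>
    if 0 ≤ X.xr (cc j τ) σ ∧ X.nx (cc j τ) σ ∈ A0 p then 1 else 0
  let e1 : Tri m → ℤ → ℕ → ℕ → ℝ := fun p j τ σ =>
    if (X.s * X.Q ≤ |(σ : ℝ) - X.t| ∧ X.s * X.Q ≤ |(X.nx (cc j τ) σ : ℝ) - X.t|) ∧
      σ ∈ X.T p.2.1 ∧ X.nx (cc j τ) σ ∈ X.T p.1 ∧
      mult (cl X.Q) X.L X.T X.t σ (X.nx (cc j τ) σ) (cl X.Q p.2.1 σ)
        (cl X.Q p.1 (X.nx (cc j τ) σ)) ≤ X.μ2 then 1 else 0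
  let e2 : Tri m → ℤ → ℕ → ℕ → ℝ := fun p j τ σ =>
    if σ ∈ X.SS (cc j τ) (p.2.1, p.1) ∧
      ((X.SS (cc j τ) (p.2.1, p.1)).card : ℝ) < X.κ * X.Q then 1 else 0
  let e3 : Tri m → ℤ → ℕ → ℕ → ℝ := fun p j τ _ =>
    if (p.2.1, p.1) ∈ X.VV (cc j τ) ∧ X.wc (cc j τ) (p.2.1, p.1) ∉ X.WW (cc j τ) then 1 else 0
  let e4 : Tri m → ℤ → ℕ → ℕ → ℝ := fun p j τ _ =>
    if τ ∈ X.RR (X.cj j) p then 1 else 0
  have e1n : ∀ p j τ σ, 0 ≤ e1 p j τ σ := by intro p j τ σ; simp only [e1]; split_ifs <;> norm_num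
  have e2n : ∀ p j τ σ, 0 ≤ e2 p j τ σ := by intro p j τ σ; simp only [e2]; split_ifs <;> norm_num
  have e3n : ∀ p j τ σ, 0 ≤ e3 p j τ σ := by intro p j τ σ; simp only [e3]; split_ifs <;> norm_num
  have e4n : ∀ p j τ σ, 0 ≤ e4 p j τ σ := by intro p j τ σ; simp only [e4]; split_ifs <;> norm_num
  -- pointwise bound
  have hpt : ∀ p ∈ X.PP, ∀ τ ∈ A2 p, ∀ σ ∈ A1 p, ∀ j : ℤ,
      e p j τ σ ≤ e1 p j τ σ + e2 p j τ σ + e3 p j τ σ + e4 p j τ σ := by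
    intro p hp τ hτ σ hσ j
    have h1 := e1n p j τ σ
    have h2 := e2n p j τ σ
    have h3 := e3n p j τ σ
    have h4 := e4n p j τ σ
    by_cases he : 0 ≤ X.xr (cc j τ) σ ∧ X.nx (cc j τ) σ ∈ A0 p
    · have he' : e p j τ σ = 1 := if_pos he
      rw [he']
      have hn := mem_sep2.1 he.2
      have hσ' := mem_sep2.1 hσ
      have hτ' := mem_sep2.1 hτ
      have hp' := mem_PP.1 hp
      by_cases c1 : mult (cl X.Q) X.L X.T X.t σ (X.nx (cc j τ) σ) (cl X.Q p.2.1 σ)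
          (cl X.Q p.1 (X.nx (cc j τ) σ)) ≤ X.μ2
      · have : e1 p j τ σ = 1 := if_pos ⟨⟨hσ'.2.1, hn.2.1⟩, hσ'.1, hn.1, c1⟩
        linarith
      · have hSS : σ ∈ X.SS (cc j τ) (p.2.1, p.1) :=
          mem_SS.2 ⟨hσ'.1, hσ'.2.1, hσ'.2.2, he.1, hn.1, hn.2.1, not_le.1 c1⟩
        by_cases c2 : ((X.SS (cc j τ) (p.2.1, p.1)).card : ℝ) < X.κ * X.Q
        · have : e2 p j τ σ = 1 := if_pos ⟨hSS, c2⟩
          linarith
        · have hVV : (p.2.1, p.1) ∈ X.VV (cc j τ) :=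
            mem_VV.2 ⟨⟨(mem_AA.1 hp'.1.2).1.1, hp'.1.1⟩, hp'.2.1.1, hp'.2.1.2.1, hp'.2.1.2.2,
              not_lt.1 c2⟩
          by_cases c3 : X.wc (cc j τ) (p.2.1, p.1) ∈ X.WW (cc j τ)
          · have : e4 p j τ σ = 1 := if_pos (mem_RR.2 ⟨hτ'.1, hτ'.2.1, hτ'.2.2, hVV, c3⟩)
            linarith
          · have : e3 p j τ σ = 1 := if_pos ⟨hVV, c3⟩
            linarith
    · have he' : e p j τ σ = 0 := if_neg he
      rw [he']; linarith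
  -- lower bound
  have hlow : ∀ p ∈ X.PP, (lam / 2 * X.Q) ^ 3 ≤ ∑ τ ∈ A2 p, ∑ σ ∈ A1 p, ∑ j ∈ X.JS, e p j τ σ := by
    intro p hp
    have hp' := mem_PP.1 hp
    have hA' := mem_AA.1 hp'.1.2
    have k0 : lam / 2 * X.Q ≤ ((A0 p).card : ℝ) := X.sep2_card hlam hp'.1.1 (hTl _ hp'.1.1) _ _
    have k1 : lam / 2 * X.Q ≤ ((A1 p).card : ℝ) := X.sep2_card hlam hA'.1.1 (hTl _ hA'.1.1) _ _
    have k2 : lam / 2 * X.Q ≤ ((A2 p).card : ℝ) := X.sep2_card hlam hA'.1.2 (hTl _ hA'.1.2) _ _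
    have hin : ∀ τ ∈ A2 p, ∀ σ ∈ A1 p, ((A0 p).card : ℝ) ≤ ∑ j ∈ X.JS, e p j τ σ := by
      intro τ hτ σ hσ
      have hσ' := mem_sep2.1 hσ
      have hτ' := mem_sep2.1 hτ
      have h1 : ∑ j ∈ X.JS, e p j τ σ = ((X.JS.filter (fun j => 0 ≤ X.xr (cc j τ) σ ∧
          X.nx (cc j τ) σ ∈ A0 p)).card : ℝ) := by
        simp only [e]
        rw [sum_boole]
      rw [h1]
      have h2 : A0 p ⊆ (X.JS.filter (fun j => 0 ≤ X.xr (cc j τ) σ ∧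
          X.nx (cc j τ) σ ∈ A0 p)).image (fun j => X.nx (cc j τ) σ) := by
        intro n hn
        have hn' := mem_sep2.1 hn
        obtain ⟨j, hj1, hj2, hj3⟩ := X.grid_hit (X.mem_lt hA'.1.2 hτ'.1) (X.mem_lt hA'.1.1 hσ'.1)
          (X.mem_lt hp'.1.1 hn'.1) hτ'.2.1 hτ'.2.2 hσ'.2.1 hσ'.2.2
        refine mem_image.2 ⟨j, mem_filter.2 ⟨hj1, hj2, ?_⟩, hj3⟩
        change X.nx (X.c1 (X.cj j) τ) σ ∈ A0 p
        rw [hj3]; exact hn
      exact_mod_cast le_trans (card_le_card h2) card_image_le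
    have hpos : 0 ≤ lam / 2 * X.Q := by positivity
    calc (lam / 2 * X.Q) ^ 3 = (lam / 2 * X.Q) * ((lam / 2 * X.Q) * (lam / 2 * X.Q)) := by ring
      _ ≤ ((A2 p).card : ℝ) * (((A1 p).card : ℝ) * ((A0 p).card : ℝ)) := by gcongr
      _ = ∑ τ ∈ A2 p, ∑ σ ∈ A1 p, ((A0 p).card : ℝ) := by simp
      _ ≤ _ := sum_le_sum (fun τ hτ => sum_le_sum (fun σ hσ => hin τ hτ σ hσ))
  -- combine
  have hA1sub : ∀ p ∈ X.PP, A1 p ⊆ range X.Q := by
    intro p hp σ hσ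
    exact X.hT _ (mem_AA.1 (mem_PP.1 hp).1.2).1.1 (mem_sep2.1 hσ).1
  have hA2sub : ∀ p ∈ X.PP, A2 p ⊆ range X.Q := by
    intro p hp σ hσ
    exact X.hT _ (mem_AA.1 (mem_PP.1 hp).1.2).1.2 (mem_sep2.1 hσ).1
  set R := range X.Q with hR
  have hcomb : ∀ p ∈ X.PP, (lam / 2 * X.Q) ^ 3 ≤
      ∑ τ ∈ R, ∑ σ ∈ R, ∑ j ∈ X.JS, (e1 p j τ σ + e2 p j τ σ + e3 p j τ σ + e4 p j τ σ) := by
    intro p hp
    refine le_trans (hlow p hp) ?_
    calc ∑ τ ∈ A2 p, ∑ σ ∈ A1 p, ∑ j ∈ X.JS, e p j τ σ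
        ≤ ∑ τ ∈ A2 p, ∑ σ ∈ A1 p, ∑ j ∈ X.JS,
          (e1 p j τ σ + e2 p j τ σ + e3 p j τ σ + e4 p j τ σ) :=
          sum_le_sum (fun τ hτ => sum_le_sum (fun σ hσ => sum_le_sum
            (fun j _ => hpt p hp τ hτ σ hσ j)))
      _ ≤ ∑ τ ∈ R, ∑ σ ∈ A1 p, ∑ j ∈ X.JS,
          (e1 p j τ σ + e2 p j τ σ + e3 p j τ σ + e4 p j τ σ) := by
          apply sum_le_sum_of_subset_of_nonneg (hA2sub p hp)
          intro τ _ _
          exact sum_nonneg (fun σ _ => sum_nonneg (fun j _ => by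
            have h1 := e1n p j τ σ
            have h2 := e2n p j τ σ
            have h3 := e3n p j τ σ
            have h4 := e4n p j τ σ
            linarith))
      _ ≤ _ := by
          apply sum_le_sum
          intro τ _
          apply sum_le_sum_of_subset_of_nonneg (hA1sub p hp)
          intro σ _ _
          exact sum_nonneg (fun j _ => by
            have h1 := e1n p j τ σ
            have h2 := e2n p j τ σ
            have h3 := e3n p j τ σ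
            have h4 := e4n p j τ σ
            linarith)
  -- total sums
  have hΓ : X.Gam * (lam / 2 * X.Q) ^ 3 ≤ ∑ τ ∈ R, ∑ σ ∈ R, ∑ j ∈ X.JS, ∑ p ∈ X.PP, X.om p *
      (e1 p j τ σ + e2 p j τ σ + e3 p j τ σ + e4 p j τ σ) := by
    calc X.Gam * (lam / 2 * X.Q) ^ 3 = ∑ p ∈ X.PP, X.om p * (lam / 2 * X.Q) ^ 3 := by
          rw [← sum_mul, X.sum_PP_om]
      _ ≤ ∑ p ∈ X.PP, X.om p * ∑ τ ∈ R, ∑ σ ∈ R, ∑ j ∈ X.JS,
          (e1 p j τ σ + e2 p j τ σ + e3 p j τ σ + e4 p j τ σ) :=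
          sum_le_sum (fun p hp => mul_le_mul_of_nonneg_left (hcomb p hp) (X.om_nonneg p))
      _ = ∑ p ∈ X.PP, ∑ τ ∈ R, ∑ σ ∈ R, ∑ j ∈ X.JS, X.om p *
          (e1 p j τ σ + e2 p j τ σ + e3 p j τ σ + e4 p j τ σ) := by
          simp only [mul_sum]
      _ = _ := by
          rw [sum_comm]
          apply sum_congr rfl
          intro τ _
          rw [sum_comm]
          apply sum_congr rfl
          intro σ _
          rw [sum_comm]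
  -- bound on the four sums
  have hS1 : ∀ τ ∈ R, ∀ σ ∈ R, ∀ j ∈ X.JS, ∑ p ∈ X.PP, X.om p * e1 p j τ σ ≤
      X.κ / 2 * X.Gam := by
    intro τ _ σ _ j _
    by_cases hadm : X.s * X.Q ≤ |(σ : ℝ) - X.t| ∧ X.s * X.Q ≤ |(X.nx (cc j τ) σ : ℝ) - X.t|
    · refine le_trans ?_ (hB σ (X.nx (cc j τ) σ) hadm.1 hadm.2)
      let y : Line m × Line m → ℝ := fun r => if σ ∈ X.T r.1 ∧ X.nx (cc j τ) σ ∈ X.T r.2 ∧
        mult (cl X.Q) X.L X.T X.t σ (X.nx (cc j τ) σ) (cl X.Q r.1 σ)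
          (cl X.Q r.2 (X.nx (cc j τ) σ)) ≤ X.μ2 then 1 else 0
      have hy : ∀ r, 0 ≤ y r := by intro r; simp only [y]; split_ifs <;> norm_num
      have h1 : ∀ p : Tri m, e1 p j τ σ = y (p.2.1, p.1) := by
        intro p
        simp only [e1, y]
        by_cases h : σ ∈ X.T p.2.1 ∧ X.nx (cc j τ) σ ∈ X.T p.1 ∧
          mult (cl X.Q) X.L X.T X.t σ (X.nx (cc j τ) σ) (cl X.Q p.2.1 σ)
            (cl X.Q p.1 (X.nx (cc j τ) σ)) ≤ X.μ2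
        · rw [if_pos ⟨hadm, h⟩, if_pos h]
        · rw [if_neg (fun h' => h h'.2), if_neg h]
      calc ∑ p ∈ X.PP, X.om p * e1 p j τ σ = ∑ p ∈ X.PP, X.om p * y (p.2.1, p.1) := by
            simp only [h1]
        _ ≤ ∑ r ∈ X.L ×ˢ X.L, wt (cl X.Q) X.L X.T X.t r.1 r.2 * y r := X.sum_om_mul_le y hy
        _ = Gw (cl X.Q) X.L X.T X.t σ (X.nx (cc j τ) σ) X.μ2 := by
            unfold Gw
            rw [sum_filter]
            apply sum_congr rfl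
            intro r _
            simp only [y]
            split_ifs <;> ring
    · have h1 : ∀ p ∈ X.PP, X.om p * e1 p j τ σ = 0 := by
        intro p _
        have : e1 p j τ σ = 0 := if_neg (fun h => hadm h.1)
        rw [this, mul_zero]
      rw [sum_eq_zero h1]
      positivity
  have hS3 : ∀ τ ∈ R, ∀ σ ∈ R, ∀ j ∈ X.JS, ∑ p ∈ X.PP, X.om p * e3 p j τ σ ≤
      X.κ / 2 * X.Gam := by
    intro τ _ σ _ j _
    refine le_trans ?_ (le_trans (X.unpop_weight (cc j τ)) hU)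
    let y : Line m × Line m → ℝ := fun r =>
      if r ∈ X.VV (cc j τ) ∧ X.wc (cc j τ) r ∉ X.WW (cc j τ) then 1 else 0
    have hy : ∀ r, 0 ≤ y r := by intro r; simp only [y]; split_ifs <;> norm_num
    calc ∑ p ∈ X.PP, X.om p * e3 p j τ σ = ∑ p ∈ X.PP, X.om p * y (p.2.1, p.1) := rfl
      _ ≤ ∑ r ∈ X.L ×ˢ X.L, wt (cl X.Q) X.L X.T X.t r.1 r.2 * y r := X.sum_om_mul_le y hy
      _ = ∑ r ∈ (X.L ×ˢ X.L).filter (fun r => r ∈ X.VV (cc j τ) ∧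
            X.wc (cc j τ) r ∉ X.WW (cc j τ)), wt (cl X.Q) X.L X.T X.t r.1 r.2 := by
          rw [sum_filter]
          apply sum_congr rfl
          intro r _
          simp only [y]
          split_ifs <;> ring
      _ ≤ ∑ x ∈ (X.VV (cc j τ)).filter (fun x => X.wc (cc j τ) x ∉ X.WW (cc j τ)),
            wt (cl X.Q) X.L X.T X.t x.1 x.2 := by
          apply sum_le_sum_of_subset_of_nonneg
          · intro r hr
            rw [mem_filter] at hr ⊢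
            exact hr.2
          · intro r _ _; exact wt_nonneg _ _ _
  have hS2 : ∀ τ ∈ R, ∀ j ∈ X.JS, ∑ p ∈ X.PP, X.om p * ∑ σ ∈ R, e2 p j τ σ ≤
      X.Gam * (X.κ * X.Q) := by
    intro τ _ j _
    rw [← X.sum_PP_om, sum_mul]
    apply sum_le_sum
    intro p hp
    apply mul_le_mul_of_nonneg_left _ (X.om_nonneg p)
    simp only [e2]
    rw [sum_boole]
    by_cases h : ((X.SS (cc j τ) (p.2.1, p.1)).card : ℝ) < X.κ * X.Q
    · refine le_trans ?_ h.le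
      norm_cast
      apply card_le_card
      intro σ hσ
      exact (mem_filter.1 hσ).2.1
    · have h1 : R.filter (fun σ => σ ∈ X.SS (cc j τ) (p.2.1, p.1) ∧
          ((X.SS (cc j τ) (p.2.1, p.1)).card : ℝ) < X.κ * X.Q) = ∅ := by
        apply filter_false_of_mem
        intro σ _ h'
        exact h h'.2
      rw [h1]
      simp only [card_empty, Nat.cast_zero]
      positivity
  have hS4 : ∀ j ∈ X.JS, ∑ τ ∈ R, ∑ σ ∈ R, ∑ p ∈ X.PP, X.om p * e4 p j τ σ ≤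
      X.Q * ∑ p ∈ X.PP, X.om p * ((X.RR (X.cj j) p).card : ℝ) := by
    intro j _
    have h1 : ∀ τ ∈ R, ∑ σ ∈ R, ∑ p ∈ X.PP, X.om p * e4 p j τ σ =
        X.Q * ∑ p ∈ X.PP, X.om p * (if τ ∈ X.RR (X.cj j) p then (1 : ℝ) else 0) := by
      intro τ _
      simp only [e4, sum_const, hR, card_range, nsmul_eq_mul]
    rw [sum_congr rfl h1, ← mul_sum, sum_comm]
    apply mul_le_mul_of_nonneg_left _ hQ.le
    apply sum_le_sum
    intro p _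
    rw [← mul_sum, sum_boole]
    apply mul_le_mul_of_nonneg_left _ (X.om_nonneg p)
    norm_cast
    apply card_le_card
    intro τ hτ
    exact (mem_filter.1 hτ).2
  have hsplit : ∑ τ ∈ R, ∑ σ ∈ R, ∑ j ∈ X.JS, ∑ p ∈ X.PP, X.om p *
      (e1 p j τ σ + e2 p j τ σ + e3 p j τ σ + e4 p j τ σ) =
      (∑ τ ∈ R, ∑ σ ∈ R, ∑ j ∈ X.JS, ∑ p ∈ X.PP, X.om p * e1 p j τ σ) +
      (∑ τ ∈ R, ∑ j ∈ X.JS, ∑ p ∈ X.PP, X.om p * ∑ σ ∈ R, e2 p j τ σ) +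
      (∑ τ ∈ R, ∑ σ ∈ R, ∑ j ∈ X.JS, ∑ p ∈ X.PP, X.om p * e3 p j τ σ) +
      (∑ j ∈ X.JS, ∑ τ ∈ R, ∑ σ ∈ R, ∑ p ∈ X.PP, X.om p * e4 p j τ σ) := by
    have h2 : ∑ τ ∈ R, ∑ j ∈ X.JS, ∑ p ∈ X.PP, X.om p * ∑ σ ∈ R, e2 p j τ σ =
        ∑ τ ∈ R, ∑ σ ∈ R, ∑ j ∈ X.JS, ∑ p ∈ X.PP, X.om p * e2 p j τ σ := by
      apply sum_congr rfl
      intro τ _
      calc ∑ j ∈ X.JS, ∑ p ∈ X.PP, X.om p * ∑ σ ∈ R, e2 p j τ σ
          = ∑ j ∈ X.JS, ∑ p ∈ X.PP, ∑ σ ∈ R, X.om p * e2 p j τ σ := by simp only [mul_sum]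
        _ = ∑ j ∈ X.JS, ∑ σ ∈ R, ∑ p ∈ X.PP, X.om p * e2 p j τ σ :=
            sum_congr rfl (fun j _ => sum_comm)
        _ = ∑ σ ∈ R, ∑ j ∈ X.JS, ∑ p ∈ X.PP, X.om p * e2 p j τ σ := sum_comm
    have h4 : ∑ j ∈ X.JS, ∑ τ ∈ R, ∑ σ ∈ R, ∑ p ∈ X.PP, X.om p * e4 p j τ σ =
        ∑ τ ∈ R, ∑ σ ∈ R, ∑ j ∈ X.JS, ∑ p ∈ X.PP, X.om p * e4 p j τ σ := by
      rw [sum_comm]
      apply sum_congr rfl
      intro τ _
      rw [sum_comm]
    rw [h2, h4]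
    simp only [mul_add, sum_add_distrib]
  set W := ∑ j ∈ X.JS, ∑ p ∈ X.PP, X.om p * ((X.RR (X.cj j) p).card : ℝ) with hW
  have hRcard : (R.card : ℝ) = X.Q := by rw [hR, card_range]
  have t1 : ∑ τ ∈ R, ∑ σ ∈ R, ∑ j ∈ X.JS, ∑ p ∈ X.PP, X.om p * e1 p j τ σ ≤
      X.Q * (X.Q * (X.JS.card * (X.κ / 2 * X.Gam))) := by
    calc _ ≤ ∑ τ ∈ R, ∑ σ ∈ R, ∑ j ∈ X.JS, X.κ / 2 * X.Gam :=
          sum_le_sum (fun τ hτ => sum_le_sum (fun σ hσ => sum_le_sum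
            (fun j hj => hS1 τ hτ σ hσ j hj)))
      _ = _ := by simp only [sum_const, nsmul_eq_mul, hRcard]
  have t3 : ∑ τ ∈ R, ∑ σ ∈ R, ∑ j ∈ X.JS, ∑ p ∈ X.PP, X.om p * e3 p j τ σ ≤
      X.Q * (X.Q * (X.JS.card * (X.κ / 2 * X.Gam))) := by
    calc _ ≤ ∑ τ ∈ R, ∑ σ ∈ R, ∑ j ∈ X.JS, X.κ / 2 * X.Gam :=
          sum_le_sum (fun τ hτ => sum_le_sum (fun σ hσ => sum_le_sum
            (fun j hj => hS3 τ hτ σ hσ j hj)))
      _ = _ := by simp only [sum_const, nsmul_eq_mul, hRcard]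
  have t2 : ∑ τ ∈ R, ∑ j ∈ X.JS, ∑ p ∈ X.PP, X.om p * ∑ σ ∈ R, e2 p j τ σ ≤
      X.Q * (X.JS.card * (X.Gam * (X.κ * X.Q))) := by
    calc _ ≤ ∑ τ ∈ R, ∑ j ∈ X.JS, X.Gam * (X.κ * X.Q) :=
          sum_le_sum (fun τ hτ => sum_le_sum (fun j hj => hS2 τ hτ j hj))
      _ = _ := by simp only [sum_const, nsmul_eq_mul, hRcard]
  have t4 : ∑ j ∈ X.JS, ∑ τ ∈ R, ∑ σ ∈ R, ∑ p ∈ X.PP, X.om p * e4 p j τ σ ≤ X.Q * W := by
    rw [hW, mul_sum]
    exact sum_le_sum (fun j hj => hS4 j hj)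
  rw [hsplit] at hΓ
  have hJ := X.JS_card
  have hmain : X.Gam * (lam / 2 * X.Q) ^ 3 ≤ 2 * X.κ * X.Gam * X.Q ^ 2 * X.JS.card + X.Q * W := by
    calc X.Gam * (lam / 2 * X.Q) ^ 3 ≤ X.Q * (X.Q * (X.JS.card * (X.κ / 2 * X.Gam))) +
          X.Q * (X.JS.card * (X.Gam * (X.κ * X.Q))) +
          X.Q * (X.Q * (X.JS.card * (X.κ / 2 * X.Gam))) + X.Q * W := by linarith
      _ = _ := by ring
  -- existence of a good index
  have hex : ∃ j ∈ X.JS, 2 * X.κ * X.Q * X.Gam ≤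
      ∑ p ∈ X.PP, X.om p * ((X.RR (X.cj j) p).card : ℝ) := by
    by_contra hno
    push Not at hno
    have hne : X.JS.Nonempty := ⟨0, by unfold JS; rw [mem_Icc]; constructor <;> omega⟩
    have hWlt : W < X.JS.card * (2 * X.κ * X.Q * X.Gam) := by
      calc W < ∑ j ∈ X.JS, 2 * X.κ * X.Q * X.Gam := sum_lt_sum_of_nonempty hne hno
        _ = _ := by simp
    have h1 : X.Gam * (lam / 2 * X.Q) ^ 3 < 4 * X.κ * X.Gam * X.Q ^ 2 * X.JS.card := by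
      calc X.Gam * (lam / 2 * X.Q) ^ 3 ≤ 2 * X.κ * X.Gam * X.Q ^ 2 * X.JS.card + X.Q * W := hmain
        _ < 2 * X.κ * X.Gam * X.Q ^ 2 * X.JS.card +
            X.Q * (X.JS.card * (2 * X.κ * X.Q * X.Gam)) := by gcongr
        _ = _ := by ring
    have h2 : 4 * X.κ * X.Gam * X.Q ^ 2 * X.JS.card ≤
        4 * (lam ^ 3 * X.s ^ 4 / 160) * X.Gam * X.Q ^ 2 * (5 * X.Q / X.s ^ 4) := by gcongr
    have h3 : 4 * (lam ^ 3 * X.s ^ 4 / 160) * X.Gam * X.Q ^ 2 * (5 * X.Q / X.s ^ 4) =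
        X.Gam * (lam / 2 * X.Q) ^ 3 := by
      field_simp; ring
    linarith
  obtain ⟨j, _, hj⟩ := hex
  refine ⟨X.cj j, ?_⟩
  have hfin : ∑ p ∈ X.PP, X.om p * ((X.RR (X.cj j) p).card : ℝ) ≤
      X.Q * ∑ p ∈ X.PG (X.cj j), X.om p + X.κ * X.Q * X.Gam := by
    rw [← sum_filter_add_sum_filter_not X.PP
      (fun p => X.κ * X.Q ≤ ((X.RR (X.cj j) p).card : ℝ))]
    apply add_le_add
    · rw [mul_sum]
      apply sum_le_sum
      intro p hp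
      have hpP := mem_PP.1 (mem_filter.1 hp).1
      have h1 : ((X.RR (X.cj j) p).card : ℝ) ≤ X.Q := by
        have h2 : X.RR (X.cj j) p ⊆ range X.Q := by
          intro τ hτ
          exact X.hT _ (mem_AA.1 hpP.1.2).1.2 (mem_RR.1 hτ).1
        have := card_le_card h2
        rw [card_range] at this
        exact_mod_cast this
      rw [mul_comm]
      exact mul_le_mul_of_nonneg_right h1 (X.om_nonneg p)
    · calc ∑ p ∈ X.PP.filter (fun p => ¬ X.κ * X.Q ≤ ((X.RR (X.cj j) p).card : ℝ)),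
            X.om p * ((X.RR (X.cj j) p).card : ℝ)
          ≤ ∑ p ∈ X.PP.filter (fun p => ¬ X.κ * X.Q ≤ ((X.RR (X.cj j) p).card : ℝ)),
            X.om p * (X.κ * X.Q) := by
            apply sum_le_sum
            intro p hp
            exact mul_le_mul_of_nonneg_left (not_le.1 (mem_filter.1 hp).2).le (X.om_nonneg p)
        _ ≤ ∑ p ∈ X.PP, X.om p * (X.κ * X.Q) := by
            apply sum_le_sum_of_subset_of_nonneg (filter_subset _ _)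
            intro p _ _
            have := X.om_nonneg p
            positivity
        _ = X.κ * X.Q * X.Gam := by
            rw [← sum_mul, X.sum_PP_om]; ring
  have h5 : X.Q * (X.κ * X.Gam) ≤ X.Q * ∑ p ∈ X.PG (X.cj j), X.om p := by linarith
  exact le_of_mul_le_mul_left h5 hQ

end Cfg

end Pool.Agent.Helper84.Kak
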