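import Pool.Agent.Helper84.KakRoot

/-!
Base case of the iteration.
-/

noncomputable section

open Finset Classical

namespace Pool.Agent.Helper84.Kak

lemma pair_count {m Q : ℕ} (hQ : 0 < Q) (L : Finset (Line m)) (T : Line m → Finset ℕ)
    {s : ℝ} (hs : 0 < s) (hinj : Set.InjOn (fun l : Line m => cell l.v) L) {i j : ℕ}
    (hij : s * Q ≤ |(i : ℝ) - j|) :
    ((L.filter (fun l => i ∈ T l ∧ j ∈ T l)).card : ℝ) ≤
      (8 / s + 3) ^ m * (((cellsAt (cl Q) L T i).card : ℝ) * (cellsAt (cl Q) L T j).card) := by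
  have hQr : (0 : ℝ) < Q := by exact_mod_cast hQ
  set A := L.filter (fun l => i ∈ T l ∧ j ∈ T l) with hA
  have h := card_image_le_mul A (fun l => (cl Q l i, cl Q l j)) (fun l => l) ((8 / s + 3) ^ m) ?_
  · rw [image_id'] at h
    refine le_trans h ?_
    apply mul_le_mul_of_nonneg_left _ (by positivity)
    have h1 : A.image (fun l => (cl Q l i, cl Q l j)) ⊆
        (cellsAt (cl Q) L T i) ×ˢ (cellsAt (cl Q) L T j) := by
      intro y hy
      obtain ⟨l, hl, rfl⟩ := mem_image.1 hy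
      rw [hA, mem_filter] at hl
      rw [mem_product]
      exact ⟨mem_image.2 ⟨l, mem_filter.2 ⟨hl.1, hl.2.1⟩, rfl⟩,
        mem_image.2 ⟨l, mem_filter.2 ⟨hl.1, hl.2.2⟩, rfl⟩⟩
    have h2 := card_le_card h1
    rw [card_product] at h2
    exact_mod_cast h2
  · intro y _
    rw [image_id']
    set A' := A.filter (fun l => (cl Q l i, cl Q l j) = y) with hA'
    have hinjA : Set.InjOn (fun l : Line m => cell l.v) A' :=
      hinj.mono (fun l hl => (mem_filter.1 (mem_filter.1 hl).1).1)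
    have hclose : ∀ x ∈ A', ∀ z ∈ A', ∀ k, |x.v k - z.v k| ≤ 4 / s := by
      intro x hx z hz k
      have e : (cl Q x i, cl Q x j) = (cl Q z i, cl Q z j) :=
        (mem_filter.1 hx).2.trans (mem_filter.1 hz).2.symm
      have e1 : cl Q x i = cl Q z i := (Prod.ext_iff.1 e).1
      have e2 : cl Q x j = cl Q z j := (Prod.ext_iff.1 e).2
      exact scalar_two_pos hs hQr hij
        (le_trans (abs_sub_lt_of_floor_eq ((cell_eq_iff _ _).1 e1 k)) (by norm_num))
        (le_trans (abs_sub_lt_of_floor_eq ((cell_eq_iff _ _).1 e2 k)) (by norm_num))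
    refine le_trans (lines_card A' (fun x => x) (by positivity) hinjA hclose) (le_of_eq ?_)
    ring

theorem base_explicit {m Q : ℕ} (hQ : 0 < Q) (L : Finset (Line m)) (T : Line m → Finset ℕ)
    {s lam : ℝ} (hs : 0 < s) (hsQ : 2 ≤ s * Q) (hlam : s ≤ lam / 10)
    (hT : ∀ l ∈ L, T l ⊆ range Q) (hTl : ∀ l ∈ L, lam * Q ≤ ((T l).card : ℝ))
    (hinj : Set.InjOn (fun l : Line m => cell l.v) L) :
    (L.card : ℝ) * (lam ^ 2 / 2) ≤ (8 / s + 3) ^ m * (avg (cl Q) Q L T) ^ 2 := by
  have hQr : (0 : ℝ) < Q := by exact_mod_cast hQ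
  have hlam0 : 0 < lam := by linarith
  set R := range Q with hR
  set E : ℕ → ℝ := fun i => ((cellsAt (cl Q) L T i).card : ℝ) with hE
  have hE0 : ∀ i, 0 ≤ E i := fun i => by positivity
  have h1 : (L.card : ℝ) * (lam * Q * (lam / 2 * Q)) ≤
      ∑ i ∈ R, ∑ j ∈ R, (if s * Q ≤ |(i : ℝ) - j| then
        ((L.filter (fun l => i ∈ T l ∧ j ∈ T l)).card : ℝ) else 0) := by
    have h2 : ∑ i ∈ R, ∑ j ∈ R, (if s * Q ≤ |(i : ℝ) - j| then
        ((L.filter (fun l => i ∈ T l ∧ j ∈ T l)).card : ℝ) else 0) =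
        ∑ l ∈ L, ∑ j ∈ R, ∑ i ∈ R, (if s * Q ≤ |(i : ℝ) - j| ∧ (i ∈ T l ∧ j ∈ T l)
          then (1 : ℝ) else 0) := by
      rw [sum_comm]
      have h3 : ∀ i ∈ R, ∀ j ∈ R, (if s * Q ≤ |(i : ℝ) - j| then
        ((L.filter (fun l => i ∈ T l ∧ j ∈ T l)).card : ℝ) else 0) =
        ∑ l ∈ L, (if s * Q ≤ |(i : ℝ) - j| ∧ (i ∈ T l ∧ j ∈ T l) then (1 : ℝ) else 0) := by
        intro i _ j _
        by_cases h : s * Q ≤ |(i : ℝ) - j|
        · rw [if_pos h, ← sum_boole]
          apply sum_congr rfl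
          intro l _
          by_cases h' : i ∈ T l ∧ j ∈ T l
          · rw [if_pos h', if_pos ⟨h, h'⟩]
          · rw [if_neg h', if_neg (fun h'' => h' h''.2)]
        · rw [if_neg h]
          symm
          apply sum_eq_zero
          intro l _
          rw [if_neg (fun h'' => h h''.1)]
      calc ∑ j ∈ R, ∑ i ∈ R, (if s * Q ≤ |(i : ℝ) - j| then
            ((L.filter (fun l => i ∈ T l ∧ j ∈ T l)).card : ℝ) else 0)
          = ∑ j ∈ R, ∑ i ∈ R, ∑ l ∈ L, (if s * Q ≤ |(i : ℝ) - j| ∧ (i ∈ T l ∧ j ∈ T l)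
            then (1 : ℝ) else 0) :=
            sum_congr rfl (fun j hj => sum_congr rfl (fun i hi => h3 i hi j hj))
        _ = ∑ j ∈ R, ∑ l ∈ L, ∑ i ∈ R, (if s * Q ≤ |(i : ℝ) - j| ∧ (i ∈ T l ∧ j ∈ T l)
            then (1 : ℝ) else 0) := sum_congr rfl (fun j _ => sum_comm)
        _ = _ := sum_comm
    rw [h2]
    calc (L.card : ℝ) * (lam * Q * (lam / 2 * Q)) = ∑ l ∈ L, lam * Q * (lam / 2 * Q) := by simp
      _ ≤ _ := by
          apply sum_le_sum
          intro l hl
          calc lam * Q * (lam / 2 * Q) ≤ ((T l).card : ℝ) * (lam / 2 * Q) := by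
                have := hTl l hl
                gcongr
            _ = ∑ j ∈ T l, lam / 2 * Q := by simp
            _ ≤ ∑ j ∈ T l, (((T l).filter (fun i : ℕ => s * Q ≤ |(i : ℝ) - j|)).card : ℝ) :=
                sum_le_sum (fun j _ => sep_card hQ hs hsQ hlam (hT l hl) (hTl l hl) j)
            _ ≤ ∑ j ∈ T l, ∑ i ∈ R, (if s * Q ≤ |(i : ℝ) - j| ∧ (i ∈ T l ∧ j ∈ T l)
                  then (1 : ℝ) else 0) := by
                apply sum_le_sum
                intro j hj
                rw [sum_boole]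
                refine Nat.cast_le.mpr (card_le_card ?_)
                intro i hi
                rw [mem_filter] at hi ⊢
                exact ⟨hT l hl hi.1, hi.2, hi.1, hj⟩
            _ ≤ _ := by
                apply sum_le_sum_of_subset_of_nonneg (hT l hl)
                intro j _ _
                exact sum_nonneg (fun i _ => by split_ifs <;> norm_num)
  have h2 : ∑ i ∈ R, ∑ j ∈ R, (if s * Q ≤ |(i : ℝ) - j| then
        ((L.filter (fun l => i ∈ T l ∧ j ∈ T l)).card : ℝ) else 0) ≤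
      ∑ i ∈ R, ∑ j ∈ R, (8 / s + 3) ^ m * (E i * E j) := by
    apply sum_le_sum
    intro i _
    apply sum_le_sum
    intro j _
    split_ifs with h
    · exact pair_count hQ L T hs hinj h
    · have h3 := hE0 i
      have h4 := hE0 j
      positivity
  have h3 : ∑ i ∈ R, ∑ j ∈ R, (8 / s + 3) ^ m * (E i * E j) =
      (8 / s + 3) ^ m * (avg (cl Q) Q L T * Q) ^ 2 := by
    have h4 : ∑ i ∈ R, E i = avg (cl Q) Q L T * Q := sum_cells_eq hQ L T
    rw [← h4, sq, sum_mul_sum, mul_sum]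
    apply sum_congr rfl
    intro i _
    rw [mul_sum]
  have h5 : (L.card : ℝ) * (lam ^ 2 / 2) * (Q : ℝ) ^ 2 ≤
      (8 / s + 3) ^ m * (avg (cl Q) Q L T) ^ 2 * (Q : ℝ) ^ 2 := by
    calc (L.card : ℝ) * (lam ^ 2 / 2) * (Q : ℝ) ^ 2 = (L.card : ℝ) * (lam * Q * (lam / 2 * Q)) := by
          ring
      _ ≤ _ := h1
      _ ≤ _ := h2
      _ = _ := h3
      _ = _ := by ring
  exact le_of_mul_le_mul_right h5 (by positivity)

theorem IH_two (m : ℕ) : IH m 2 := by
  intro ε hε
  set W : ℝ := 100 * (m + 1) with hW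
  have hW0 : 0 < W := by positivity
  set δ0 : ℝ := min ε 1 with hδ0
  have hδpos : 0 < δ0 := by
    rw [hδ0]
    exact lt_min hε (by norm_num)
  have hδ1 : δ0 ≤ 1 := min_le_right _ _
  have hδ2 : δ0 ≤ ε := min_le_left _ _
  set η : ℝ := δ0 / W with hη
  have hηpos : 0 < η := by positivity
  refine ⟨η, hηpos, max 5 ⌈Real.exp (100 / η)⌉₊, ?_⟩
  intro Q hQ L T hyp hinj
  have hQ5 : 5 ≤ Q := le_trans (le_max_left _ _) hQ
  have hQe : ⌈Real.exp (100 / η)⌉₊ ≤ Q := le_trans (le_max_right _ _) hQ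
  have hQ0 : 0 < Q := by omega
  have hQr : (0 : ℝ) < Q := by exact_mod_cast hQ0
  set x : ℝ := Real.log Q with hx
  have hxη : 100 / η ≤ x := by
    rw [hx, Real.le_log_iff_exp_le hQr]
    exact le_trans (Nat.le_ceil _) (by exact_mod_cast hQe)
  set u : ℝ := η * x with hu
  have hu100 : 100 ≤ u := by
    rw [hu]
    calc (100 : ℝ) = η * (100 / η) := by field_simp
      _ ≤ η * x := by gcongr
  have hWu : W * u = δ0 * x := by rw [hu, hη]; field_simp
  have hx0 : 0 < x := by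
    by_contra hneg
    push Not at hneg
    have : u ≤ 0 := mul_nonpos_of_nonneg_of_nonpos hηpos.le hneg
    linarith
  have heW : W * u ≤ ε * x := by rw [hWu]; gcongr
  have hxW : W * u ≤ x := by
    rw [hWu]
    calc δ0 * x ≤ 1 * x := by gcongr
      _ = x := one_mul x
  have hmu : (0 : ℝ) ≤ m * u := by positivity
  have hWu' : W * u = 100 * (m * u) + 100 * u := by rw [hW]; ring
  set lam : ℝ := (Q : ℝ) ^ (-η) with hlam
  have hlam0 : 0 < lam := Real.rpow_pos_of_pos hQr _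
  have hloglam : Real.log lam = -u := by rw [hlam, Real.log_rpow hQr, hu]; ring
  have hlam1 : lam ≤ 1 := by
    rw [← Real.log_nonpos_iff hlam0.le, hloglam]; linarith
  have hlamQ : lam * Q = (Q : ℝ) ^ (1 - η) := by
    rw [hlam, sub_eq_add_neg, add_comm, Real.rpow_add hQr, Real.rpow_one]
  have hl2 := Real.log_two_lt_d9
  have hl2' : 0 < Real.log 2 := Real.log_pos (by norm_num)
  have c10 : Real.log 10 ≤ 4 * Real.log 2 := by
    have : Real.log 10 ≤ Real.log (2 ^ 4) := Real.log_le_log (by norm_num) (by norm_num)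
    rw [Real.log_pow] at this; exact_mod_cast this
  have c83 : Real.log 83 ≤ 7 * Real.log 2 := by
    have : Real.log 83 ≤ Real.log (2 ^ 7) := Real.log_le_log (by norm_num) (by norm_num)
    rw [Real.log_pow] at this; exact_mod_cast this
  have hsQ : 2 ≤ lam / 10 * Q := by
    rw [← Real.log_le_log_iff (by norm_num) (by positivity), Real.log_mul (by positivity) hQr.ne',
      Real.log_div hlam0.ne' (by norm_num), hloglam]
    change Real.log 2 ≤ -u - Real.log 10 + x
    linarith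
  have h1 := base_explicit hQ0 L T (s := lam / 10) (lam := lam) (by positivity) hsQ le_rfl
    (fun l hl => (hyp l hl).2.1) (fun l hl => by rw [hlamQ]; exact (hyp l hl).2.2) hinj
  set N0 := avg (cl Q) Q L T with hN0
  have hN00 : 0 ≤ N0 := avg_nonneg _ _ _ _
  have h2 : 8 / (lam / 10) + 3 ≤ 83 / lam := by
    have : 1 ≤ 1 / lam := by rw [le_div_iff₀ hlam0]; linarith
    calc 8 / (lam / 10) + 3 ≤ 8 / (lam / 10) + 3 * (1 / lam) := by linarith
      _ = 83 / lam := by field_simp; norm_num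
  have h3 : 2 / lam ^ 2 * (83 / lam) ^ m ≤ (Q : ℝ) ^ ε := by
    rw [← Real.log_le_log_iff (by positivity) (by positivity), Real.log_rpow hQr,
      Real.log_mul (by positivity) (by positivity), Real.log_pow,
      Real.log_div (by norm_num) (by positivity), Real.log_pow,
      Real.log_div (by norm_num) hlam0.ne', hloglam]
    push_cast
    have h4 : (m : ℝ) * (Real.log 83 - -u) ≤ m * (2 * u) := by
      apply mul_le_mul_of_nonneg_left _ (by positivity)
      linarith
    change Real.log 2 - 2 * -u + m * (Real.log 83 - -u) ≤ ε * x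
    linarith
  have h5 : (L.card : ℝ) ≤ 2 / lam ^ 2 * (83 / lam) ^ m * N0 ^ 2 := by
    have h6 : (L.card : ℝ) * (lam ^ 2 / 2) ≤ (83 / lam) ^ m * N0 ^ 2 := by
      refine le_trans h1 ?_
      gcongr
    calc (L.card : ℝ) = 2 / lam ^ 2 * ((L.card : ℝ) * (lam ^ 2 / 2)) := by field_simp
      _ ≤ 2 / lam ^ 2 * ((83 / lam) ^ m * N0 ^ 2) := by gcongr
      _ = _ := by ring
  calc (L.card : ℝ) ≤ 2 / lam ^ 2 * (83 / lam) ^ m * N0 ^ 2 := h5
    _ ≤ (Q : ℝ) ^ ε * N0 ^ 2 := by gcongr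
    _ = (Q : ℝ) ^ ε * N0 ^ (2 : ℝ) := by rw [Real.rpow_two]

end Pool.Agent.Helper84.Kak
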