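import Pool.Agent.Helper84.KakBase
import Pool.Agent.Helper39.DiscD

/-!
From the inductive statement to the discrete statement, and the dimension bound.
-/

noncomputable section

open Finset

namespace Pool.Agent.Helper84.Kak

/-- a pair of vectors as a line. -/
def toLine {m : ℕ} (p : (Fin m → ℝ) × (Fin m → ℝ)) : Line m := ⟨p.1, p.2⟩

lemma toLine_inj {m : ℕ} : Function.Injective (toLine (m := m)) := by
  intro p q h
  unfold toLine at h
  rw [Line.mk.injEq] at h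
  exact Prod.ext h.1 h.2

/-- a line as a pair of vectors. -/
def ofLine {m : ℕ} (l : Line m) : (Fin m → ℝ) × (Fin m → ℝ) := (l.x, l.v)

theorem discrete_of_IH {m : ℕ} {α : ℝ} (hα : 0 ≤ α) (h : IH m α) :
    Pool.Agent.Helper39.DiscreteIH m α := by
  classical
  intro ε hε
  obtain ⟨η, hη, Q0, hQ0⟩ := h ε hε
  refine ⟨η, hη, Q0, ?_⟩
  intro Q hQ L T hv hinj hT hTl
  let e : (Fin m → ℝ) × (Fin m → ℝ) ↪ Line m := ⟨toLine, toLine_inj⟩
  have h1 := hQ0 Q hQ (L.map e) (fun l => T (ofLine l)) ?_ ?_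
  · rw [card_map] at h1
    refine le_trans h1 ?_
    apply mul_le_mul_of_nonneg_left _ (Real.rpow_nonneg (by positivity) _)
    apply Real.rpow_le_rpow (avg_nonneg _ _ _ _) _ hα
    unfold avg
    rw [div_eq_inv_mul, one_div]
    apply mul_le_mul_of_nonneg_left _ (by positivity)
    apply sum_le_sum
    intro i _
    refine Nat.cast_le.mpr ?_
    refine card_le_card_of_injOn (fun c : Cell m => (c : Fin m → ℤ)) ?_ (fun x _ y _ hxy => hxy)
    intro y hy
    obtain ⟨l, hl, rfl⟩ := mem_image.1 (mem_coe.1 hy)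
    rw [mem_filter, mem_map] at hl
    obtain ⟨⟨p, hp, rfl⟩, hi⟩ := hl
    exact mem_coe.2 (mem_image.2 ⟨p, mem_filter.2 ⟨hp, hi⟩, rfl⟩)
  · intro l hl
    obtain ⟨p, hp, rfl⟩ := mem_map.1 hl
    refine ⟨fun k => ?_, hT p hp, hTl p hp⟩
    have h2 := norm_le_pi_norm p.2 k
    rw [Real.norm_eq_abs] at h2
    exact le_trans h2 (hv p hp)
  · intro l hl l' hl' hll
    obtain ⟨p, hp, rfl⟩ := mem_map.1 (mem_coe.1 hl)
    obtain ⟨p', hp', rfl⟩ := mem_map.1 (mem_coe.1 hl')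
    have h3 := hinj (mem_coe.2 hp) (mem_coe.2 hp') hll
    rw [h3]

/-- the dimension bound. -/
theorem dimH_kakeya {n : ℕ} (hn : 2 ≤ n) {a : ℝ} (ha1 : 1 < a) (ha : a ^ 3 - 4 * a + 2 = 0)
    (K : Set (EuclideanSpace ℝ (Fin n)))
    (hK : ∀ e : EuclideanSpace ℝ (Fin n), ‖e‖ = 1 →
      ∃ x, ∀ t : ℝ, 0 ≤ t → t ≤ 1 → x + t • e ∈ K) :
    ENNReal.ofReal (((n : ℝ) - 1) / a + 1) ≤ dimH K := by
  have ha0 : 0 < a := by linarith
  have hn1 : (1 : ℝ) ≤ (n : ℝ) - 1 := by
    have : (2 : ℝ) ≤ n := by exact_mod_cast hn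
    linarith
  -- approximate
  have key : ∀ δ : ℝ, 0 < δ → ENNReal.ofReal (((n : ℝ) - 1) / (a + δ) + 1) ≤ dimH K := by
    intro δ hδ
    obtain ⟨α, h1, h2, h3, h4⟩ := exists_IH_near (IH_two (n - 1)) ha1 ha hδ
    have h5 := Pool.Agent.Helper39.dimH_of_discrete hn (by linarith : 1 ≤ α)
      (discrete_of_IH (by linarith) h4) K hK
    refine le_trans (ENNReal.ofReal_le_ofReal ?_) h5
    have h6 : ((n : ℝ) - 1) / (a + δ) ≤ ((n : ℝ) - 1) / α :=
      div_le_div_of_nonneg_left (by linarith) (by linarith) h2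
    linarith
  have h7 : Filter.Tendsto (fun δ : ℝ => ENNReal.ofReal (((n : ℝ) - 1) / (a + δ) + 1))
      (nhdsWithin 0 (Set.Ioi 0)) (nhds (ENNReal.ofReal (((n : ℝ) - 1) / a + 1))) := by
    refine (ENNReal.continuous_ofReal.tendsto _).comp ?_
    refine Filter.Tendsto.mono_left ?_ nhdsWithin_le_nhds
    have h8 : ContinuousAt (fun δ : ℝ => ((n : ℝ) - 1) / (a + δ) + 1) 0 := by
      apply ContinuousAt.add _ continuousAt_const
      apply ContinuousAt.div continuousAt_const (by fun_prop)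
      rw [add_zero]; exact ha0.ne'
    have h9 := h8.tendsto
    rw [add_zero] at h9
    exact h9
  refine le_of_tendsto h7 ?_
  filter_upwards [self_mem_nhdsWithin] with δ hδ
  exact key δ hδ

end Pool.Agent.Helper84.Kak
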