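import Pool.Agent.Helper84.KakIH

/-!
The explicit one-step inequality.
-/

noncomputable section

open Finset Classical

namespace Pool.Agent.Helper84.Kak

/-- the explicit inequality behind one step of the iteration. -/
theorem step_core {m Q : ℕ} (hQ : 0 < Q) (L : Finset (Line m)) (hL : L.Nonempty)
    (T : Line m → Finset ℕ) {lam N0 α H R : ℝ} {I : ℕ} (hlam0 : 0 < lam) (hlam1 : lam ≤ 1)
    (hN0 : 0 < N0) (hT : ∀ l ∈ L, T l ⊆ range Q)
    (hTl : ∀ l ∈ L, lam * Q ≤ ((T l).card : ℝ)) (hv : ∀ l ∈ L, ∀ k, |l.v k| ≤ Q)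
    (hinj : Set.InjOn (fun l : Line m => cell l.v) L) (havg : avg (cl Q) Q L T ≤ N0)
    (hsQ : 2 ≤ lam / 40 * Q) (hα : 1 < α) (hH : 0 < H)
    (hIH : IHc (cl Q) Q L ((lam / 4) ^ 3 * (lam / 40) ^ 4 / 160) α H) (hR : 1 < R)
    (hsmall : (4 / lam * N0) ^ 2 / R ^ I <
      ((lam / 4) ^ 3 * (lam / 40) ^ 4 / 160 / 2) ^ I * ((lam / 4) ^ 3 / 4)) :
    ∃ M μ Γ K : ℝ, 0 < M ∧ lam / 4 * L.card ≤ M ∧ 0 < μ ∧ 0 < Γ ∧
      ((lam / 4) ^ 3 * (lam / 40) ^ 4 / 160 / 2) ^ I * ((lam / 4) ^ 3 / 4 * M) ≤ Γ ∧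
      Γ ≤ (4 / lam * N0) ^ 2 * μ ∧ 0 < K ∧
      K ^ (1 - 1 / α) * ((1 / (lam * L.card / (4 * N0))) * (15 / (lam / 40) ^ 3) ^ m * H) ^ (1 / α) *
        ((15 / (lam / 40) ^ 3) ^ m * (M / (μ / R))) =
          (lam / 4) ^ 3 * (lam / 40) ^ 4 / 160 / 2 * Γ ∧
      (lam / 4) ^ 3 * (lam / 40) ^ 4 / 160 * Γ ≤
        (4 / lam * N0 * ((15 / (lam / 40) ^ 3) ^ m *
          ((1 / (lam * L.card / (4 * N0))) * μ))) ^ (1 - 1 / α) *
        ((1 / (lam * L.card / (4 * N0))) * (1 / (lam * L.card / (4 * N0))) *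
          ((15 / (lam / 40) ^ 3) ^ m) ^ 2 * H) ^ (1 / α) *
        ((15 / (lam / 40) ^ 3) ^ m * (4 / lam * N0 * ((15 / (lam / 40) ^ 3) ^ m * (M / (μ / R)) *
          ((1 / (lam * L.card / (4 * N0))) * (15 / (lam / 40) ^ 3) ^ m * H / K) ^ (1 / α)))) := by
  have hQr : (0 : ℝ) < Q := by exact_mod_cast hQ
  have hLc : (0 : ℝ) < L.card := by exact_mod_cast card_pos.2 hL
  obtain ⟨L', T', hLL, hTT, hT'l, hload, hcells, hcard⟩ :=
    prune (cl Q) hQ L T hlam0 hN0 hT hTl havg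
  set s : ℝ := lam / 40 with hs
  set κ : ℝ := (lam / 4) ^ 3 * s ^ 4 / 160 with hκ
  set a : ℝ := lam * L.card / (4 * N0) with ha
  set N : ℝ := 4 / lam * N0 with hN
  have hs0 : 0 < s := by positivity
  have hs1 : s ≤ 1 := by rw [hs]; linarith
  have hκ0 : 0 < κ := by positivity
  have ha0 : 0 < a := by positivity
  have hNpos : 0 < N := by positivity
  have hMpos : (0 : ℝ) < L'.card := lt_of_lt_of_le (by positivity) hcard
  have hL' : L'.Nonempty := card_pos.1 (by exact_mod_cast hMpos)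
  have hslam : s ≤ lam / 4 / 10 := by rw [hs]; linarith
  have hT' : ∀ l ∈ L', T' l ⊆ range Q := fun l hl => (hTT l hl).trans (hT l (hLL hl))
  have hκ1 : κ / 2 ≤ 1 := by
    have h1 : (lam / 4) ^ 3 ≤ 1 := pow_le_one₀ (by positivity) (by linarith)
    have h2 : s ^ 4 ≤ 1 := pow_le_one₀ hs0.le hs1
    have h3 : (lam / 4) ^ 3 * s ^ 4 ≤ 1 := mul_le_one₀ h1 (by positivity) h2
    rw [hκ]; linarith
  -- top type
  have htop := exists_top (cl Q) hQ L' hL' T' hs0 hsQ hslam hT' hT'l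
  -- selection
  have hsm : N ^ 2 * ((L'.card : ℝ) / R ^ I) < (κ / 2) ^ I * ((lam / 4) ^ 3 / 4 * L'.card) := by
    calc N ^ 2 * ((L'.card : ℝ) / R ^ I) = N ^ 2 / R ^ I * L'.card := by ring
      _ < (κ / 2) ^ I * ((lam / 4) ^ 3 / 4) * L'.card := by gcongr
      _ = _ := by ring
  obtain ⟨μ, hμ0, p, hp, hΓlow, hsel⟩ := select (cl Q) L' hL' T' (ρ := κ / 2)
    (a0 := (lam / 4) ^ 3 / 4 * L'.card) (by positivity) hκ1 hR I (by positivity) hNpos.le htop
    hcells hsm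
  set Γ := Gw (cl Q) L' T' p.1 p.2.1 p.2.2 μ with hΓ
  have hΓ0 : 0 < Γ := lt_of_lt_of_le (by positivity) hΓlow
  have hpt := mem_types.1 hp
  have hRpos : 0 < R := by linarith
  set B : ℝ := (15 / s ^ 3) ^ m with hB
  have hB0 : 0 < B := by positivity
  have hα0 : 0 < α := by linarith
  have hexp : 0 < 1 - 1 / α := by
    rw [sub_pos, div_lt_one hα0]; exact hα
  -- the threshold
  set D : ℝ := ((1 / a) * B * H) ^ (1 / α) * (B * (L'.card / (μ / R))) with hD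
  have hD0 : 0 < D := by positivity
  set K : ℝ := (κ / 2 * Γ / D) ^ (1 / (1 - 1 / α)) with hK
  have hK0 : 0 < K := by positivity
  have hKeq : K ^ (1 - 1 / α) * ((1 / a) * B * H) ^ (1 / α) * (B * (L'.card / (μ / R))) =
      κ / 2 * Γ := by
    rw [mul_assoc, ← hD, hK, ← Real.rpow_mul (by positivity), one_div_mul_cancel hexp.ne',
      Real.rpow_one, div_mul_cancel₀ _ hD0.ne']
  let X : Cfg m :=
    { Q := Q, L := L', T := T', s := s, κ := κ, α := α, H := H, a := a, N := N,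
      t := p.2.1, q := p.1, t3 := p.2.2, μ1 := μ, μ2 := μ / R, K := K,
      hQ := hQ, hs := hs0, hs1 := hs1, hsQ := hsQ, hκ := hκ0, hα := hα, hH := hH, ha := ha0,
      hN := hNpos.le, hμ2 := by positivity, hμ1 := hμ0.le, hK := hK0, hT := hT',
      hv := fun l hl => hv l (hLL hl),
      hinj := hinj.mono (fun l hl => hLL hl), hload := hload, hcells := hcells,
      hIH := fun L1 hL1 => hIH L1 (hL1.trans hLL), htQ := hpt.1.2.1, hqQ := hpt.1.1,
      ht3Q := hpt.1.2.2, htq := hpt.2.1, ht3q := hpt.2.2 }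
  have hXG : X.Gam = Γ := rfl
  have hXB : X.B = B := rfl
  have hc := X.exists_c (lam := lam / 4) (by positivity) hslam hT'l le_rfl
    (fun σ n h1 h2 => by
      by_cases h3 : σ < Q ∧ n < Q
      · exact hsel (p.2.1, (σ, n)) (mem_types.2 ⟨⟨hpt.1.2.1, h3.1, h3.2⟩, h1, h2⟩)
      · have h4 : Gw (cl X.Q) X.L X.T X.t σ n X.μ2 = 0 := by
          unfold Gw
          rw [filter_false_of_mem, sum_empty]
          intro r hr hh
          rw [mem_product] at hr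
          exact h3 ⟨mem_range.1 (hT' _ hr.1 hh.1), mem_range.1 (hT' _ hr.2 hh.2.1)⟩
        rw [h4]
        exact mul_nonneg (by positivity) X.Gam_nonneg)
    (le_of_eq hKeq)
  obtain ⟨c, hc⟩ := hc
  have hfin := le_trans hc (X.PG_weight c)
  refine ⟨L'.card, μ, Γ, K, hMpos, hcard, hμ0, hΓ0, hΓlow, ?_, hK0, hKeq, hfin⟩
  exact Gw_le hμ0.le hNpos.le (hcells _) (hcells _)

end Pool.Agent.Helper84.Kak
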