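import Pool.Agent.Helper84.KakZ

/-!
Lines, cells, and elementary geometry for the arithmetic Kakeya argument.
-/

noncomputable section

open Finset Classical

namespace Pool.Agent.Helper84.Kak

variable {m : ℕ}

/-- a line in space-time: base point and velocity. -/
structure Line (m : ℕ) where
  /-- base point -/
  x : Fin m → ℝ
  /-- velocity -/
  v : Fin m → ℝ

/-- cells. -/
def Cell (m : ℕ) : Type := Fin m → ℤ

/-- integer cell of a point. -/
def cell (x : Fin m → ℝ) : Cell m := fun k => ⌊x k⌋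

lemma cell_eq_iff (x y : Fin m → ℝ) : cell x = cell y ↔ ∀ k, ⌊x k⌋ = ⌊y k⌋ :=
  ⟨fun h k => congrFun h k, fun h => funext h⟩

/-- position of the line at time `θ`. -/
def pos (l : Line m) (θ : ℝ) : Fin m → ℝ := fun k => l.x k + θ * l.v k

/-- cell of the line at time `i / Q`. -/
def cl (Q : ℕ) (l : Line m) (i : ℕ) : Cell m := cell (pos l ((i : ℝ) / Q))

lemma floor_close {a b D : ℝ} (h : |a - b| ≤ D) : ⌊b⌋ - (⌊D⌋ + 1) ≤ ⌊a⌋ ∧ ⌊a⌋ ≤ ⌊b⌋ + (⌊D⌋ + 1) := by
  rw [abs_le] at h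
  constructor
  · rw [Int.le_floor]
    push_cast
    have h1 := Int.floor_le b
    have h2 := Int.lt_floor_add_one D
    linarith [h.1]
  · have h1 : (⌊a⌋ : ℝ) - ⌊b⌋ - 1 < D := by
      have h1 := Int.floor_le a
      have h2 := Int.lt_floor_add_one b
      linarith [h.2]
    have h2 : ⌊a⌋ - ⌊b⌋ - 1 ≤ ⌊D⌋ := by
      rw [Int.le_floor]; push_cast; linarith
    linarith

lemma box_card {ι : Type*} (X : Finset ι) (f : ι → Fin m → ℝ) {D : ℝ} (hD : 0 ≤ D)
    (h : ∀ x ∈ X, ∀ y ∈ X, ∀ k, |f x k - f y k| ≤ D) :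
    ((X.image (fun x => cell (f x))).card : ℝ) ≤ (2 * D + 3) ^ m := by
  rcases X.eq_empty_or_nonempty with rfl | ⟨x0, hx0⟩
  · simp; positivity
  have h1 : X.image (fun x => cell (f x)) ⊆ (Fintype.piFinset
      (fun k => Finset.Icc (⌊f x0 k⌋ - (⌊D⌋ + 1)) (⌊f x0 k⌋ + (⌊D⌋ + 1))) :
        Finset (Fin m → ℤ)) := by
    intro y hy
    obtain ⟨x, hx, rfl⟩ := mem_image.1 hy
    refine Fintype.mem_piFinset.2 (fun k => ?_)
    rw [mem_Icc]
    exact floor_close (h x hx x0 hx0 k)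
  have hD0 : 0 ≤ ⌊D⌋ := Int.floor_nonneg.2 hD
  have h2 := card_le_card h1
  erw [Fintype.card_piFinset] at h2
  have h3 : ∀ k : Fin m, (Finset.Icc (⌊f x0 k⌋ - (⌊D⌋ + 1)) (⌊f x0 k⌋ + (⌊D⌋ + 1))).card =
      (2 * ⌊D⌋ + 3).toNat := by
    intro k
    rw [Int.card_Icc]
    congr 1; ring
  simp only [h3, prod_const, card_univ, Fintype.card_fin] at h2
  calc ((X.image (fun x => cell (f x))).card : ℝ) ≤ (((2 * ⌊D⌋ + 3).toNat ^ m : ℕ) : ℝ) := by
        exact_mod_cast h2
    _ = ((2 * ⌊D⌋ + 3).toNat : ℝ) ^ m := by push_cast; rfl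
    _ ≤ (2 * D + 3) ^ m := by
        apply pow_le_pow_left₀ (by positivity)
        have h4 : (((2 * ⌊D⌋ + 3).toNat : ℤ) : ℝ) = 2 * (⌊D⌋ : ℝ) + 3 := by
          rw [Int.toNat_of_nonneg (by positivity)]; push_cast; rfl
        have h5 : ((2 * ⌊D⌋ + 3).toNat : ℝ) = 2 * (⌊D⌋ : ℝ) + 3 := by exact_mod_cast h4
        rw [h5]
        linarith [Int.floor_le D]

/-- a family of lines with close velocities is small. -/
lemma lines_card {ι : Type*} (X : Finset ι) (g : ι → Line m) {D : ℝ} (hD : 0 ≤ D)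
    (hinj : Set.InjOn (fun x => cell (g x).v) X)
    (h : ∀ x ∈ X, ∀ y ∈ X, ∀ k, |(g x).v k - (g y).v k| ≤ D) :
    (X.card : ℝ) ≤ (2 * D + 3) ^ m := by
  have h1 := box_card X (fun x => (g x).v) hD h
  rwa [card_image_of_injOn hinj] at h1

lemma abs_sub_lt_of_floor_eq {a b : ℝ} (h : ⌊a⌋ = ⌊b⌋) : |a - b| ≤ 1 := by
  have := Int.abs_sub_lt_one_of_floor_eq_floor h
  exact this.le

lemma card_image_le_mul {ι Y Z : Type*} [DecidableEq Y] [DecidableEq Z] (A : Finset ι) (f : ι → Y) (g : ι → Z) (B : ℝ)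
    (h : ∀ y ∈ A.image f, (((A.filter (fun x => f x = y)).image g).card : ℝ) ≤ B) :
    ((A.image g).card : ℝ) ≤ B * (A.image f).card := by
  have h1 : A.image g ⊆ (A.image f).biUnion (fun y => (A.filter (fun x => f x = y)).image g) := by
    intro z hz
    obtain ⟨x, hx, rfl⟩ := mem_image.1 hz
    rw [mem_biUnion]
    exact ⟨f x, mem_image_of_mem f hx, mem_image.2 ⟨x, mem_filter.2 ⟨hx, rfl⟩, rfl⟩⟩
  calc ((A.image g).card : ℝ) ≤
        (((A.image f).biUnion (fun y => (A.filter (fun x => f x = y)).image g)).card : ℝ) := by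
        exact_mod_cast card_le_card h1
    _ ≤ ∑ y ∈ A.image f, (((A.filter (fun x => f x = y)).image g).card : ℝ) := by
        exact_mod_cast card_biUnion_le
    _ ≤ ∑ y ∈ A.image f, B := sum_le_sum h
    _ = B * (A.image f).card := by simp [mul_comm]

/-! ### scalar identities -/

/-- the `w` identity, scalar form. -/
lemma scalar_w {Q t q σ c x n a v a' v' : ℝ} (hQ : 0 < Q) (h1 : σ - t ≠ 0) (h2 : σ - q ≠ 0)
    (hx : x = t + Q * c * ((σ - t) / (σ - q))) (hn1 : n ≤ x) (hn2 : x < n + 1)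
    (hv' : |v'| ≤ Q) (hj : |(a + t / Q * v) - (a' + t / Q * v')| ≤ 1) :
    |(a + q / Q * v + c * v') - ((1 - (q - t) / (σ - t)) * (a' + n / Q * v') +
      (q - t) / (σ - t) * (a + σ / Q * v))| ≤ 2 * |1 - (q - t) / (σ - t)| := by
  set g := (q - t) / (σ - t) with hg
  have e1 : (a + q / Q * v) = (1 - g) * (a + t / Q * v) + g * (a + σ / Q * v) := by
    rw [hg]; field_simp; ring
  have e2 : 1 - g = (σ - q) / (σ - t) := by rw [hg]; field_simp; ring
  have e3 : c * v' = (1 - g) * ((x - t) / Q * v') := by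
    rw [e2, hx]; field_simp; ring
  have e4 : (a + q / Q * v + c * v') - ((1 - g) * (a' + n / Q * v') + g * (a + σ / Q * v)) =
      (1 - g) * (((a + t / Q * v) - (a' + t / Q * v')) + (x - n) / Q * v') := by
    rw [e1, e3]; field_simp; ring
  rw [e4, abs_mul, mul_comm]
  apply mul_le_mul_of_nonneg_right _ (abs_nonneg _)
  have e5 : |(x - n) / Q * v'| ≤ 1 := by
    rw [abs_mul, abs_div, abs_of_pos hQ, abs_of_nonneg (by linarith : 0 ≤ x - n)]
    rw [div_mul_eq_mul_div, div_le_one hQ]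
    calc (x - n) * |v'| ≤ 1 * Q := by
          apply mul_le_mul (by linarith) hv' (abs_nonneg _) (by norm_num)
      _ = Q := one_mul _
  calc |(a + t / Q * v) - (a' + t / Q * v') + (x - n) / Q * v'|
      ≤ |(a + t / Q * v) - (a' + t / Q * v')| + |(x - n) / Q * v'| := abs_add_le _ _
    _ ≤ 1 + 1 := add_le_add hj e5
    _ = 2 := by norm_num

lemma abs_ratio_le {s Q a b : ℝ} (hs : 0 < s) (hQ : 0 < Q) (ha : |a| ≤ Q) (hb : s * Q ≤ |b|) :
    |a / b| ≤ 1 / s := by
  have hb0 : 0 < |b| := lt_of_lt_of_le (by positivity) hb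
  rw [abs_div, div_le_div_iff₀ hb0 hs]
  calc |a| * s ≤ Q * s := by gcongr
    _ = s * Q := mul_comm _ _
    _ ≤ 1 * |b| := by rw [one_mul]; exact hb

/-- closeness of `w` for two joined pairs with the same cells. -/
lemma scalar_w_close {s Q t q σ c x n a v a' v' b u b' u' : ℝ} (hs : 0 < s) (hQ : 0 < Q)
    (h1 : s * Q ≤ |σ - t|) (h2 : s * Q ≤ |σ - q|) (h3 : |q - t| ≤ Q) (h4 : |σ - q| ≤ Q)
    (hx : x = t + Q * c * ((σ - t) / (σ - q))) (hn1 : n ≤ x) (hn2 : x < n + 1)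
    (hv' : |v'| ≤ Q) (hj : |(a + t / Q * v) - (a' + t / Q * v')| ≤ 1)
    (hu' : |u'| ≤ Q) (hk : |(b + t / Q * u) - (b' + t / Q * u')| ≤ 1)
    (hy : |(a + σ / Q * v) - (b + σ / Q * u)| ≤ 1)
    (hy' : |(a' + n / Q * v') - (b' + n / Q * u')| ≤ 1) :
    |(a + q / Q * v + c * v') - (b + q / Q * u + c * u')| ≤ 6 / s := by
  have hsQ : 0 < s * Q := by positivity
  have n1 : σ - t ≠ 0 := by
    intro h; rw [h, abs_zero] at h1; linarith
  have n2 : σ - q ≠ 0 := by
    intro h; rw [h, abs_zero] at h2; linarith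
  have e1 := scalar_w hQ n1 n2 hx hn1 hn2 hv' hj
  have e2 := scalar_w hQ n1 n2 hx hn1 hn2 hu' hk
  set g := (q - t) / (σ - t) with hg
  have e3 : 1 - g = (σ - q) / (σ - t) := by rw [hg]; field_simp; ring
  have g1 : |g| ≤ 1 / s := abs_ratio_le hs hQ h3 h1
  have g2 : |1 - g| ≤ 1 / s := by rw [e3]; exact abs_ratio_le hs hQ h4 h1
  set A := a + q / Q * v + c * v'
  set A' := b + q / Q * u + c * u'
  set P := a' + n / Q * v'
  set P' := b' + n / Q * u'
  set R := a + σ / Q * v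
  set R' := b + σ / Q * u
  have e5 : A - A' = (A - ((1 - g) * P + g * R)) - (A' - ((1 - g) * P' + g * R')) +
      ((1 - g) * (P - P') + g * (R - R')) := by ring
  calc |A - A'| ≤ |A - ((1 - g) * P + g * R)| + |A' - ((1 - g) * P' + g * R')| +
        (|1 - g| * |P - P'| + |g| * |R - R'|) := by
        rw [e5]
        refine le_trans (abs_add_le _ _) (add_le_add (abs_sub _ _) ?_)
        refine le_trans (abs_add_le _ _) ?_
        rw [abs_mul, abs_mul]
    _ ≤ 2 * (1 / s) + 2 * (1 / s) + ((1 / s) * 1 + (1 / s) * 1) := by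
        have h01 : 0 ≤ 1 / s := by positivity
        refine add_le_add (add_le_add ?_ ?_) (add_le_add ?_ ?_)
        · linarith
        · linarith
        · exact mul_le_mul g2 hy' (abs_nonneg _) h01
        · exact mul_le_mul g1 hy (abs_nonneg _) h01
    _ = 6 / s := by ring

/-- the `z` identity: closeness. -/
lemma scalar_z_close {s Q q t3 τ c c' a v a2 v2 v' b u b2 u2 u' : ℝ} (hs : 0 < s) (hQ : 0 < Q)
    (h1 : s * Q ≤ |τ - q|) (h2 : s * Q ≤ |τ - t3|) (h3 : |t3 - q| ≤ Q) (h4 : |τ - t3| ≤ Q)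
    (hc : c' = c * ((τ - q) / (τ - t3)))
    (hj : |(a + q / Q * v) - (a2 + q / Q * v2)| ≤ 1)
    (hk : |(b + q / Q * u) - (b2 + q / Q * u2)| ≤ 1)
    (hw : |(a + q / Q * v + c' * v') - (b + q / Q * u + c' * u')| ≤ 1)
    (hy : |(a2 + τ / Q * v2) - (b2 + τ / Q * u2)| ≤ 1) :
    |(a2 + t3 / Q * v2 + c * v') - (b2 + t3 / Q * u2 + c * u')| ≤ 4 / s := by
  have hsQ : 0 < s * Q := by positivity
  have n1 : τ - q ≠ 0 := by
    intro h; rw [h, abs_zero] at h1; linarith
  have n2 : τ - t3 ≠ 0 := by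
    intro h; rw [h, abs_zero] at h2; linarith
  set g := (t3 - q) / (τ - q) with hg
  have e3 : 1 - g = (τ - t3) / (τ - q) := by rw [hg]; field_simp; ring
  have g1 : |g| ≤ 1 / s := abs_ratio_le hs hQ h3 h1
  have g2 : |1 - g| ≤ 1 / s := by rw [e3]; exact abs_ratio_le hs hQ h4 h1
  have e6 : (1 - g) * c' = c := by rw [e3, hc]; field_simp
  have key : ∀ (a v a2 v2 v' : ℝ), (a2 + t3 / Q * v2 + c * v') =
      (1 - g) * ((a + q / Q * v + c' * v') - ((a + q / Q * v) - (a2 + q / Q * v2))) +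
      g * (a2 + τ / Q * v2) := by
    intro a v a2 v2 v'
    have e1 : (a2 + t3 / Q * v2) = (1 - g) * (a2 + q / Q * v2) + g * (a2 + τ / Q * v2) := by
      rw [hg]; field_simp; ring
    rw [← e6]
    linear_combination e1
  rw [key a v a2 v2 v', key b u b2 u2 u']
  set W := a + q / Q * v + c' * v'
  set W' := b + q / Q * u + c' * u'
  set J := (a + q / Q * v) - (a2 + q / Q * v2)
  set J' := (b + q / Q * u) - (b2 + q / Q * u2)
  set R := a2 + τ / Q * v2
  set R' := b2 + τ / Q * u2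
  have e5 : (1 - g) * (W - J) + g * R - ((1 - g) * (W' - J') + g * R') =
      (1 - g) * ((W - W') + (J' - J)) + g * (R - R') := by ring
  rw [e5]
  calc |(1 - g) * ((W - W') + (J' - J)) + g * (R - R')|
      ≤ |1 - g| * (|W - W'| + (|J'| + |J|)) + |g| * |R - R'| := by
        refine le_trans (abs_add_le _ _) ?_
        rw [abs_mul, abs_mul]
        gcongr
        refine le_trans (abs_add_le _ _) ?_
        gcongr
        exact abs_sub _ _
    _ ≤ (1 / s) * (1 + (1 + 1)) + (1 / s) * 1 := by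
        have h01 : 0 ≤ 1 / s := by positivity
        refine add_le_add (mul_le_mul g2 ?_ (by positivity) h01)
          (mul_le_mul g1 hy (abs_nonneg _) h01)
        linarith
    _ = 4 / s := by ring

/-- velocity from two positions. -/
lemma scalar_two_pos {s Q t q a v b u : ℝ} (hs : 0 < s) (hQ : 0 < Q) (h1 : s * Q ≤ |t - q|)
    (hp : |(a + t / Q * v) - (b + t / Q * u)| ≤ 2) (hq : |(a + q / Q * v) - (b + q / Q * u)| ≤ 2) :
    |v - u| ≤ 4 / s := by
  have e1 : (t - q) / Q * (v - u) =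
      ((a + t / Q * v) - (b + t / Q * u)) - ((a + q / Q * v) - (b + q / Q * u)) := by
    field_simp; ring
  have e2 : |(t - q) / Q * (v - u)| ≤ 4 := by
    rw [e1]
    refine le_trans (abs_sub _ _) ?_
    linarith
  rw [abs_mul, abs_div, abs_of_pos hQ] at e2
  have e3 : s ≤ |t - q| / Q := by rw [le_div_iff₀ hQ]; exact h1
  rw [le_div_iff₀ hs]
  calc |v - u| * s = s * |v - u| := mul_comm _ _
    _ ≤ |t - q| / Q * |v - u| := by gcongr
    _ ≤ 4 := e2

end Pool.Agent.Helper84.Kak
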