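import Pool.Agent.Helper84.KakBridge

/-!
# Hausdorff dimension of Kakeya sets in high dimension

Every subset of `ℝ^n` containing a unit line segment in every direction has Hausdorff dimension
at least `(n - 1) / a + 1`, where `a = 1.67513...` is the root of `a ^ 3 - 4 * a + 2 = 0`.
Katz and Tao (2002) proved this lower bound for the Minkowski dimension only.

Outline: sparse-time version of the arithmetic (sums-differences) method.  Lines are only required
to meet the small set at a `Q ^ (-η)`-dense set of times; joined pairs and three-chains of lines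
are weighted by the inverse cell loads, the free structure constant is chosen by averaging, and the
multiplicity level is fixed by a pigeonhole argument over all time types.
-/

namespace Pool.Agent.Results.MP_b1773a_an.HausdorffKatzTao

lemma exists_root : ∃ a : ℝ, 1.67513 < a ∧ a < 1.67514 ∧ a ^ 3 - 4 * a + 2 = 0 := by
  have h1 : ContinuousOn (fun a : ℝ => a ^ 3 - 4 * a + 2) (Set.Icc 1.67513 1.67514) := by
    fun_prop
  have h2 := intermediate_value_Ioo (by norm_num : (1.67513 : ℝ) ≤ 1.67514) h1
  have h3 : (0 : ℝ) ∈ Set.Ioo ((1.67513 : ℝ) ^ 3 - 4 * 1.67513 + 2)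
      ((1.67514 : ℝ) ^ 3 - 4 * 1.67514 + 2) := by
    constructor <;> norm_num
  obtain ⟨a, ha, hfa⟩ := h2 h3
  exact ⟨a, ha.1, ha.2, hfa⟩

/-- **Hausdorff dimension of Kakeya sets**: there is a number `a` between `1.67513` and `1.67514`,
a root of `a ^ 3 - 4 * a + 2`, such that for every `n ≥ 2` every subset of `ℝ^n` which contains a
unit line segment in every direction has Hausdorff dimension at least `(n - 1) / a + 1`. -/
theorem result :
    ∃ a : ℝ, 1.67513 < a ∧ a < 1.67514 ∧ a ^ 3 - 4 * a + 2 = 0 ∧
      ∀ n : ℕ, 2 ≤ n → ∀ K : Set (EuclideanSpace ℝ (Fin n)),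
        (∀ ω : EuclideanSpace ℝ (Fin n), ‖ω‖ = 1 →
          ∃ x : EuclideanSpace ℝ (Fin n), ∀ t : ℝ, 0 ≤ t → t ≤ 1 → x + t • ω ∈ K) →
        ENNReal.ofReal (((n : ℝ) - 1) / a + 1) ≤ dimH K := by
  obtain ⟨a, h1, h2, h3⟩ := exists_root
  refine ⟨a, h1, h2, h3, ?_⟩
  intro n hn K hK
  exact Pool.Agent.Helper84.Kak.dimH_kakeya hn (by linarith) h3 K hK

end Pool.Agent.Results.MP_b1773a_an.HausdorffKatzTao
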