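import Pool.Agent.Helper84.KakSel

/-!
The inductive statement.
-/

noncomputable section

open Finset Classical

namespace Pool.Agent.Helper84.Kak

/-- sparse-time line counting with exponent `α`. -/
def IH (m : ℕ) (α : ℝ) : Prop :=
  ∀ ε : ℝ, 0 < ε → ∃ η : ℝ, 0 < η ∧ ∃ Q0 : ℕ, ∀ Q : ℕ, Q0 ≤ Q →
    ∀ (L : Finset (Line m)) (T : Line m → Finset ℕ),
      (∀ l ∈ L, (∀ k, |l.v k| ≤ Q) ∧ T l ⊆ range Q ∧
        (Q : ℝ) ^ (1 - η) ≤ ((T l).card : ℝ)) →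
      Set.InjOn (fun l : Line m => cell l.v) L →
      (L.card : ℝ) ≤ (Q : ℝ) ^ ε * (avg (cl Q) Q L T) ^ α

end Pool.Agent.Helper84.Kak
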