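import Pool.Agent.Helper84.KakLog

/-!
One step of the iteration, asymptotic form.
-/

noncomputable section

open Finset Classical

namespace Pool.Agent.Helper84.Kak

lemma avg_le_card {m Q : ℕ} (hQ : 0 < Q) (L : Finset (Line m)) (T : Line m → Finset ℕ) :
    avg (cl Q) Q L T ≤ L.card := by
  unfold avg
  rw [div_le_iff₀ (by exact_mod_cast hQ)]
  calc ∑ i ∈ range Q, ((cellsAt (cl Q) L T i).card : ℝ) ≤ ∑ i ∈ range Q, (L.card : ℝ) := by
        apply sum_le_sum
        intro i _
        refine Nat.cast_le.mpr ?_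
        unfold cellsAt
        exact le_trans card_image_le (card_filter_le _ _)
    _ = L.card * Q := by simp [mul_comm]

lemma avg_pos {m Q : ℕ} (hQ : 0 < Q) (L : Finset (Line m)) (T : Line m → Finset ℕ)
    {l : Line m} (hl : l ∈ L) {i : ℕ} (hi : i ∈ T l) (hiQ : i < Q) :
    0 < avg (cl Q) Q L T := by
  unfold avg
  apply div_pos _ (by exact_mod_cast hQ)
  apply sum_pos' (fun i _ => by positivity)
  refine ⟨i, mem_range.2 hiQ, ?_⟩
  have : (cellsAt (cl Q) L T i).Nonempty := ⟨cl Q l i, mem_image.2 ⟨l, mem_filter.2 ⟨hl, hi⟩, rfl⟩⟩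
  exact_mod_cast card_pos.2 this

lemma card_lines_le {m Q : ℕ} (hQ : 5 ≤ Q) (L : Finset (Line m))
    (hv : ∀ l ∈ L, ∀ k, |l.v k| ≤ Q) (hinj : Set.InjOn (fun l : Line m => cell l.v) L) :
    (L.card : ℝ) ≤ (Q : ℝ) ^ (2 * m) := by
  have hQr : (5 : ℝ) ≤ Q := by exact_mod_cast hQ
  have h1 := lines_card L (fun l => l) (D := 2 * Q) (by positivity) hinj (by
    intro x hx y hy k
    have h1 := hv x hx k
    have h2 := hv y hy k
    calc |x.v k - y.v k| ≤ |x.v k| + |y.v k| := abs_sub _ _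
      _ ≤ 2 * Q := by linarith)
  refine le_trans h1 ?_
  rw [pow_mul]
  apply pow_le_pow_left₀ (by positivity)
  nlinarith

theorem step {m : ℕ} {α : ℝ} (hα : 1 < α) (hα2 : α ≤ 2) (h : IH m α) : IH m (Fexp α) := by
  intro ε hε
  obtain ⟨ηα, hηα, Qα, hQα⟩ := h (ε / 8) (by positivity)
  set I : ℕ := ⌈32 * m / ε⌉₊ + 5 with hI
  set W : ℝ := 100 * (I + m + 1) with hW
  have hW0 : 0 < W := by positivity
  set δ0 : ℝ := min (min (ε / 8) ηα) 1 with hδ0
  have hδpos : 0 < δ0 := by
    rw [hδ0]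
    exact lt_min (lt_min (by positivity) hηα) (by norm_num)
  have hδ1 : δ0 ≤ 1 := min_le_right _ _
  have hδ2 : δ0 ≤ ε / 8 := le_trans (min_le_left _ _) (min_le_left _ _)
  have hδ3 : δ0 ≤ ηα := le_trans (min_le_left _ _) (min_le_right _ _)
  set η : ℝ := δ0 / W with hη
  have hηpos : 0 < η := by positivity
  refine ⟨η, hηpos, max Qα (max 5 ⌈Real.exp (100 / η)⌉₊), ?_⟩
  intro Q hQ L T hyp hinj
  have hQ1 : Qα ≤ Q := le_trans (le_max_left _ _) hQ
  have hQ5 : 5 ≤ Q := le_trans (le_trans (le_max_left _ _) (le_max_right _ _)) hQ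
  have hQe : ⌈Real.exp (100 / η)⌉₊ ≤ Q := le_trans (le_trans (le_max_right _ _) (le_max_right _ _)) hQ
  have hQ0 : 0 < Q := by omega
  have hQr : (0 : ℝ) < Q := by exact_mod_cast hQ0
  have hQr5 : (5 : ℝ) ≤ Q := by exact_mod_cast hQ5
  rcases L.eq_empty_or_nonempty with rfl | hL
  · simp only [card_empty, Nat.cast_zero]
    have := avg_nonneg (cl Q) Q (∅ : Finset (Line m)) T
    positivity
  set x : ℝ := Real.log Q with hx
  have hxη : 100 / η ≤ x := by
    rw [hx, Real.le_log_iff_exp_le hQr]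
    exact le_trans (Nat.le_ceil _) (by exact_mod_cast hQe)
  set u : ℝ := η * x with hu
  have hu100 : 100 ≤ u := by
    rw [hu]
    calc (100 : ℝ) = η * (100 / η) := by field_simp
      _ ≤ η * x := by gcongr
  have hWu : W * u = δ0 * x := by rw [hu, hη]; field_simp
  have hx0 : 0 < x := by
    by_contra hneg
    push Not at hneg
    have : u ≤ 0 := mul_nonpos_of_nonneg_of_nonpos hηpos.le hneg
    linarith
  set e : ℝ := ε / 8 * x with he
  have heW : W * u ≤ e := by rw [hWu, he]; gcongr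
  have hxW : W * u ≤ x := by
    rw [hWu]
    calc δ0 * x ≤ 1 * x := by gcongr
      _ = x := one_mul x
  have hηW : W * u ≤ ηα * x := by rw [hWu]; gcongr
  have hIu : (0 : ℝ) ≤ I * u := by positivity
  have hmu : (0 : ℝ) ≤ m * u := by positivity
  have hWu' : W * u = 100 * (I * u) + 100 * (m * u) + 100 * u := by rw [hW]; ring
  -- the density
  set lam : ℝ := (Q : ℝ) ^ (-η) with hlam
  have hlam0 : 0 < lam := Real.rpow_pos_of_pos hQr _
  have hloglam : Real.log lam = -u := by rw [hlam, Real.log_rpow hQr, hu]; ring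
  have hlam1 : lam ≤ 1 := by
    rw [← Real.log_nonpos_iff hlam0.le, hloglam]; linarith
  have hlamQ : lam * Q = (Q : ℝ) ^ (1 - η) := by
    rw [hlam, sub_eq_add_neg, add_comm, Real.rpow_add hQr, Real.rpow_one]
  have hTl : ∀ l ∈ L, lam * Q ≤ ((T l).card : ℝ) := fun l hl => by
    rw [hlamQ]; exact (hyp l hl).2.2
  have hT : ∀ l ∈ L, T l ⊆ range Q := fun l hl => (hyp l hl).2.1
  have hv : ∀ l ∈ L, ∀ k, |l.v k| ≤ Q := fun l hl => (hyp l hl).1
  -- logarithms of constants
  have hl2 := Real.log_two_lt_d9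
  have hl2' : 0 < Real.log 2 := Real.log_pos (by norm_num)
  have c4 : Real.log 4 = 2 * Real.log 2 := by
    rw [show (4 : ℝ) = 2 ^ 2 by norm_num, Real.log_pow]; norm_num
  have c40 : Real.log 40 ≤ 6 * Real.log 2 := by
    have : Real.log 40 ≤ Real.log (2 ^ 6) := Real.log_le_log (by norm_num) (by norm_num)
    rw [Real.log_pow] at this; exact_mod_cast this
  have c160 : Real.log 160 ≤ 8 * Real.log 2 := by
    have : Real.log 160 ≤ Real.log (2 ^ 8) := Real.log_le_log (by norm_num) (by norm_num)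
    rw [Real.log_pow] at this; exact_mod_cast this
  have c15 : Real.log 15 ≤ 4 * Real.log 2 := by
    have : Real.log 15 ≤ Real.log (2 ^ 4) := Real.log_le_log (by norm_num) (by norm_num)
    rw [Real.log_pow] at this; exact_mod_cast this
  have lam4 : Real.log (lam / 4) = -u - 2 * Real.log 2 := by
    rw [Real.log_div hlam0.ne' (by norm_num), hloglam, c4]
  have lam40 : Real.log (lam / 40) = -u - Real.log 40 := by
    rw [Real.log_div hlam0.ne' (by norm_num), hloglam]
  have l4lam : Real.log (4 / lam) = u + 2 * Real.log 2 := by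
    rw [Real.log_div (by norm_num) hlam0.ne', hloglam, c4]; ring
  set κ : ℝ := (lam / 4) ^ 3 * (lam / 40) ^ 4 / 160 with hκ
  have hκ0 : 0 < κ := by positivity
  have lκ : -Real.log κ ≤ 8 * u := by
    rw [hκ, Real.log_div (by positivity) (by norm_num), Real.log_mul (by positivity) (by positivity),
      Real.log_pow, Real.log_pow, lam4, lam40]
    push_cast
    linarith
  set N0 : ℝ := avg (cl Q) Q L T with hN0
  obtain ⟨l0, hl0⟩ := hL
  have hT0 : (T l0).Nonempty := by
    have h1 : (0 : ℝ) < (T l0).card := lt_of_lt_of_le (by positivity) (hTl l0 hl0)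
    exact card_pos.1 (by exact_mod_cast h1)
  obtain ⟨i0, hi0⟩ := hT0
  have hN0pos : 0 < N0 := avg_pos hQ0 L T hl0 hi0 (mem_range.1 (hT l0 hl0 hi0))
  have hn0 : Real.log N0 ≤ 2 * m * x := by
    have h1 : N0 ≤ (Q : ℝ) ^ (2 * m) := le_trans (avg_le_card hQ0 L T) (card_lines_le hQ5 L hv hinj)
    have h2 := Real.log_le_log hN0pos h1
    rw [Real.log_pow] at h2
    push_cast at h2
    exact h2
  set H : ℝ := (Q : ℝ) ^ (ε / 8) with hH
  have hH0 : 0 < H := Real.rpow_pos_of_pos hQr _
  have lH : Real.log H = e := by rw [hH, Real.log_rpow hQr]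
  have he0 : 0 < e := by positivity
  have hR1 : 1 < H := by
    rw [← Real.log_pos_iff hH0.le, lH]; exact he0
  -- induction hypothesis
  have hIHc : IHc (cl Q) Q L κ α H := by
    intro L1 hL1 T1 hT1
    apply hQα Q hQ1 L1 T1
    · intro l hl
      refine ⟨hv l (hL1 hl), (hT1 l hl).1, le_trans ?_ (hT1 l hl).2⟩
      have h1 : (Q : ℝ) ^ (-ηα) ≤ κ := by
        rw [← Real.log_le_log_iff (Real.rpow_pos_of_pos hQr _) hκ0, Real.log_rpow hQr]
        have : 8 * u ≤ ηα * x := by linarith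
        linarith
      calc (Q : ℝ) ^ (1 - ηα) = (Q : ℝ) ^ (-ηα) * Q := by
            rw [sub_eq_add_neg, add_comm, Real.rpow_add hQr, Real.rpow_one]
        _ ≤ κ * Q := by gcongr
    · exact hinj.mono (fun l hl => hL1 hl)
  have hsQ : 2 ≤ lam / 40 * Q := by
    rw [← Real.log_le_log_iff (by norm_num) (by positivity), Real.log_mul (by positivity) hQr.ne',
      lam40]
    change Real.log 2 ≤ -u - Real.log 40 + x
    linarith
  set c0 : ℝ := (κ / 2) ^ I * ((lam / 4) ^ 3 / 4) with hc0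
  have hc0pos : 0 < c0 := by positivity
  have lc0 : -Real.log c0 ≤ 9 * (I * u) + 4 * u := by
    have a1 : Real.log (κ / 2) = Real.log κ - Real.log 2 := Real.log_div hκ0.ne' (by norm_num)
    have a2 : Real.log ((lam / 4) ^ 3 / 4) = 3 * Real.log (lam / 4) - Real.log 4 := by
      rw [Real.log_div (by positivity) (by norm_num), Real.log_pow]
      norm_num
    rw [hc0, Real.log_mul (by positivity) (by positivity), Real.log_pow, a1, a2, lam4, c4]
    have h1 : (I : ℝ) * (-Real.log κ + Real.log 2) ≤ I * (9 * u) := by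
      apply mul_le_mul_of_nonneg_left _ (by positivity)
      linarith
    linarith
  have hIe : 4 * m * x + 5 * e ≤ I * e := by
    have h1 : 32 * m / ε + 5 ≤ (I : ℝ) := by
      rw [hI]; push_cast
      have := Nat.le_ceil (32 * (m : ℝ) / ε)
      linarith
    calc 4 * m * x + 5 * e = (32 * m / ε + 5) * e := by rw [he]; field_simp; ring
      _ ≤ I * e := by gcongr
  have hsmall : (4 / lam * N0) ^ 2 / H ^ I < c0 := by
    rw [← Real.log_lt_log_iff (by positivity) hc0pos, Real.log_div (by positivity) (by positivity),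
      Real.log_pow, Real.log_pow, Real.log_mul (by positivity) hN0pos.ne', l4lam, lH]
    push_cast
    linarith
  obtain ⟨M, μ, Γ, K, hM0, hM1, hμ0, hΓ0, hΓ1, hΓ2, hK0, hK1, hK2⟩ :=
    step_core hQ0 L ⟨l0, hl0⟩ T hlam0 hlam1 hN0pos hT hTl hv hinj le_rfl hsQ hα hH0 hIHc hR1 hsmall
  have hLc : (0 : ℝ) < L.card := by exact_mod_cast card_pos.2 ⟨l0, hl0⟩
  have hfin := log_ineq (lam := lam) (N0 := N0) (α := α) (H := H) (R := H) (Lc := L.card) (M := M)
    (μ := μ) (Γ := Γ) (K := K) (e := e) (a := lam * L.card / (4 * N0))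
    (B := (15 / (lam / 40) ^ 3) ^ m) (κ := κ) (N := 4 / lam * N0) (c0 := c0)
    hα hα2 hlam0 hN0pos hH0 hH0 hLc hM0 hμ0 hΓ0 hK0 (by positivity) hκ0 hc0pos rfl rfl hM1
    (by rw [hc0, mul_assoc]; exact hΓ1) hΓ2 hK1 hK2 (by linarith)
    (by
      rw [Real.log_pow, Real.log_div (by norm_num) (by positivity), Real.log_pow, lam40]
      push_cast
      have h1 : (m : ℝ) * (Real.log 15 - 3 * (-u - Real.log 40)) ≤ m * (4 * u) := by
        apply mul_le_mul_of_nonneg_left _ (by positivity)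
        linarith
      linarith)
    (le_of_eq lH) (le_of_eq lH) (by rw [l4lam]; linarith) (by linarith) (by linarith) he0.le
  have h1 : (L.card : ℝ) ≤ Real.exp (Fexp α * Real.log N0 + 8 * e) := by
    rw [← Real.log_le_iff_le_exp hLc]; exact hfin
  refine le_trans h1 (le_of_eq ?_)
  rw [Real.exp_add, mul_comm, Real.rpow_def_of_pos hQr, Real.rpow_def_of_pos hN0pos]
  congr 1
  · congr 1
    rw [he, hx]; ring
  · congr 1
    ring

end Pool.Agent.Helper84.Kak
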