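import Pool.Agent.Helper84.KakCore

/-!
Logarithmic form of the one-step inequality.
-/

noncomputable section

open Finset Classical

namespace Pool.Agent.Helper84.Kak

/-- the exponent map. -/
def Fexp (α : ℝ) : ℝ := (3 * α ^ 2 + 2 * α - 2) / (α ^ 2 + 3 * α - 2)

lemma lin_elim {β lΓ lμ lla lM lNN lκ lB lH lR l2 lK : ℝ} (hβ1 : β < 1)
    (g4 : (1 - β) * lK + β * (-lla + lB + lH) + (lB + (lM - (lμ - lR))) = lκ - l2 + lΓ)
    (g5 : lκ + lΓ ≤ (1 - β) * (lNN + (lB + (-lla + lμ))) +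
      β * (-lla + -lla + 2 * lB + lH) +
      (lB + (lNN + (lB + (lM - (lμ - lR)) + β * (-lla + lB + lH - lK))))) :
    lΓ + (2 * β - β ^ 2) * lμ + (1 + β - β ^ 2) * lla ≤
      lM + (1 - β) * (2 - β) * lNN - lκ + (3 - β ^ 2) * lB + (2 * β - β ^ 2) * lH + lR + β * l2 := by
  have h := mul_le_mul_of_nonneg_left g5 (by linarith : 0 ≤ 1 - β)
  have h'' : (1 - β) * (β * (-lla + lB + lH - lK)) =
    (1 - β) * β * (-lla + lB + lH) - β * (lκ - l2 + lΓ - β * (-lla + lB + lH) -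
    (lB + (lM - (lμ - lR)))) := by
    have h' : (1 - β) * lK = lκ - l2 + lΓ - β * (-lla + lB + lH) -
      (lB + (lM - (lμ - lR))) := by linarith
    rw [← h']; ring
  linarith [h, h'']

lemma lin_key {β x n y lM lμ lΓ lla lNN lκ lB lH lR l2 e : ℝ} (hβ0 : 0 < β) (hβ1 : β < 1)
    (he : 0 ≤ e)
    (la : lla = x - n - y) (lN : lNN = y + n) (g1 : x - e ≤ lM) (g2 : lM - 2 * e ≤ lΓ)
    (g3 : lΓ ≤ 2 * lNN + lμ)
    (E2 : lΓ + (2 * β - β ^ 2) * lμ + (1 + β - β ^ 2) * lla ≤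
      lM + (1 - β) * (2 - β) * lNN - lκ + (3 - β ^ 2) * lB + (2 * β - β ^ 2) * lH + lR + β * l2)
    (e1 : -lκ ≤ e) (e2 : lB ≤ e) (e3 : lH ≤ e) (e4 : lR ≤ e) (e5 : y ≤ e) (e7 : l2 ≤ e) :
    (1 + 3 * β - 2 * β ^ 2) * x ≤ (3 + 2 * β - 2 * β ^ 2) * n + 16 * e := by
  have k1 : 0 ≤ 2 * β - β ^ 2 := by nlinarith
  have k1' : 2 * β - β ^ 2 ≤ 1 := by nlinarith [sq_nonneg (1 - β)]
  have k2 : 0 ≤ 1 + β - β ^ 2 := by nlinarith
  have k2' : 1 + β - β ^ 2 ≤ 5 / 4 := by nlinarith [sq_nonneg (β - 1 / 2)]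
  have k3 : 0 ≤ 3 - β ^ 2 := by nlinarith
  have k3' : 3 - β ^ 2 ≤ 3 := by nlinarith
  have k4 : 0 ≤ 2 + β - β ^ 2 := by nlinarith
  have k4' : 2 + β - β ^ 2 ≤ 9 / 4 := by nlinarith [sq_nonneg (β - 1 / 2)]
  have m1 : (2 * β - β ^ 2) * (x - 3 * e - 2 * lNN) ≤ (2 * β - β ^ 2) * lμ :=
    mul_le_mul_of_nonneg_left (by linarith) k1
  have m2 : (1 + β - β ^ 2) * (x - n - e) ≤ (1 + β - β ^ 2) * lla :=
    mul_le_mul_of_nonneg_left (by linarith) k2
  have m3 : (3 - β ^ 2) * lB ≤ 3 * e :=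
    le_trans (mul_le_mul_of_nonneg_left e2 k3) (mul_le_mul_of_nonneg_right k3' he)
  have m4 : (2 * β - β ^ 2) * lH ≤ 1 * e :=
    le_trans (mul_le_mul_of_nonneg_left e3 k1) (mul_le_mul_of_nonneg_right k1' he)
  have m5 : β * l2 ≤ 1 * e :=
    le_trans (mul_le_mul_of_nonneg_left e7 hβ0.le) (mul_le_mul_of_nonneg_right hβ1.le he)
  have m6 : (2 + β - β ^ 2) * y ≤ 9 / 4 * e :=
    le_trans (mul_le_mul_of_nonneg_left e5 k4) (mul_le_mul_of_nonneg_right k4' he)
  have m7 : (2 * β - β ^ 2) * e ≤ 1 * e := mul_le_mul_of_nonneg_right k1' he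
  have m8 : (1 + β - β ^ 2) * e ≤ 5 / 4 * e := mul_le_mul_of_nonneg_right k2' he
  subst lN
  linarith [E2, m1, m2, m3, m4, m5, m6, m7, m8, g1, g2]

lemma lin_fin {α x n e : ℝ} (hα : 1 < α) (hα2 : α ≤ 2)
    (key : (1 + 3 * (1 / α) - 2 * (1 / α) ^ 2) * x ≤
      (3 + 2 * (1 / α) - 2 * (1 / α) ^ 2) * n + 16 * e) (he : 0 ≤ e) :
    x ≤ Fexp α * n + 8 * e := by
  have hα0 : 0 < α := by linarith
  set β : ℝ := 1 / α with hβ
  have hβ0 : 0 < β := by positivity
  have hβ1 : β < 1 := by rw [hβ, div_lt_one hα0]; exact hα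
  have hβ2 : 1 / 2 ≤ β := by
    rw [hβ, div_le_div_iff₀ (by norm_num) hα0]; linarith
  have hD : 2 ≤ 1 + 3 * β - 2 * β ^ 2 := by
    have := mul_nonneg (by linarith : 0 ≤ 2 * β - 1) (by linarith : 0 ≤ 1 - β)
    linarith
  have hF : Fexp α = (3 + 2 * β - 2 * β ^ 2) / (1 + 3 * β - 2 * β ^ 2) := by
    unfold Fexp
    have hd1 : α ^ 2 + 3 * α - 2 ≠ 0 := by
      have : 0 < α ^ 2 := by positivity
      linarith
    have hd2 : 1 + 3 * β - 2 * β ^ 2 ≠ 0 := by linarith
    rw [div_eq_div_iff hd1 hd2, hβ]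
    field_simp
  rw [hF]
  have hD0 : 0 < 1 + 3 * β - 2 * β ^ 2 := by linarith
  rw [div_mul_eq_mul_div, ← sub_nonneg]
  have h9 : (3 + 2 * β - 2 * β ^ 2) * n / (1 + 3 * β - 2 * β ^ 2) + 8 * e - x =
      ((3 + 2 * β - 2 * β ^ 2) * n + 8 * e * (1 + 3 * β - 2 * β ^ 2) -
        (1 + 3 * β - 2 * β ^ 2) * x) / (1 + 3 * β - 2 * β ^ 2) := by
    field_simp
  rw [h9]
  apply div_nonneg _ hD0.le
  have h10 : 8 * e * 2 ≤ 8 * e * (1 + 3 * β - 2 * β ^ 2) := by gcongr
  linarith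

theorem log_ineq {lam N0 α H R Lc M μ Γ K e a B κ N c0 : ℝ} (hα : 1 < α) (hα2 : α ≤ 2)
    (hlam : 0 < lam) (hN0 : 0 < N0) (hH : 0 < H) (hR : 0 < R) (hLc : 0 < Lc) (hM : 0 < M)
    (hμ : 0 < μ) (hΓ : 0 < Γ) (hK : 0 < K) (hB : 0 < B) (hκ : 0 < κ) (hc0 : 0 < c0)
    (ha : a = lam * Lc / (4 * N0)) (hN : N = 4 / lam * N0)
    (h1 : lam / 4 * Lc ≤ M) (h2 : c0 * M ≤ Γ) (h3 : Γ ≤ N ^ 2 * μ)
    (h4 : K ^ (1 - 1 / α) * ((1 / a) * B * H) ^ (1 / α) * (B * (M / (μ / R))) = κ / 2 * Γ)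
    (h5 : κ * Γ ≤ (N * (B * ((1 / a) * μ))) ^ (1 - 1 / α) *
      ((1 / a) * (1 / a) * B ^ 2 * H) ^ (1 / α) *
        (B * (N * (B * (M / (μ / R)) * ((1 / a) * B * H / K) ^ (1 / α)))))
    (e1 : -Real.log κ ≤ e) (e2 : Real.log B ≤ e) (e3 : Real.log H ≤ e) (e4 : Real.log R ≤ e)
    (e5 : Real.log (4 / lam) ≤ e) (e6 : -Real.log c0 ≤ 2 * e) (e7 : Real.log 2 ≤ e) (he : 0 ≤ e) :
    Real.log Lc ≤ Fexp α * Real.log N0 + 8 * e := by
  have hα0 : 0 < α := by linarith
  set β : ℝ := 1 / α with hβ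
  have hβ0 : 0 < β := by positivity
  have hβ1 : β < 1 := by rw [hβ, div_lt_one hα0]; exact hα
  have hβ2 : 1 / 2 ≤ β := by
    rw [hβ, div_le_div_iff₀ (by norm_num) hα0]; linarith
  have ha0 : 0 < a := by rw [ha]; positivity
  have hNp : 0 < N := by rw [hN]; positivity
  have la : Real.log a = Real.log Lc - Real.log N0 - Real.log (4 / lam) := by
    have : a = Lc / N0 / (4 / lam) := by rw [ha]; field_simp
    rw [this, Real.log_div (by positivity) (by positivity), Real.log_div hLc.ne' hN0.ne']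
  have lN : Real.log N = Real.log (4 / lam) + Real.log N0 := by
    rw [hN, Real.log_mul (by positivity) hN0.ne']
  have g1 : Real.log Lc - e ≤ Real.log M := by
    have h := Real.log_le_log (by positivity) h1
    rw [Real.log_mul (by positivity) hLc.ne'] at h
    have h' : Real.log (lam / 4) = -Real.log (4 / lam) := by
      rw [← Real.log_inv]; congr 1; rw [inv_div]
    rw [h'] at h
    linarith
  have g2 : Real.log M - 2 * e ≤ Real.log Γ := by
    have h := Real.log_le_log (by positivity) h2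
    rw [Real.log_mul hc0.ne' hM.ne'] at h
    linarith
  have g3 : Real.log Γ ≤ 2 * Real.log N + Real.log μ := by
    have h := Real.log_le_log hΓ h3
    rw [Real.log_mul (by positivity) hμ.ne', Real.log_pow] at h
    exact_mod_cast h
  have hq : Real.log (M / (μ / R)) = Real.log M - (Real.log μ - Real.log R) := by
    rw [Real.log_div hM.ne' (by positivity), Real.log_div hμ.ne' hR.ne']
  have hq1 : Real.log (1 / a) = -Real.log a := by rw [one_div, Real.log_inv]
  have hq2 : Real.log ((1 / a) * B * H) = -Real.log a + Real.log B + Real.log H := by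
    rw [Real.log_mul (by positivity) hH.ne', Real.log_mul (by positivity) hB.ne', hq1]
  have g4 : (1 - β) * Real.log K + β * (-Real.log a + Real.log B + Real.log H) +
      (Real.log B + (Real.log M - (Real.log μ - Real.log R))) =
      Real.log κ - Real.log 2 + Real.log Γ := by
    have h := congrArg Real.log h4
    rw [Real.log_mul (by positivity) (by positivity), Real.log_mul (by positivity) (by positivity),
      Real.log_rpow hK, Real.log_rpow (by positivity), hq2,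
      Real.log_mul hB.ne' (by positivity), hq, Real.log_mul (by positivity) hΓ.ne',
      Real.log_div hκ.ne' (by norm_num)] at h
    exact h
  have g5 : Real.log κ + Real.log Γ ≤
      (1 - β) * (Real.log N + (Real.log B + (-Real.log a + Real.log μ))) +
      β * (-Real.log a + -Real.log a + 2 * Real.log B + Real.log H) +
      (Real.log B + (Real.log N + (Real.log B + (Real.log M - (Real.log μ - Real.log R)) +
        β * (-Real.log a + Real.log B + Real.log H - Real.log K)))) := by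
    have h := Real.log_le_log (by positivity) h5
    rw [Real.log_mul hκ.ne' hΓ.ne'] at h
    refine le_trans h (le_of_eq ?_)
    rw [Real.log_mul (by positivity) (by positivity), Real.log_mul (by positivity) (by positivity),
      Real.log_rpow (by positivity), Real.log_rpow (by positivity)]
    rw [Real.log_mul hNp.ne' (by positivity), Real.log_mul hB.ne' (by positivity),
      Real.log_mul (by positivity) hμ.ne', hq1]
    rw [Real.log_mul (by positivity) hH.ne', Real.log_mul (by positivity) (by positivity),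
      Real.log_mul (by positivity) (by positivity), Real.log_pow, hq1]
    rw [Real.log_mul hB.ne' (by positivity), Real.log_mul hNp.ne' (by positivity),
      Real.log_mul (by positivity) (by positivity), Real.log_mul hB.ne' (by positivity), hq,
      Real.log_rpow (by positivity), Real.log_div (by positivity) hK.ne', hq2]
    push_cast
    ring
  have E2 := lin_elim hβ1 g4 g5
  have key := lin_key hβ0 hβ1 he la lN g1 g2 g3 E2 e1 e2 e3 e4 e5 e7
  exact lin_fin hα hα2 key he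

end Pool.Agent.Helper84.Kak
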