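import Pool.Agent.Helper84.KakAvg

/-!
Pruning of a configuration and choice of the multiplicity level.
-/

noncomputable section

open Finset Classical

namespace Pool.Agent.Helper84.Kak

variable {Λ C : Type*}

/-- a product bound -/
lemma sum_cells_eq {c : Λ → ℕ → C} {Q : ℕ} (hQ : 0 < Q) (L : Finset Λ) (T : Λ → Finset ℕ) :
    ∑ i ∈ range Q, ((cellsAt c L T i).card : ℝ) = avg c Q L T * Q := by
  unfold avg
  rw [div_mul_cancel₀]
  positivity

/-- pruning. -/
theorem prune (c : Λ → ℕ → C) {Q : ℕ} (hQ : 0 < Q) (L : Finset Λ) (T : Λ → Finset ℕ)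
    {lam N0 : ℝ} (hlam : 0 < lam) (hN0 : 0 < N0) (hT : ∀ l ∈ L, T l ⊆ range Q)
    (hTl : ∀ l ∈ L, lam * Q ≤ ((T l).card : ℝ)) (havg : avg c Q L T ≤ N0) :
    ∃ (L' : Finset Λ) (T' : Λ → Finset ℕ), L' ⊆ L ∧ (∀ l ∈ L', T' l ⊆ T l) ∧
      (∀ l ∈ L', lam / 4 * Q ≤ ((T' l).card : ℝ)) ∧
      (∀ l ∈ L', ∀ i ∈ T' l, lam * L.card / (4 * N0) ≤ load c L' T' i (c l i)) ∧
      (∀ i, ((cellsAt c L' T' i).card : ℝ) ≤ 4 / lam * N0) ∧
      lam / 4 * L.card ≤ (L'.card : ℝ) := by
  have hQr : (0 : ℝ) < Q := by exact_mod_cast hQ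
  set a : ℝ := lam * L.card / (4 * N0) with ha
  have ha0 : 0 ≤ a := by positivity
  set I0 : Finset (Λ × ℕ) := (L ×ˢ range Q).filter (fun p => p.2 ∈ T p.1 ∧
    ((cellsAt c L T p.2).card : ℝ) ≤ 4 / lam * N0) with hI0
  let lin : Finset (Λ × ℕ) → Finset Λ := fun J => J.image (fun p => p.1)
  let cel : Finset (Λ × ℕ) → Finset (ℕ × C) := fun J => J.image (fun p => (p.2, c p.1 p.2))
  let Φ : Finset (Λ × ℕ) → ℝ := fun J =>
    (J.card : ℝ) - lam / 4 * Q * (lin J).card - a * (cel J).card
  obtain ⟨J, hJ, hmax⟩ := exists_max_image I0.powerset Φ ⟨I0, mem_powerset_self I0⟩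
  have hJ0 : J ⊆ I0 := mem_powerset.1 hJ
  let T' : Λ → Finset ℕ := fun l => (range Q).filter (fun i => (l, i) ∈ J)
  have hmemI : ∀ p ∈ J, p.1 ∈ L ∧ p.2 ∈ range Q ∧ p.2 ∈ T p.1 ∧
      ((cellsAt c L T p.2).card : ℝ) ≤ 4 / lam * N0 := by
    intro p hp
    have := hJ0 hp
    rw [hI0, mem_filter, mem_product] at this
    exact ⟨this.1.1, this.1.2, this.2⟩
  have hT'mem : ∀ l i, i ∈ T' l ↔ (l, i) ∈ J := by
    intro l i
    simp only [T', mem_filter]
    constructor
    · rintro ⟨_, h⟩; exact h
    · intro h; exact ⟨(hmemI _ h).2.1, h⟩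
  have hlinmem : ∀ l, l ∈ lin J ↔ ∃ i, (l, i) ∈ J := by
    intro l
    simp only [lin, mem_image]
    constructor
    · rintro ⟨p, hp, rfl⟩; exact ⟨p.2, hp⟩
    · rintro ⟨i, hi⟩; exact ⟨(l, i), hi, rfl⟩
  refine ⟨lin J, T', ?_, ?_, ?_, ?_, ?_, ?_⟩
  · intro l hl
    obtain ⟨i, hi⟩ := (hlinmem l).1 hl
    exact (hmemI _ hi).1
  · intro l _ i hi
    exact (hmemI _ ((hT'mem l i).1 hi)).2.2.1
  · -- every line keeps many times
    intro l hl
    by_contra hlt
    push Not at hlt
    set J2 := J.filter (fun p => p.1 ≠ l) with hJ2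
    have h1 : Φ J2 ≤ Φ J := hmax J2 (mem_powerset.2 (le_trans (filter_subset _ _) hJ0))
    have h2 : J.card = J2.card + (T' l).card := by
      have h3 : (J.filter (fun p => p.1 = l)).card = (T' l).card := by
        apply card_bij (fun p _ => p.2)
        · intro p hp
          rw [hT'mem]
          rw [mem_filter] at hp
          rw [← hp.2]; exact hp.1
        · intro p hp p' hp' h
          rw [mem_filter] at hp hp'
          ext1
          · rw [hp.2, hp'.2]
          · exact h
        · intro i hi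
          exact ⟨(l, i), mem_filter.2 ⟨(hT'mem l i).1 hi, rfl⟩, rfl⟩
      have h4 := card_filter_add_card_filter_not (s := J) (fun p => p.1 = l)
      rw [h3] at h4
      rw [← h4, hJ2]
      ring
    have h5 : (lin J2).card + 1 ≤ (lin J).card := by
      have h6 : lin J2 ⊆ (lin J).erase l := by
        intro l1 h1
        simp only [lin, mem_image] at h1
        obtain ⟨p, hp, rfl⟩ := h1
        rw [hJ2, mem_filter] at hp
        rw [mem_erase]
        exact ⟨hp.2, mem_image_of_mem _ hp.1⟩
      have h7 := card_le_card h6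
      rw [card_erase_of_mem hl] at h7
      have h8 : 0 < (lin J).card := card_pos.2 ⟨l, hl⟩
      omega
    have h9 : (cel J2).card ≤ (cel J).card := card_le_card (image_subset_image (filter_subset _ _))
    have h10 : (J.card : ℝ) = J2.card + (T' l).card := by exact_mod_cast h2
    have h11 : ((lin J2).card : ℝ) + 1 ≤ (lin J).card := by exact_mod_cast h5
    have h12 : ((cel J2).card : ℝ) ≤ (cel J).card := by exact_mod_cast h9
    simp only [Φ] at h1
    have h13 : lam / 4 * Q * ((lin J2).card + 1) ≤ lam / 4 * Q * (lin J).card := by gcongr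
    have h14 : a * (cel J2).card ≤ a * (cel J).card := by gcongr
    nlinarith
  · -- every cell keeps many lines
    intro l0 _ i0 hi0
    by_contra hlt
    push Not at hlt
    have hmem0 := (hT'mem l0 i0).1 hi0
    set J2 := J.filter (fun p => ¬ (p.2 = i0 ∧ c p.1 p.2 = c l0 i0)) with hJ2
    have h1 : Φ J2 ≤ Φ J := hmax J2 (mem_powerset.2 (le_trans (filter_subset _ _) hJ0))
    have h3 : ((J.filter (fun p => p.2 = i0 ∧ c p.1 p.2 = c l0 i0)).card : ℝ) =
        load c (lin J) T' i0 (c l0 i0) := by
      unfold load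
      norm_cast
      apply card_bij (fun p _ => p.1)
      · intro p hp
        rw [mem_filter] at hp
        rw [mem_filter, hT'mem, hlinmem]
        refine ⟨⟨p.2, hp.1⟩, ?_, ?_⟩
        · rw [← hp.2.1]; exact hp.1
        · rw [← hp.2.2, hp.2.1]
      · intro p hp p' hp' h
        rw [mem_filter] at hp hp'
        ext1
        · exact h
        · rw [hp.2.1, hp'.2.1]
      · intro l hl
        rw [mem_filter, hT'mem] at hl
        exact ⟨(l, i0), mem_filter.2 ⟨hl.2.1, rfl, hl.2.2⟩, rfl⟩
    have h2 : (J.card : ℝ) = load c (lin J) T' i0 (c l0 i0) + J2.card := by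
      rw [← h3]
      exact_mod_cast (card_filter_add_card_filter_not (s := J)
        (fun p => p.2 = i0 ∧ c p.1 p.2 = c l0 i0)).symm
    have h5 : (cel J2).card + 1 ≤ (cel J).card := by
      have h0 : (i0, c l0 i0) ∈ cel J := mem_image.2 ⟨(l0, i0), hmem0, rfl⟩
      have h6 : cel J2 ⊆ (cel J).erase (i0, c l0 i0) := by
        intro y hy
        simp only [cel, mem_image] at hy
        obtain ⟨p, hp, rfl⟩ := hy
        rw [hJ2, mem_filter] at hp
        rw [mem_erase]
        refine ⟨?_, mem_image_of_mem _ hp.1⟩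
        intro h
        rw [Prod.mk.injEq] at h
        exact hp.2 h
      have h7 := card_le_card h6
      rw [card_erase_of_mem h0] at h7
      have h8 : 0 < (cel J).card := card_pos.2 ⟨_, h0⟩
      omega
    have h9 : (lin J2).card ≤ (lin J).card := card_le_card (image_subset_image (filter_subset _ _))
    have h11 : ((cel J2).card : ℝ) + 1 ≤ (cel J).card := by exact_mod_cast h5
    have h12 : ((lin J2).card : ℝ) ≤ (lin J).card := by exact_mod_cast h9
    simp only [Φ] at h1
    have h13 : lam / 4 * Q * (lin J2).card ≤ lam / 4 * Q * (lin J).card := by gcongr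
    have h14 : a * ((cel J2).card + 1) ≤ a * (cel J).card := by gcongr
    nlinarith
  · -- few cells
    intro i
    rcases (cellsAt c (lin J) T' i).eq_empty_or_nonempty with h | ⟨y, hy⟩
    · rw [h]; simp; positivity
    · have h1 : cellsAt c (lin J) T' i ⊆ cellsAt c L T i := by
        intro y hy
        simp only [cellsAt, mem_image, mem_filter] at hy ⊢
        obtain ⟨l, ⟨_, hl2⟩, rfl⟩ := hy
        have := hmemI _ ((hT'mem l i).1 hl2)
        exact ⟨l, ⟨this.1, this.2.2.1⟩, rfl⟩
      simp only [cellsAt, mem_image, mem_filter] at hy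
      obtain ⟨l, ⟨_, hl2⟩, _⟩ := hy
      have := hmemI _ ((hT'mem l i).1 hl2)
      exact le_trans (by exact_mod_cast card_le_card h1) this.2.2.2
  · -- many lines
    have h1 : Φ I0 ≤ Φ J := hmax I0 (mem_powerset_self I0)
    have hsum := sum_cells_eq (c := c) hQ L T
    -- bad times
    set bad := (range Q).filter (fun i => ¬ ((cellsAt c L T i).card : ℝ) ≤ 4 / lam * N0) with hbad
    have hbadc : (bad.card : ℝ) ≤ lam / 4 * Q := by
      have h2 : (bad.card : ℝ) * (4 / lam * N0) ≤ N0 * Q := by
        calc (bad.card : ℝ) * (4 / lam * N0) = ∑ i ∈ bad, 4 / lam * N0 := by simp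
          _ ≤ ∑ i ∈ bad, ((cellsAt c L T i).card : ℝ) :=
              sum_le_sum (fun i hi => (not_le.1 (mem_filter.1 hi).2).le)
          _ ≤ ∑ i ∈ range Q, ((cellsAt c L T i).card : ℝ) :=
              sum_le_sum_of_subset_of_nonneg (filter_subset _ _) (fun _ _ _ => by positivity)
          _ = avg c Q L T * Q := hsum
          _ ≤ N0 * Q := by gcongr
      have h3 : (bad.card : ℝ) * (4 / lam * N0) = (bad.card : ℝ) * 4 / lam * N0 := by ring
      rw [h3, mul_comm N0, mul_le_mul_iff_left₀ hN0, div_le_iff₀ hlam] at h2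
      linarith
    have hI0card : 3 / 4 * lam * Q * L.card ≤ (I0.card : ℝ) := by
      have h2 : (I0.card : ℝ) = ∑ l ∈ L, (((range Q).filter (fun i => i ∈ T l ∧
          ((cellsAt c L T i).card : ℝ) ≤ 4 / lam * N0)).card : ℝ) := by
        rw [hI0, card_filter]
        push_cast
        rw [sum_product]
        apply sum_congr rfl
        intro l _
        rw [← sum_boole]
      rw [h2]
      have h3 : ∀ l ∈ L, 3 / 4 * lam * Q ≤ (((range Q).filter (fun i => i ∈ T l ∧
          ((cellsAt c L T i).card : ℝ) ≤ 4 / lam * N0)).card : ℝ) := by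
        intro l hl
        have h4 : T l ⊆ ((range Q).filter (fun i => i ∈ T l ∧
          ((cellsAt c L T i).card : ℝ) ≤ 4 / lam * N0)) ∪ bad := by
          intro i hi
          have hr := hT l hl hi
          rw [mem_union, mem_filter, hbad, mem_filter]
          by_cases h : ((cellsAt c L T i).card : ℝ) ≤ 4 / lam * N0
          · left; exact ⟨hr, hi, h⟩
          · right; exact ⟨hr, h⟩
        have h5 := le_trans (card_le_card h4) (card_union_le _ _)
        have h6 : ((T l).card : ℝ) ≤ (((range Q).filter (fun i => i ∈ T l ∧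
          ((cellsAt c L T i).card : ℝ) ≤ 4 / lam * N0)).card : ℝ) + bad.card := by
          exact_mod_cast h5
        have h7 := hTl l hl
        linarith
      calc 3 / 4 * lam * Q * L.card = ∑ l ∈ L, 3 / 4 * lam * Q := by simp; ring
        _ ≤ _ := sum_le_sum h3
    have hlin0 : ((lin I0).card : ℝ) ≤ L.card := by
      have : lin I0 ⊆ L := by
        intro l hl
        obtain ⟨p, hp, rfl⟩ := mem_image.1 hl
        rw [hI0, mem_filter, mem_product] at hp
        exact hp.1.1
      exact_mod_cast card_le_card this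
    have hcel0 : ((cel I0).card : ℝ) ≤ N0 * Q := by
      have h2 : cel I0 ⊆ ((range Q).sigma (fun i => cellsAt c L T i)).image
          (fun p => (p.1, p.2)) := by
        intro y hy
        obtain ⟨p, hp, rfl⟩ := mem_image.1 hy
        rw [hI0, mem_filter, mem_product] at hp
        refine mem_image.2 ⟨⟨p.2, c p.1 p.2⟩, ?_, rfl⟩
        rw [mem_sigma]
        exact ⟨hp.1.2, mem_image.2 ⟨p.1, mem_filter.2 ⟨hp.1.1, hp.2.1⟩, rfl⟩⟩
      have h3 := le_trans (card_le_card h2) card_image_le
      rw [card_sigma] at h3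
      calc ((cel I0).card : ℝ) ≤ ∑ i ∈ range Q, ((cellsAt c L T i).card : ℝ) := by
            exact_mod_cast h3
        _ = avg c Q L T * Q := hsum
        _ ≤ N0 * Q := by gcongr
    have hΦ0 : lam / 4 * Q * L.card ≤ Φ I0 := by
      simp only [Φ]
      have h2 : lam / 4 * Q * (lin I0).card ≤ lam / 4 * Q * L.card := by gcongr
      have h3 : a * (cel I0).card ≤ a * (N0 * Q) := by gcongr
      have h4 : a * (N0 * Q) = lam / 4 * Q * L.card := by rw [ha]; field_simp
      linarith
    have hJcard : lam / 4 * Q * L.card ≤ (J.card : ℝ) := by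
      have h2 : Φ J ≤ J.card := by
        simp only [Φ]
        have : 0 ≤ lam / 4 * Q * (lin J).card := by positivity
        have : 0 ≤ a * (cel J).card := by positivity
        linarith
      linarith
    have h6 : (J.card : ℝ) ≤ (lin J).card * Q := by
      have h7 : J ⊆ (lin J) ×ˢ range Q := by
        intro p hp
        rw [mem_product]
        exact ⟨mem_image_of_mem _ hp, (hmemI p hp).2.1⟩
      have := card_le_card h7
      rw [card_product, card_range] at this
      exact_mod_cast this
    have h8 : lam / 4 * L.card * Q ≤ (lin J).card * Q := by linarith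
    exact le_of_mul_le_mul_right h8 hQr

end Pool.Agent.Helper84.Kak
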