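import Pool.Agent.Helper84.KakIter

/-!
Iteration towards the root of `a^3 - 4 a + 2`.
-/

noncomputable section

open Finset Classical

namespace Pool.Agent.Helper84.Kak

/-- basic facts about the root. -/
lemma root_bounds {a : ℝ} (ha1 : 1 < a) (ha : a ^ 3 - 4 * a + 2 = 0) : 8 / 5 < a ∧ a < 7 / 4 := by
  constructor
  · by_contra h
    push Not at h
    nlinarith [mul_pos (sub_pos.2 ha1) (sub_pos.2 ha1), sq_nonneg (a - 8 / 5)]
  · by_contra h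
    push Not at h
    nlinarith [mul_pos (sub_pos.2 ha1) (sub_pos.2 ha1), sq_nonneg (a - 7 / 4)]

lemma Fexp_sub {a α : ℝ} (ha : a ^ 3 - 4 * a + 2 = 0) (hD : α ^ 2 + 3 * α - 2 ≠ 0) :
    Fexp α - a = (α - a) * (((3 - a) * (α + a) + 2 - 3 * a) / (α ^ 2 + 3 * α - 2)) := by
  unfold Fexp
  rw [mul_div_assoc', eq_div_iff hD, sub_mul, div_mul_cancel₀ _ hD]
  linear_combination (-1 : ℝ) * ha

lemma Fexp_bounds {a α : ℝ} (ha1 : 1 < a) (ha : a ^ 3 - 4 * a + 2 = 0) (h1 : a ≤ α) (h2 : α ≤ 2) :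
    a ≤ Fexp α ∧ Fexp α - a ≤ (α - a) / 2 := by
  obtain ⟨b1, b2⟩ := root_bounds ha1 ha
  have hD : 0 < α ^ 2 + 3 * α - 2 := by nlinarith
  have h := Fexp_sub ha hD.ne'
  have hn : 0 ≤ (3 - a) * (α + a) + 2 - 3 * a := by nlinarith
  have hr0 : 0 ≤ ((3 - a) * (α + a) + 2 - 3 * a) / (α ^ 2 + 3 * α - 2) := div_nonneg hn hD.le
  have hr1 : ((3 - a) * (α + a) + 2 - 3 * a) / (α ^ 2 + 3 * α - 2) ≤ 1 / 2 := by
    rw [div_le_div_iff₀ hD (by norm_num)]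
    nlinarith
  constructor
  · have : 0 ≤ Fexp α - a := by rw [h]; exact mul_nonneg (by linarith) hr0
    linarith
  · rw [h]
    have : (α - a) * (((3 - a) * (α + a) + 2 - 3 * a) / (α ^ 2 + 3 * α - 2)) ≤
      (α - a) * (1 / 2) := mul_le_mul_of_nonneg_left hr1 (by linarith)
    linarith

/-- approximations of the root. -/
theorem exists_IH_near {m : ℕ} (h2 : IH m 2) {a : ℝ} (ha1 : 1 < a) (ha : a ^ 3 - 4 * a + 2 = 0)
    {δ : ℝ} (hδ : 0 < δ) : ∃ α : ℝ, a ≤ α ∧ α ≤ a + δ ∧ α ≤ 2 ∧ IH m α := by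
  obtain ⟨b1, b2⟩ := root_bounds ha1 ha
  have hind : ∀ k : ℕ, ∃ α : ℝ, a ≤ α ∧ α - a ≤ (2 - a) / 2 ^ k ∧ α ≤ 2 ∧ IH m α := by
    intro k
    induction k with
    | zero => exact ⟨2, by linarith, by simp, le_rfl, h2⟩
    | succ k ih =>
        obtain ⟨α, h3, h4, h5, h6⟩ := ih
        obtain ⟨h7, h8⟩ := Fexp_bounds ha1 ha h3 h5
        refine ⟨Fexp α, h7, ?_, ?_, step (by linarith) h5 h6⟩
        · calc Fexp α - a ≤ (α - a) / 2 := h8
            _ ≤ ((2 - a) / 2 ^ k) / 2 := by linarith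
            _ = (2 - a) / 2 ^ (k + 1) := by rw [pow_succ, div_div]
        · linarith
  obtain ⟨k, hk⟩ := exists_pow_lt_of_lt_one (show 0 < δ by exact hδ) (show (1 / 2 : ℝ) < 1 by norm_num)
  obtain ⟨α, h3, h4, h5, h6⟩ := hind k
  refine ⟨α, h3, ?_, h5, h6⟩
  have h9 : (2 - a) / 2 ^ k ≤ (1 / 2 : ℝ) ^ k := by
    rw [one_div, inv_pow, div_eq_mul_inv]
    have : (0 : ℝ) < (2 ^ k)⁻¹ := by positivity
    calc (2 - a) * (2 ^ k)⁻¹ ≤ 1 * (2 ^ k)⁻¹ := by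
          apply mul_le_mul_of_nonneg_right _ this.le
          linarith
      _ = (2 ^ k)⁻¹ := one_mul _
  linarith

end Pool.Agent.Helper84.Kak
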