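import Pool.Agent.Helper84.KakPrune

/-!
Choice of the multiplicity level.
-/

noncomputable section

open Finset Classical

namespace Pool.Agent.Helper84.Kak

variable {Λ C : Type*}

/-- admissible types `(t, (s, s'))`. -/
def types (Q : ℕ) (s : ℝ) : Finset (ℕ × (ℕ × ℕ)) :=
  (range Q ×ˢ (range Q ×ˢ range Q)).filter
    (fun p => s * Q ≤ |(p.2.1 : ℝ) - p.1| ∧ s * Q ≤ |(p.2.2 : ℝ) - p.1|)

lemma mem_types {Q : ℕ} {s : ℝ} {p : ℕ × (ℕ × ℕ)} : p ∈ types Q s ↔
    (p.1 < Q ∧ p.2.1 < Q ∧ p.2.2 < Q) ∧ s * Q ≤ |(p.2.1 : ℝ) - p.1| ∧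
      s * Q ≤ |(p.2.2 : ℝ) - p.1| := by
  unfold types
  rw [mem_filter, mem_product, mem_product, mem_range, mem_range, mem_range]

lemma sep_card {Q : ℕ} (hQ : 0 < Q) {s lam : ℝ} (hs : 0 < s) (hsQ : 2 ≤ s * Q)
    (hlam : s ≤ lam / 10) {A : Finset ℕ} (hA : A ⊆ range Q)
    (hT : lam * Q ≤ (A.card : ℝ)) (u : ℕ) :
    lam / 2 * Q ≤ ((A.filter (fun σ : ℕ => s * Q ≤ |(σ : ℝ) - u|)).card : ℝ) := by
  have hQr : (0 : ℝ) < Q := by exact_mod_cast hQ
  have h1 : A ⊆ A.filter (fun σ : ℕ => s * Q ≤ |(σ : ℝ) - u|) ∪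
      ((range Q).filter (fun σ : ℕ => |(σ : ℝ) - u| < s * Q)) := by
    intro σ hσ
    have hr := hA hσ
    rw [mem_union, mem_filter, mem_filter]
    by_cases h2 : s * Q ≤ |(σ : ℝ) - u|
    · left; exact ⟨hσ, h2⟩
    · right; exact ⟨hr, not_le.1 h2⟩
  have h3 := le_trans (card_le_card h1) (card_union_le _ _)
  have h4 := card_near Q u (r := s * Q) (by positivity)
  have h6 : (A.card : ℝ) ≤ ((A.filter (fun σ : ℕ => s * Q ≤ |(σ : ℝ) - u|)).card : ℝ) +
    (((range Q).filter (fun σ : ℕ => |(σ : ℝ) - u| < s * Q)).card : ℝ) := by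
    exact_mod_cast h3
  have h7 : s * Q ≤ lam / 10 * Q := by gcongr
  linarith

/-- some type has large total weight. -/
theorem exists_top (c : Λ → ℕ → C) {Q : ℕ} (hQ : 0 < Q) (L : Finset Λ) (hL : L.Nonempty)
    (T : Λ → Finset ℕ)
    {s lam : ℝ} (hs : 0 < s) (hsQ : 2 ≤ s * Q) (hlam : s ≤ lam / 10)
    (hT : ∀ l ∈ L, T l ⊆ range Q) (hTl : ∀ l ∈ L, lam * Q ≤ ((T l).card : ℝ)) :
    ∃ p ∈ types Q s, lam ^ 3 / 4 * L.card ≤ Gw c L T p.1 p.2.1 p.2.2 L.card := by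
  have hQr : (0 : ℝ) < Q := by exact_mod_cast hQ
  have hlam0 : 0 < lam := by linarith
  have hM : (0 : ℝ) < L.card := by exact_mod_cast card_pos.2 hL
  set R := range Q with hR
  let adm : ℕ → ℕ → Prop := fun t σ => s * Q ≤ |(σ : ℝ) - t|
  let g : ℕ × (ℕ × ℕ) → ℝ := fun p => if adm p.1 p.2.1 ∧ adm p.1 p.2.2 then
    Gw c L T p.1 p.2.1 p.2.2 L.card else 0
  have hsum : ∑ p ∈ R ×ˢ (R ×ˢ R), lam ^ 3 / 4 * L.card ≤ ∑ p ∈ R ×ˢ (R ×ˢ R), g p := by
    have h1 : ∑ p ∈ R ×ˢ (R ×ˢ R), lam ^ 3 / 4 * (L.card : ℝ) =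
        (lam / 2 * Q) ^ 2 * (lam * Q * L.card) := by
      simp only [sum_const, card_product, nsmul_eq_mul, hR, card_range]
      push_cast
      ring
    rw [h1, sum_product]
    -- for each time
    have h2 : ∀ t ∈ R, (lam / 2 * Q) ^ 2 * ∑ l ∈ L, (if t ∈ T l then (1 : ℝ) else 0) ≤
        ∑ y ∈ R ×ˢ R, g (t, y) := by
      intro t _
      rw [sum_product]
      have h3 : ∀ s1 ∈ R, ∀ s2 ∈ R, g (t, (s1, s2)) = ∑ p ∈ L ×ˢ L,
          (if (adm t s1 ∧ s1 ∈ T p.1) then (1 : ℝ) else 0) *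
          (if (adm t s2 ∧ s2 ∈ T p.2) then (1 : ℝ) else 0) * wt c L T t p.1 p.2 := by
        intro s1 _ s2 _
        by_cases ha : adm t s1 ∧ adm t s2
        · have : g (t, (s1, s2)) = Gw c L T t s1 s2 L.card := if_pos ha
          rw [this, Gw_top, sum_filter]
          apply sum_congr rfl
          intro p _
          by_cases h5 : s1 ∈ T p.1
          · by_cases h6 : s2 ∈ T p.2
            · rw [if_pos ⟨h5, h6⟩, if_pos ⟨ha.1, h5⟩, if_pos ⟨ha.2, h6⟩]; ring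
            · rw [if_neg (fun h => h6 h.2), if_neg (fun h : adm t s2 ∧ s2 ∈ T p.2 => h6 h.2)]
              ring
          · rw [if_neg (fun h => h5 h.1), if_neg (fun h : adm t s1 ∧ s1 ∈ T p.1 => h5 h.2)]
            ring
        · have : g (t, (s1, s2)) = 0 := if_neg ha
          rw [this]
          symm
          apply sum_eq_zero
          intro p _
          by_cases h5 : adm t s1
          · have h6 : ¬ adm t s2 := fun h => ha ⟨h5, h⟩
            rw [if_neg (fun h : adm t s2 ∧ s2 ∈ T p.2 => h6 h.1)]; ring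
          · rw [if_neg (fun h : adm t s1 ∧ s1 ∈ T p.1 => h5 h.1)]; ring
      rw [sum_congr rfl (fun s1 hs1 => sum_congr rfl (fun s2 hs2 => h3 s1 hs1 s2 hs2))]
      have h4 : ∑ s1 ∈ R, ∑ s2 ∈ R, ∑ p ∈ L ×ˢ L,
          (if (adm t s1 ∧ s1 ∈ T p.1) then (1 : ℝ) else 0) *
          (if (adm t s2 ∧ s2 ∈ T p.2) then (1 : ℝ) else 0) * wt c L T t p.1 p.2 =
          ∑ p ∈ L ×ˢ L, (∑ s1 ∈ R, (if (adm t s1 ∧ s1 ∈ T p.1) then (1 : ℝ) else 0)) *
            (∑ s2 ∈ R, (if (adm t s2 ∧ s2 ∈ T p.2) then (1 : ℝ) else 0)) *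
            wt c L T t p.1 p.2 := by
        have h5 : ∀ s1 ∈ R, ∑ s2 ∈ R, ∑ p ∈ L ×ˢ L,
          (if (adm t s1 ∧ s1 ∈ T p.1) then (1 : ℝ) else 0) *
          (if (adm t s2 ∧ s2 ∈ T p.2) then (1 : ℝ) else 0) * wt c L T t p.1 p.2 =
          ∑ p ∈ L ×ˢ L, ∑ s2 ∈ R, (if (adm t s1 ∧ s1 ∈ T p.1) then (1 : ℝ) else 0) *
          (if (adm t s2 ∧ s2 ∈ T p.2) then (1 : ℝ) else 0) * wt c L T t p.1 p.2 :=
          fun s1 _ => sum_comm
        rw [sum_congr rfl h5, sum_comm]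
        apply sum_congr rfl
        intro p _
        rw [sum_mul_sum, sum_mul]
        apply sum_congr rfl
        intro s1 _
        rw [sum_mul]
      rw [h4]
      have h6 : ∀ p ∈ L ×ˢ L, (lam / 2 * Q) ^ 2 * wt c L T t p.1 p.2 ≤
          (∑ s1 ∈ R, (if (adm t s1 ∧ s1 ∈ T p.1) then (1 : ℝ) else 0)) *
            (∑ s2 ∈ R, (if (adm t s2 ∧ s2 ∈ T p.2) then (1 : ℝ) else 0)) *
            wt c L T t p.1 p.2 := by
        intro p hp
        rw [mem_product] at hp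
        have h7 : ∀ l ∈ L, lam / 2 * Q ≤
            ∑ s1 ∈ R, (if (adm t s1 ∧ s1 ∈ T l) then (1 : ℝ) else 0) := by
          intro l hl
          rw [sum_boole]
          refine le_trans (sep_card hQ hs hsQ hlam (hT l hl) (hTl l hl) t) ?_
          refine Nat.cast_le.mpr (card_le_card ?_)
          intro σ hσ
          rw [mem_filter] at hσ ⊢
          exact ⟨hT l hl hσ.1, hσ.2, hσ.1⟩
        apply mul_le_mul_of_nonneg_right _ (wt_nonneg _ _ _)
        rw [sq]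
        have h8 := h7 _ hp.1
        have h9 := h7 _ hp.2
        have h10 : 0 ≤ lam / 2 * Q := by positivity
        exact mul_le_mul h8 h9 h10 (le_trans h10 h8)
      refine le_trans ?_ (sum_le_sum h6)
      rw [← mul_sum]
      apply mul_le_mul_of_nonneg_left _ (by positivity)
      rw [sum_product]
      apply sum_le_sum
      intro l hl
      by_cases ht : t ∈ T l
      · rw [if_pos ht, sum_wt hl ht]
      · rw [if_neg ht]
        exact sum_nonneg (fun l' _ => wt_nonneg _ _ _)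
    refine le_trans ?_ (sum_le_sum h2)
    rw [← mul_sum, sum_comm]
    apply mul_le_mul_of_nonneg_left _ (by positivity)
    calc lam * Q * L.card = ∑ l ∈ L, lam * Q := by simp; ring
      _ ≤ ∑ l ∈ L, ∑ t ∈ R, (if t ∈ T l then (1 : ℝ) else 0) := by
          apply sum_le_sum
          intro l hl
          rw [sum_boole]
          refine le_trans (hTl l hl) ?_
          norm_cast
          apply card_le_card
          intro σ hσ
          rw [mem_filter]
          exact ⟨hT l hl hσ, hσ⟩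
  have hne : (R ×ˢ (R ×ˢ R)).Nonempty := by
    have : R.Nonempty := by rw [hR, nonempty_range_iff]; exact hQ.ne'
    exact this.product (this.product this)
  obtain ⟨p, hp, hp2⟩ := exists_le_of_sum_le hne hsum
  have hpos : 0 < lam ^ 3 / 4 * (L.card : ℝ) := by positivity
  rw [mem_product, mem_product] at hp
  by_cases ha : adm p.1 p.2.1 ∧ adm p.1 p.2.2
  · have : g p = Gw c L T p.1 p.2.1 p.2.2 L.card := if_pos ha
    rw [this] at hp2
    refine ⟨p, mem_types.2 ⟨⟨mem_range.1 hp.1, mem_range.1 hp.2.1, mem_range.1 hp.2.2⟩, ha⟩, hp2⟩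
  · have : g p = 0 := if_neg ha
    rw [this] at hp2
    linarith

/-- choice of the multiplicity level. -/
theorem select (c : Λ → ℕ → C) {Q : ℕ} (L : Finset Λ) (hL : L.Nonempty)
    (T : Λ → Finset ℕ) {s N ρ R a0 : ℝ} (hρ0 : 0 < ρ) (hρ1 : ρ ≤ 1) (hR : 1 < R) (I : ℕ)
    (ha0 : 0 ≤ a0) (hN : 0 ≤ N)
    (htop : ∃ p ∈ types Q s, a0 ≤ Gw c L T p.1 p.2.1 p.2.2 L.card)
    (hcells : ∀ i, ((cellsAt c L T i).card : ℝ) ≤ N)
    (hsmall : N ^ 2 * (L.card / R ^ I) < ρ ^ I * a0) :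
    ∃ μ1 : ℝ, 0 < μ1 ∧ ∃ p ∈ types Q s, ρ ^ I * a0 ≤ Gw c L T p.1 p.2.1 p.2.2 μ1 ∧
      ∀ p' ∈ types Q s, Gw c L T p'.1 p'.2.1 p'.2.2 (μ1 / R) ≤
        ρ * Gw c L T p.1 p.2.1 p.2.2 μ1 := by
  have hM : (0 : ℝ) < L.card := by exact_mod_cast card_pos.2 hL
  obtain ⟨p0, hp0, hp0'⟩ := htop
  have hmax : ∀ i : ℕ, ∃ p ∈ types Q s, ∀ p' ∈ types Q s,
      Gw c L T p'.1 p'.2.1 p'.2.2 (L.card / R ^ i) ≤ Gw c L T p.1 p.2.1 p.2.2 (L.card / R ^ i) :=
    fun i => exists_max_image (types Q s)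
      (fun p => Gw c L T p.1 p.2.1 p.2.2 (L.card / R ^ i)) ⟨p0, hp0⟩
  choose P hP1 hP2 using hmax
  by_contra hno
  push Not at hno
  have hind : ∀ i : ℕ, i ≤ I → ρ ^ i * a0 ≤
      Gw c L T (P i).1 (P i).2.1 (P i).2.2 (L.card / R ^ i) := by
    intro i
    induction i with
    | zero =>
        intro _
        rw [pow_zero, pow_zero, one_mul, div_one]
        refine le_trans hp0' ?_
        have := hP2 0 p0 hp0
        rw [pow_zero, div_one] at this
        exact this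
    | succ i ih =>
        intro hi
        have h1 := ih (by omega)
        have hpos : 0 < (L.card : ℝ) / R ^ i := by positivity
        have h2 : ρ ^ I * a0 ≤ ρ ^ i * a0 := by
          apply mul_le_mul_of_nonneg_right _ ha0
          exact pow_le_pow_of_le_one hρ0.le hρ1 (by omega)
        obtain ⟨p', hp', h3⟩ := hno _ hpos (P i) (hP1 i) (le_trans h2 h1)
        have h4 : (L.card : ℝ) / R ^ i / R = L.card / R ^ (i + 1) := by
          rw [pow_succ, div_div]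
        rw [h4] at h3
        have h5 := hP2 (i + 1) p' hp'
        calc ρ ^ (i + 1) * a0 = ρ * (ρ ^ i * a0) := by ring
          _ ≤ ρ * Gw c L T (P i).1 (P i).2.1 (P i).2.2 (L.card / R ^ i) := by gcongr
          _ ≤ _ := h3.le
          _ ≤ _ := h5
  have h1 := hind I le_rfl
  have h2 : Gw c L T (P I).1 (P I).2.1 (P I).2.2 (L.card / R ^ I) ≤ N ^ 2 * (L.card / R ^ I) :=
    Gw_le (by positivity) hN (hcells _) (hcells _)
  linarith

end Pool.Agent.Helper84.Kak
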