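import Pool.Agent.Helper84.KakW

/-!
The `w`-step: pairs of joined lines.
-/

noncomputable section

open Finset Classical

namespace Pool.Agent.Helper84.Kak

/-- A pruned configuration of lines together with the induction hypothesis. -/
structure Cfg (m : ℕ) where
  Q : ℕ
  L : Finset (Line m)
  T : Line m → Finset ℕ
  s : ℝ
  κ : ℝ
  α : ℝ
  H : ℝ
  a : ℝ
  N : ℝ
  t : ℕ
  q : ℕ
  t3 : ℕ
  μ1 : ℝ
  μ2 : ℝ
  K : ℝ
  hQ : 0 < Q
  hs : 0 < s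
  hs1 : s ≤ 1
  hsQ : 2 ≤ s * Q
  hκ : 0 < κ
  hα : 1 < α
  hH : 0 < H
  ha : 0 < a
  hN : 0 ≤ N
  hμ2 : 0 < μ2
  hμ1 : 0 ≤ μ1
  hK : 0 < K
  hT : ∀ l ∈ L, T l ⊆ range Q
  hv : ∀ l ∈ L, ∀ k, |l.v k| ≤ Q
  hinj : Set.InjOn (fun l : Line m => cell l.v) L
  hload : ∀ l ∈ L, ∀ i ∈ T l, a ≤ load (cl Q) L T i (cl Q l i)
  hcells : ∀ i, ((cellsAt (cl Q) L T i).card : ℝ) ≤ N
  hIH : IHc (cl Q) Q L κ α H
  htQ : t < Q
  hqQ : q < Q
  ht3Q : t3 < Q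
  htq : s * Q ≤ |(t : ℝ) - q|
  ht3q : s * Q ≤ |(t3 : ℝ) - q|

namespace Cfg

variable {m : ℕ} (X : Cfg m)

/-- the multiplicity constant. -/
def B : ℝ := (15 / X.s ^ 3) ^ m

/-- image time (real). -/
def xr (c : ℝ) (σ : ℕ) : ℝ := (X.t : ℝ) + X.Q * c * (((σ : ℝ) - X.t) / ((σ : ℝ) - X.q))

/-- image time (rounded). -/
def nx (c : ℝ) (σ : ℕ) : ℕ := ⌊X.xr c σ⌋₊

/-- good times of a joined pair for the parameter `c`. -/
def SS (c : ℝ) (p : Line m × Line m) : Finset ℕ :=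
  (X.T p.1).filter (fun σ => X.s * X.Q ≤ |(σ : ℝ) - X.t| ∧ X.s * X.Q ≤ |(σ : ℝ) - X.q| ∧
    0 ≤ X.xr c σ ∧ X.nx c σ ∈ X.T p.2 ∧ X.s * X.Q ≤ |(X.nx c σ : ℝ) - X.t| ∧
    X.μ2 < mult (cl X.Q) X.L X.T X.t σ (X.nx c σ) (cl X.Q p.1 σ) (cl X.Q p.2 (X.nx c σ)))

/-- joined pairs with many good times. -/
def VV (c : ℝ) : Finset (Line m × Line m) :=
  (X.L ×ˢ X.L).filter (fun p => X.t ∈ X.T p.1 ∧ X.t ∈ X.T p.2 ∧
    cl X.Q p.1 X.t = cl X.Q p.2 X.t ∧ X.κ * X.Q ≤ ((X.SS c p).card : ℝ))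

/-- the `w`-cell. -/
def wc (c : ℝ) (p : Line m × Line m) : Cell m :=
  cell (fun k => pos p.1 ((X.q : ℝ) / X.Q) k + c * p.2.v k)

/-- popular `w`-cells. -/
def WW (c : ℝ) : Finset (Cell m) :=
  ((X.VV c).image (X.wc c)).filter (fun z0 => X.K ≤
    ∑ x ∈ (X.VV c).filter (fun x => X.wc c x = z0), wt (cl X.Q) X.L X.T X.t x.1 x.2)

variable {X} in
lemma mem_VV {c : ℝ} {p : Line m × Line m} : p ∈ X.VV c ↔ (p.1 ∈ X.L ∧ p.2 ∈ X.L) ∧
    X.t ∈ X.T p.1 ∧ X.t ∈ X.T p.2 ∧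
    cl X.Q p.1 X.t = cl X.Q p.2 X.t ∧ X.κ * X.Q ≤ ((X.SS c p).card : ℝ) := by
  unfold VV; rw [mem_filter, mem_product]

variable {X} in
lemma mem_SS {c : ℝ} {p : Line m × Line m} {σ : ℕ} : σ ∈ X.SS c p ↔ σ ∈ X.T p.1 ∧
    X.s * X.Q ≤ |(σ : ℝ) - X.t| ∧ X.s * X.Q ≤ |(σ : ℝ) - X.q| ∧
    0 ≤ X.xr c σ ∧ X.nx c σ ∈ X.T p.2 ∧ X.s * X.Q ≤ |(X.nx c σ : ℝ) - X.t| ∧
    X.μ2 < mult (cl X.Q) X.L X.T X.t σ (X.nx c σ) (cl X.Q p.1 σ) (cl X.Q p.2 (X.nx c σ)) := by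
  unfold SS; rw [mem_filter]

lemma hQr : (0 : ℝ) < X.Q := by exact_mod_cast X.hQ

lemma sinv : 1 ≤ 1 / X.s := by
  rw [le_div_iff₀ X.hs, one_mul]; exact X.hs1

lemma Bpos : 0 < X.B := by
  have := X.hs
  unfold B; positivity

lemma pow_le_B {D : ℝ} (hD0 : 0 ≤ D) (hD : D ≤ 6 / X.s ^ 3) : (2 * D + 3) ^ m ≤ X.B := by
  unfold B
  apply pow_le_pow_left₀ (by positivity)
  have h1 : (1 : ℝ) ≤ 1 / X.s ^ 3 := by
    rw [le_div_iff₀ (pow_pos X.hs 3), one_mul]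
    exact pow_le_one₀ X.hs.le X.hs1
  have h2 : 15 / X.s ^ 3 = 2 * (6 / X.s ^ 3) + 3 * (1 / X.s ^ 3) := by ring
  rw [h2]
  linarith

lemma inv_s_le : 1 / X.s ≤ 1 / X.s ^ 3 := by
  have hs := X.hs
  apply one_div_le_one_div_of_le (pow_pos hs 3)
  calc X.s ^ 3 ≤ X.s ^ 1 := pow_le_pow_of_le_one hs.le X.hs1 (by norm_num)
    _ = X.s := pow_one _

lemma inv_s2_le : 1 / X.s ^ 2 ≤ 1 / X.s ^ 3 := by
  have hs := X.hs
  apply one_div_le_one_div_of_le (pow_pos hs 3)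
  exact pow_le_pow_of_le_one hs.le X.hs1 (by norm_num)

lemma mem_lt {l : Line m} (hl : l ∈ X.L) {i : ℕ} (hi : i ∈ X.T l) : i < X.Q :=
  mem_range.1 (X.hT l hl hi)

lemma abs_sub_le {i j : ℕ} (hi : i < X.Q) (hj : j < X.Q) : |(i : ℝ) - j| ≤ X.Q := by
  have h1 : (i : ℝ) < X.Q := by exact_mod_cast hi
  have h2 : (j : ℝ) < X.Q := by exact_mod_cast hj
  have h3 : (0 : ℝ) ≤ i := by positivity
  have h4 : (0 : ℝ) ≤ j := by positivity
  rw [abs_le]; constructor <;> linarith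

lemma pos_close {l l' : Line m} {i : ℕ} (h : cl X.Q l i = cl X.Q l' i) (k : Fin m) :
    |(l.x k + (i : ℝ) / X.Q * l.v k) - (l'.x k + (i : ℝ) / X.Q * l'.v k)| ≤ 1 :=
  abs_sub_lt_of_floor_eq ((cell_eq_iff _ _).1 h k)

/-- lower bound for the parameter. -/
lemma c_lower {c : ℝ} {p : Line m × Line m} (hp : p ∈ X.VV c) : X.s ^ 2 / 2 ≤ |c| := by
  have hs := X.hs
  have hQ := X.hQr
  rw [mem_VV] at hp
  have h1 : 0 < (X.SS c p).card := by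
    have h2 : (0 : ℝ) < (X.SS c p).card := lt_of_lt_of_le (mul_pos X.hκ hQ) hp.2.2.2.2
    exact_mod_cast h2
  obtain ⟨σ, hσ⟩ := card_pos.1 h1
  rw [mem_SS] at hσ
  obtain ⟨hσT, h3, h4, h5, h6, h7, _⟩ := hσ
  have hσQ := X.mem_lt hp.1.1 hσT
  have e1 : |X.xr c σ - X.t| = X.Q * |c| * |((σ : ℝ) - X.t) / ((σ : ℝ) - X.q)| := by
    unfold xr
    rw [add_sub_cancel_left, abs_mul, abs_mul, abs_of_pos hQ]
  have e2 : |((σ : ℝ) - X.t) / ((σ : ℝ) - X.q)| ≤ 1 / X.s :=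
    abs_ratio_le hs hQ (X.abs_sub_le hσQ X.htQ) h4
  have e3 : |X.xr c σ - (X.nx c σ : ℝ)| ≤ 1 := by
    have := Nat.floor_le h5
    have := Nat.lt_floor_add_one (X.xr c σ)
    unfold nx
    rw [abs_le]; constructor <;> linarith
  have e4 : X.s * X.Q - 1 ≤ |X.xr c σ - X.t| := by
    have : |(X.nx c σ : ℝ) - X.t| ≤ |X.xr c σ - X.t| + |X.xr c σ - (X.nx c σ : ℝ)| := by
      have h8 : (X.nx c σ : ℝ) - X.t = (X.xr c σ - X.t) - (X.xr c σ - (X.nx c σ : ℝ)) := by ring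
      rw [h8]; exact abs_sub _ _
    linarith
  have e5 : X.s * X.Q / 2 ≤ X.Q * |c| * (1 / X.s) := by
    have h9 : X.s * X.Q / 2 ≤ X.s * X.Q - 1 := by have := X.hsQ; linarith
    calc X.s * X.Q / 2 ≤ |X.xr c σ - X.t| := by linarith
      _ = X.Q * |c| * |((σ : ℝ) - X.t) / ((σ : ℝ) - X.q)| := e1
      _ ≤ X.Q * |c| * (1 / X.s) := by gcongr
  have e6 : X.Q * |c| * (1 / X.s) = X.Q * |c| / X.s := by ring
  rw [e6, le_div_iff₀ hs] at e5
  have e7 : X.Q * (X.s ^ 2 / 2) ≤ X.Q * |c| := by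
    calc X.Q * (X.s ^ 2 / 2) = X.s * X.Q / 2 * X.s := by ring
      _ ≤ X.Q * |c| := e5
  exact le_of_mul_le_mul_left e7 hQ

/-- few partners for a given `w`-cell and line. -/
lemma w_hfib (c : ℝ) (z0 : Cell m) (l0 : Line m) :
    (((X.VV c).filter (fun x => X.wc c x = z0 ∧ x.1 = l0)).card : ℝ) ≤ X.B := by
  have hs := X.hs
  set A := (X.VV c).filter (fun x => X.wc c x = z0 ∧ x.1 = l0) with hA
  rcases A.eq_empty_or_nonempty with h | ⟨x0, hx0⟩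
  · rw [h]; simpa using X.Bpos.le
  have hc : X.s ^ 2 / 2 ≤ |c| := X.c_lower (mem_filter.1 hx0).1
  have hc0 : 0 < |c| := lt_of_lt_of_le (by positivity) hc
  have hinjA : Set.InjOn (fun x : Line m × Line m => cell x.2.v) A := by
    intro x hx y hy hxy
    rw [mem_coe, hA, mem_filter, mem_VV] at hx hy
    ext1
    · rw [hx.2.2, hy.2.2]
    · exact X.hinj (mem_coe.2 hx.1.1.2) (mem_coe.2 hy.1.1.2) hxy
  have hclose : ∀ x ∈ A, ∀ y ∈ A, ∀ k, |x.2.v k - y.2.v k| ≤ 2 / X.s ^ 2 := by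
    intro x hx y hy k
    simp only [hA, mem_filter] at hx hy
    have h1 : X.wc c x = X.wc c y := hx.2.1.trans hy.2.1.symm
    have h2 := abs_sub_lt_of_floor_eq ((cell_eq_iff _ _).1 h1 k)
    rw [hx.2.2, hy.2.2] at h2
    have h3 : |c| * |x.2.v k - y.2.v k| ≤ 1 := by
      rw [← abs_mul]
      calc |c * (x.2.v k - y.2.v k)| = |pos l0 ((X.q : ℝ) / X.Q) k + c * x.2.v k -
            (pos l0 ((X.q : ℝ) / X.Q) k + c * y.2.v k)| := by congr 1; ring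
        _ ≤ 1 := h2
    calc |x.2.v k - y.2.v k| ≤ 1 / |c| := by
          rw [le_div_iff₀ hc0, mul_comm]; exact h3
      _ ≤ 1 / (X.s ^ 2 / 2) := one_div_le_one_div_of_le (by positivity) hc
      _ = 2 / X.s ^ 2 := by field_simp
  refine le_trans (lines_card A (fun x => x.2) (by positivity) hinjA hclose) ?_
  apply X.pow_le_B (by positivity)
  have := X.inv_s2_le
  calc 2 / X.s ^ 2 = 2 * (1 / X.s ^ 2) := by ring
    _ ≤ 2 * (1 / X.s ^ 3) := by gcongr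
    _ ≤ 6 * (1 / X.s ^ 3) := by
        have : 0 < 1 / X.s ^ 3 := by positivity
        linarith
    _ = 6 / X.s ^ 3 := by ring

/-- number of (`w`-cell, cell) pairs. -/
lemma w_hF (c : ℝ) (σ : ℕ) :
    ((((X.VV c).filter (fun x => σ ∈ X.SS c x)).image
      (fun x => (X.wc c x, cl X.Q x.1 σ))).card : ℝ) ≤ X.B * (X.L.card / X.μ2) := by
  have hs := X.hs
  have hQ := X.hQr
  set A := (X.VV c).filter (fun x => σ ∈ X.SS c x) with hA
  set f : Line m × Line m → Cell m × Cell m :=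
    fun x => (cl X.Q x.1 σ, cl X.Q x.2 (X.nx c σ)) with hf
  refine le_trans (card_image_le_mul A f _ X.B ?_) ?_
  · intro y hy
    set A' := A.filter (fun x => f x = y) with hA'
    have h1 : A'.image (fun x => (X.wc c x, cl X.Q x.1 σ)) ⊆ (A'.image (X.wc c)) ×ˢ {y.1} := by
      intro z hz
      obtain ⟨x, hx, rfl⟩ := mem_image.1 hz
      rw [mem_product]
      refine ⟨mem_image_of_mem _ hx, ?_⟩
      rw [mem_singleton]
      have := (mem_filter.1 hx).2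
      rw [← this]
    have h2 : ((A'.image (fun x => (X.wc c x, cl X.Q x.1 σ))).card : ℝ) ≤
        ((A'.image (X.wc c)).card : ℝ) := by
      have := card_le_card h1
      rw [card_product, card_singleton, mul_one] at this
      exact_mod_cast this
    refine le_trans h2 ?_
    have h3 : A'.image (X.wc c) = A'.image (fun x : Line m × Line m =>
      cell (fun k => pos x.1 ((X.q : ℝ) / X.Q) k + c * x.2.v k)) := rfl
    rw [h3]
    have hclose : ∀ x ∈ A', ∀ y ∈ A', ∀ k,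
        |(pos x.1 ((X.q : ℝ) / X.Q) k + c * x.2.v k) -
          (pos y.1 ((X.q : ℝ) / X.Q) k + c * y.2.v k)| ≤ 6 / X.s := by
      intro x hx y' hy' k
      rw [hA', mem_filter, hA, mem_filter, mem_VV, mem_SS] at hx hy'
      obtain ⟨⟨⟨⟨hx1, hx2⟩, hxt1, hxt2, hxt3, _⟩, hσ, s1, s2, s3, s4, s5, _⟩, hfx⟩ := hx
      obtain ⟨⟨⟨⟨hy1, hy2⟩, hyt1, hyt2, hyt3, _⟩, _⟩, hfy⟩ := hy'
      have hfe : f x = f y' := hfx.trans hfy.symm
      have e1 : cl X.Q x.1 σ = cl X.Q y'.1 σ := (Prod.ext_iff.1 hfe).1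
      have e2 : cl X.Q x.2 (X.nx c σ) = cl X.Q y'.2 (X.nx c σ) := (Prod.ext_iff.1 hfe).2
      have hσQ := X.mem_lt hx1 hσ
      exact scalar_w_close (x := X.xr c σ) (n := (X.nx c σ : ℝ)) hs hQ s1 s2
        (X.abs_sub_le X.hqQ X.htQ) (X.abs_sub_le hσQ X.hqQ) rfl (Nat.floor_le s3)
        (Nat.lt_floor_add_one _) (X.hv _ hx2 k) (X.pos_close hxt3 k) (X.hv _ hy2 k)
        (X.pos_close hyt3 k) (X.pos_close e1 k) (X.pos_close e2 k)
    refine le_trans (box_card A' _ (by positivity) hclose) (X.pow_le_B (by positivity) ?_)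
    have := X.inv_s_le
    calc 6 / X.s = 6 * (1 / X.s) := by ring
      _ ≤ 6 * (1 / X.s ^ 3) := by gcongr
      _ = 6 / X.s ^ 3 := by ring
  · have := X.Bpos
    gcongr
    refine le_trans ?_ (card_large_mult (c := cl X.Q) (L := X.L) (T := X.T) X.hμ2 X.t σ (X.nx c σ))
    norm_cast
    apply card_le_card
    apply image_subset_image
    intro x hx
    rw [hA, mem_filter, mem_VV, mem_SS] at hx
    rw [mem_filter, mem_product]
    exact ⟨hx.1.1, hx.2.1, hx.2.2.2.2.2.1, hx.2.2.2.2.2.2.2⟩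

lemma SS_sub (c : ℝ) : ∀ x ∈ X.VV c, X.SS c x ⊆ range X.Q := by
  intro x hx σ hσ
  exact X.hT _ (mem_VV.1 hx).1.1 (mem_SS.1 hσ).1

/-- there are few popular `w`-cells. -/
lemma WW_card (c : ℝ) : ((X.WW c).card : ℝ) ≤
    X.B * (X.L.card / X.μ2) * ((1 / X.a) * X.B * X.H / X.K) ^ (1 / X.α) := by
  have ha := X.ha
  exact popular_card X.hQ (by linarith [X.hα]) X.hH X.hIH (X.VV c)
    (fun x => wt (cl X.Q) X.L X.T X.t x.1 x.2) (1 / X.a) X.B (by positivity) X.Bpos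
    (fun x hx => wt_le X.ha X.hload (mem_VV.1 hx).1.1)
    Prod.fst (X.SS c) (X.wc c)
    (fun x hx => (mem_VV.1 hx).1.1) (X.SS_sub c)
    (fun x hx => (mem_VV.1 hx).2.2.2.2) (X.w_hfib c) _ (fun σ _ => X.w_hF c σ) X.K X.hK

/-- the pairs with unpopular `w`-cell have small weight. -/
lemma unpop_weight (c : ℝ) : ∑ x ∈ (X.VV c).filter (fun x => X.wc c x ∉ X.WW c),
    wt (cl X.Q) X.L X.T X.t x.1 x.2 ≤
    X.K ^ (1 - 1 / X.α) * ((1 / X.a) * X.B * X.H) ^ (1 / X.α) * (X.B * (X.L.card / X.μ2)) := by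
  have ha := X.ha
  refine le_trans ?_ (unpopular_weight X.hQ X.hα.le X.hH X.hIH (X.VV c)
    (fun x => wt (cl X.Q) X.L X.T X.t x.1 x.2) (1 / X.a) X.B (by positivity) X.Bpos
    (fun x _ => wt_nonneg _ _ _)
    (fun x hx => wt_le X.ha X.hload (mem_VV.1 hx).1.1)
    Prod.fst (X.SS c) (X.wc c)
    (fun x hx => (mem_VV.1 hx).1.1) (X.SS_sub c)
    (fun x hx => (mem_VV.1 hx).2.2.2.2) (X.w_hfib c) _ (fun σ _ => X.w_hF c σ) X.K X.hK.le)
  apply sum_le_sum_of_subset_of_nonneg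
  · intro x hx
    rw [mem_filter] at hx ⊢
    refine ⟨hx.1, ?_⟩
    by_contra h
    apply hx.2
    rw [WW, mem_filter]
    exact ⟨mem_image_of_mem _ hx.1, le_of_lt (not_le.1 h)⟩
  · intro x _ _; exact wt_nonneg _ _ _

end Cfg

end Pool.Agent.Helper84.Kak
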