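import Pool.Agent.Helper84.KakStepW

/-!
The `z`-step: chains of three lines.
-/

noncomputable section

open Finset Classical

namespace Pool.Agent.Helper84.Kak

/-- a chain of three lines: `p = (l', (l, l''))`, with `l` in the middle. -/
abbrev Tri (m : ℕ) := Line m × (Line m × Line m)

namespace Cfg

variable {m : ℕ} (X : Cfg m)

/-- pairs `(l, l'')` of small multiplicity for the type `(q; t, t3)`. -/
def AA : Finset (Line m × Line m) :=
  (X.L ×ˢ X.L).filter (fun p => X.t ∈ X.T p.1 ∧ X.t3 ∈ X.T p.2 ∧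
    mult (cl X.Q) X.L X.T X.q X.t X.t3 (cl X.Q p.1 X.t) (cl X.Q p.2 X.t3) ≤ X.μ1)

/-- chains. -/
def PP : Finset (Tri m) :=
  (X.L ×ˢ X.AA).filter (fun p => (X.t ∈ X.T p.2.1 ∧ X.t ∈ X.T p.1 ∧
      cl X.Q p.2.1 X.t = cl X.Q p.1 X.t) ∧
    (X.q ∈ X.T p.2.1 ∧ X.q ∈ X.T p.2.2 ∧ cl X.Q p.2.1 X.q = cl X.Q p.2.2 X.q))

/-- weight of a chain. -/
def om (p : Tri m) : ℝ :=
  wt (cl X.Q) X.L X.T X.t p.2.1 p.1 * wt (cl X.Q) X.L X.T X.q p.2.1 p.2.2

/-- the parameter of the `w`-cell at time `τ`. -/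
def c1 (c : ℝ) (τ : ℕ) : ℝ := c * (((τ : ℝ) - X.q) / ((τ : ℝ) - X.t3))

/-- good times of a chain. -/
def RR (c : ℝ) (p : Tri m) : Finset ℕ :=
  (X.T p.2.2).filter (fun τ => X.s * X.Q ≤ |(τ : ℝ) - X.q| ∧ X.s * X.Q ≤ |(τ : ℝ) - X.t3| ∧
    (p.2.1, p.1) ∈ X.VV (X.c1 c τ) ∧ X.wc (X.c1 c τ) (p.2.1, p.1) ∈ X.WW (X.c1 c τ))

/-- good chains. -/
def PG (c : ℝ) : Finset (Tri m) :=
  X.PP.filter (fun p => X.κ * X.Q ≤ ((X.RR c p).card : ℝ))

/-- the `z`-cell. -/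
def zc (c : ℝ) (p : Tri m) : Cell m :=
  cell (fun k => pos p.2.2 ((X.t3 : ℝ) / X.Q) k + c * p.1.v k)

variable {X} in
lemma mem_AA {p : Line m × Line m} : p ∈ X.AA ↔ (p.1 ∈ X.L ∧ p.2 ∈ X.L) ∧
    X.t ∈ X.T p.1 ∧ X.t3 ∈ X.T p.2 ∧
    mult (cl X.Q) X.L X.T X.q X.t X.t3 (cl X.Q p.1 X.t) (cl X.Q p.2 X.t3) ≤ X.μ1 := by
  unfold AA; rw [mem_filter, mem_product]

variable {X} in
lemma mem_PP {p : Tri m} : p ∈ X.PP ↔ (p.1 ∈ X.L ∧ p.2 ∈ X.AA) ∧
    (X.t ∈ X.T p.2.1 ∧ X.t ∈ X.T p.1 ∧ cl X.Q p.2.1 X.t = cl X.Q p.1 X.t) ∧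
    (X.q ∈ X.T p.2.1 ∧ X.q ∈ X.T p.2.2 ∧ cl X.Q p.2.1 X.q = cl X.Q p.2.2 X.q) := by
  unfold PP; rw [mem_filter, mem_product]

variable {X} in
lemma mem_RR {c : ℝ} {p : Tri m} {τ : ℕ} : τ ∈ X.RR c p ↔ τ ∈ X.T p.2.2 ∧
    X.s * X.Q ≤ |(τ : ℝ) - X.q| ∧ X.s * X.Q ≤ |(τ : ℝ) - X.t3| ∧
    (p.2.1, p.1) ∈ X.VV (X.c1 c τ) ∧ X.wc (X.c1 c τ) (p.2.1, p.1) ∈ X.WW (X.c1 c τ) := by
  unfold RR; rw [mem_filter]

variable {X} in
lemma mem_PG {c : ℝ} {p : Tri m} : p ∈ X.PG c ↔ p ∈ X.PP ∧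
    X.κ * X.Q ≤ ((X.RR c p).card : ℝ) := by
  unfold PG; rw [mem_filter]

lemma om_nonneg (p : Tri m) : 0 ≤ X.om p := mul_nonneg (wt_nonneg _ _ _) (wt_nonneg _ _ _)

lemma om_le {p : Tri m} (hp : p ∈ X.PP) : X.om p ≤ (1 / X.a) * (1 / X.a) := by
  have ha := X.ha
  have h1 := (mem_PP.1 hp).1.2
  have h2 : p.2.1 ∈ X.L := (mem_AA.1 h1).1.1
  unfold om
  apply mul_le_mul (wt_le X.ha X.hload h2) (wt_le X.ha X.hload h2) (wt_nonneg _ _ _)
  positivity

/-- lower bound for the parameter `c`. -/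
lemma c_lower' {c : ℝ} {p : Tri m} (hp : p ∈ X.PG c) : X.s ^ 3 / 2 ≤ |c| := by
  have hs := X.hs
  have hQ := X.hQr
  have hp' := mem_PG.1 hp
  have h1 : 0 < (X.RR c p).card := by
    have h2 : (0 : ℝ) < (X.RR c p).card := lt_of_lt_of_le (mul_pos X.hκ hQ) hp'.2
    exact_mod_cast h2
  obtain ⟨τ, hτ⟩ := card_pos.1 h1
  rw [mem_RR] at hτ
  obtain ⟨hτT, h3, h4, h5, _⟩ := hτ
  have hp2 : p.2.2 ∈ X.L := (mem_AA.1 (mem_PP.1 hp'.1).1.2).1.2
  have hτQ := X.mem_lt hp2 hτT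
  have e1 := X.c_lower h5
  have e2 : |((τ : ℝ) - X.q) / ((τ : ℝ) - X.t3)| ≤ 1 / X.s :=
    abs_ratio_le hs hQ (X.abs_sub_le hτQ X.hqQ) h4
  unfold c1 at e1
  rw [abs_mul] at e1
  have e3 : X.s ^ 2 / 2 ≤ |c| * (1 / X.s) :=
    le_trans e1 (by gcongr)
  have e4 : |c| * (1 / X.s) = |c| / X.s := by ring
  rw [e4, le_div_iff₀ hs] at e3
  calc X.s ^ 3 / 2 = X.s ^ 2 / 2 * X.s := by ring
    _ ≤ |c| := e3

lemma inv_c_le {c : ℝ} {p : Tri m} (hp : p ∈ X.PG c) : 1 / |c| ≤ 2 / X.s ^ 3 := by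
  have hs := X.hs
  have := X.c_lower' hp
  calc 1 / |c| ≤ 1 / (X.s ^ 3 / 2) := one_div_le_one_div_of_le (by positivity) this
    _ = 2 / X.s ^ 3 := by field_simp

/-- velocity from a bound on `c * v`. -/
lemma vel_close {c u v E : ℝ} {p : Tri m} (hp : p ∈ X.PG c) (h : |c * (u - v)| ≤ E)
    (hE : 0 ≤ E) : |u - v| ≤ E * (2 / X.s ^ 3) := by
  have hs := X.hs
  have hc0 : 0 < |c| := lt_of_lt_of_le (by positivity) (X.c_lower' hp)
  have h2 := X.inv_c_le hp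
  rw [abs_mul] at h
  calc |u - v| ≤ E * (1 / |c|) := by
        rw [mul_one_div, le_div_iff₀ hc0, mul_comm]; exact h
    _ ≤ E * (2 / X.s ^ 3) := by gcongr

/-- few chains for a given `z`-cell and third line. -/
lemma z_hfib (c : ℝ) (z0 : Cell m) (l0 : Line m) :
    (((X.PG c).filter (fun p => X.zc c p = z0 ∧ p.2.2 = l0)).card : ℝ) ≤ X.B ^ 2 := by
  have hs := X.hs
  have hQ := X.hQr
  set A := (X.PG c).filter (fun p => X.zc c p = z0 ∧ p.2.2 = l0) with hA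
  have hB := X.Bpos
  have h1 : (A.card : ℝ) ≤ X.B * (A.image (fun p => p.1)).card := by
    have h2 := card_image_le_mul A (fun p => p.1) (fun p => p) X.B ?_
    · rwa [image_id'] at h2
    · intro l' _
      rw [image_id']
      set A' := A.filter (fun p => p.1 = l') with hA'
      have hinjA : Set.InjOn (fun p : Tri m => cell p.2.1.v) A' := by
        intro x hx y hy hxy
        rw [mem_coe, hA', mem_filter, hA, mem_filter, mem_PG, mem_PP, mem_AA] at hx hy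
        have e1 := X.hinj (mem_coe.2 hx.1.1.1.1.2.1.1) (mem_coe.2 hy.1.1.1.1.2.1.1) hxy
        ext1
        · rw [hx.2, hy.2]
        · ext1
          · exact e1
          · rw [hx.1.2.2, hy.1.2.2]
      have hclose : ∀ x ∈ A', ∀ y ∈ A', ∀ k, |x.2.1.v k - y.2.1.v k| ≤ 4 / X.s := by
        intro x hx y hy k
        rw [hA', mem_filter, hA, mem_filter, mem_PG, mem_PP] at hx hy
        obtain ⟨⟨⟨⟨_, ⟨_, _, hx1⟩, ⟨_, _, hx2⟩⟩, _⟩, _, hx3⟩, hx4⟩ := hx
        obtain ⟨⟨⟨⟨_, ⟨_, _, hy1⟩, ⟨_, _, hy2⟩⟩, _⟩, _, hy3⟩, hy4⟩ := hy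
        have e1 : cl X.Q x.2.1 X.t = cl X.Q y.2.1 X.t := by rw [hx1, hy1, hx4, hy4]
        have e2 : cl X.Q x.2.1 X.q = cl X.Q y.2.1 X.q := by rw [hx2, hy2, hx3, hy3]
        exact scalar_two_pos hs hQ X.htq (le_trans (X.pos_close e1 k) (by norm_num))
          (le_trans (X.pos_close e2 k) (by norm_num))
      refine le_trans (lines_card A' (fun x => x.2.1) (by positivity) hinjA hclose) ?_
      apply X.pow_le_B (by positivity)
      have := X.inv_s_le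
      have h3 : 0 < 1 / X.s ^ 3 := by positivity
      calc 4 / X.s = 4 * (1 / X.s) := by ring
        _ ≤ 4 * (1 / X.s ^ 3) := by gcongr
        _ ≤ 6 * (1 / X.s ^ 3) := by linarith
        _ = 6 / X.s ^ 3 := by ring
  have h2 : ((A.image (fun p => p.1)).card : ℝ) ≤ X.B := by
    set A1 := A.image (fun p => p.1) with hA1
    have hinjA : Set.InjOn (fun l : Line m => cell l.v) A1 := by
      intro x hx y hy hxy
      obtain ⟨p, hp, rfl⟩ := mem_image.1 (mem_coe.1 hx)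
      obtain ⟨p', hp', rfl⟩ := mem_image.1 (mem_coe.1 hy)
      rw [hA, mem_filter, mem_PG, mem_PP] at hp hp'
      exact X.hinj (mem_coe.2 hp.1.1.1.1) (mem_coe.2 hp'.1.1.1.1) hxy
    have hclose : ∀ x ∈ A1, ∀ y ∈ A1, ∀ k, |x.v k - y.v k| ≤ 2 / X.s ^ 3 := by
      intro x hx y hy k
      obtain ⟨p, hp, rfl⟩ := mem_image.1 hx
      obtain ⟨p', hp', rfl⟩ := mem_image.1 hy
      rw [hA, mem_filter] at hp hp'
      have e1 : X.zc c p = X.zc c p' := hp.2.1.trans hp'.2.1.symm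
      have e2 := abs_sub_lt_of_floor_eq ((cell_eq_iff _ _).1 e1 k)
      rw [hp.2.2, hp'.2.2] at e2
      have e3 : |c * (p.1.v k - p'.1.v k)| ≤ 1 := by
        calc |c * (p.1.v k - p'.1.v k)| = |pos l0 ((X.t3 : ℝ) / X.Q) k + c * p.1.v k -
              (pos l0 ((X.t3 : ℝ) / X.Q) k + c * p'.1.v k)| := by congr 1; ring
          _ ≤ 1 := e2
      have := X.vel_close hp.1 e3 (by norm_num)
      linarith
    refine le_trans (lines_card A1 (fun x => x) (by positivity) hinjA hclose) ?_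
    apply X.pow_le_B (by positivity)
    have h3 : 0 < 1 / X.s ^ 3 := by positivity
    calc 2 / X.s ^ 3 = 2 * (1 / X.s ^ 3) := by ring
      _ ≤ 6 * (1 / X.s ^ 3) := by linarith
      _ = 6 / X.s ^ 3 := by ring
  calc (A.card : ℝ) ≤ X.B * (A.image (fun p => p.1)).card := h1
    _ ≤ X.B * X.B := by gcongr
    _ = X.B ^ 2 := by ring

/-- a uniform bound for the number of popular cells. -/
def Wb : ℝ := X.B * (X.L.card / X.μ2) * ((1 / X.a) * X.B * X.H / X.K) ^ (1 / X.α)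

lemma Wb_nonneg : 0 ≤ X.Wb := by
  have h1 := X.Bpos
  have h2 := X.ha
  have h3 := X.hH
  have h4 := X.hK
  have h5 := X.hμ2
  unfold Wb; positivity

/-- number of (`z`-cell, cell) pairs. -/
lemma z_hF (c : ℝ) (τ : ℕ) :
    ((((X.PG c).filter (fun p => τ ∈ X.RR c p)).image
      (fun p => (X.zc c p, cl X.Q p.2.2 τ))).card : ℝ) ≤ X.B * (X.N * X.Wb) := by
  have hs := X.hs
  have hQ := X.hQr
  have hB := X.Bpos
  set A := (X.PG c).filter (fun p => τ ∈ X.RR c p) with hA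
  set c' := X.c1 c τ with hc'
  set f : Tri m → Cell m × Cell m :=
    fun p => (X.wc c' (p.2.1, p.1), cl X.Q p.2.2 τ) with hf
  refine le_trans (card_image_le_mul A f _ X.B ?_) ?_
  · intro y hy
    set A' := A.filter (fun p => f p = y) with hA'
    have h1 : A'.image (fun p => (X.zc c p, cl X.Q p.2.2 τ)) ⊆ (A'.image (X.zc c)) ×ˢ {y.2} := by
      intro z hz
      obtain ⟨x, hx, rfl⟩ := mem_image.1 hz
      rw [mem_product]
      refine ⟨mem_image_of_mem _ hx, ?_⟩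
      rw [mem_singleton]
      have := (mem_filter.1 hx).2
      rw [← this]
    have h2 : ((A'.image (fun p => (X.zc c p, cl X.Q p.2.2 τ))).card : ℝ) ≤
        ((A'.image (X.zc c)).card : ℝ) := by
      have := card_le_card h1
      rw [card_product, card_singleton, mul_one] at this
      exact_mod_cast this
    refine le_trans h2 ?_
    have h3 : A'.image (X.zc c) = A'.image (fun p : Tri m =>
      cell (fun k => pos p.2.2 ((X.t3 : ℝ) / X.Q) k + c * p.1.v k)) := rfl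
    rw [h3]
    have hclose : ∀ x ∈ A', ∀ y ∈ A', ∀ k,
        |(pos x.2.2 ((X.t3 : ℝ) / X.Q) k + c * x.1.v k) -
          (pos y.2.2 ((X.t3 : ℝ) / X.Q) k + c * y.1.v k)| ≤ 4 / X.s := by
      intro x hx y' hy' k
      rw [hA', mem_filter, hA, mem_filter, mem_PG, mem_PP, mem_AA, mem_RR] at hx hy'
      obtain ⟨⟨⟨⟨⟨_, ⟨_, hxL⟩, _⟩, _, ⟨_, _, hx2⟩⟩, _⟩, hτ, s1, s2, _⟩, hfx⟩ := hx
      obtain ⟨⟨⟨⟨_, _, ⟨_, _, hy2⟩⟩, _⟩, _⟩, hfy⟩ := hy'
      have hτQ := X.mem_lt hxL hτ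
      have hfe : f x = f y' := hfx.trans hfy.symm
      have e1 : X.wc c' (x.2.1, x.1) = X.wc c' (y'.2.1, y'.1) := (Prod.ext_iff.1 hfe).1
      have e2 : cl X.Q x.2.2 τ = cl X.Q y'.2.2 τ := (Prod.ext_iff.1 hfe).2
      exact scalar_z_close hs hQ s1 s2 (X.abs_sub_le X.ht3Q X.hqQ) (X.abs_sub_le hτQ X.ht3Q)
        hc' (X.pos_close hx2 k) (X.pos_close hy2 k)
        (abs_sub_lt_of_floor_eq ((cell_eq_iff _ _).1 e1 k)) (X.pos_close e2 k)
    refine le_trans (box_card A' _ (by positivity) hclose) (X.pow_le_B (by positivity) ?_)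
    have := X.inv_s_le
    have h3 : 0 < 1 / X.s ^ 3 := by positivity
    calc 4 / X.s = 4 * (1 / X.s) := by ring
      _ ≤ 4 * (1 / X.s ^ 3) := by gcongr
      _ ≤ 6 * (1 / X.s ^ 3) := by linarith
      _ = 6 / X.s ^ 3 := by ring
  · have h4 : A.image f ⊆ (X.WW c') ×ˢ (cellsAt (cl X.Q) X.L X.T τ) := by
      intro y hy
      obtain ⟨p, hp, rfl⟩ := mem_image.1 hy
      rw [hA, mem_filter, mem_PG, mem_PP, mem_AA, mem_RR] at hp
      rw [mem_product]
      refine ⟨hp.2.2.2.2.2, ?_⟩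
      unfold cellsAt
      exact mem_image.2 ⟨p.2.2, mem_filter.2 ⟨hp.1.1.1.2.1.2, hp.2.1⟩, rfl⟩
    have h5 : ((A.image f).card : ℝ) ≤ X.N * X.Wb := by
      have h6 := card_le_card h4
      rw [card_product] at h6
      calc ((A.image f).card : ℝ) ≤ ((X.WW c').card : ℝ) *
            ((cellsAt (cl X.Q) X.L X.T τ).card : ℝ) := by exact_mod_cast h6
        _ ≤ X.Wb * X.N := by
            apply mul_le_mul (X.WW_card c') (X.hcells τ) (by positivity) X.Wb_nonneg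
        _ = X.N * X.Wb := mul_comm _ _
    gcongr

/-- each `z`-cell carries little weight. -/
lemma z_all (c : ℝ) (z0 : Cell m) :
    ∑ p ∈ (X.PG c).filter (fun p => X.zc c p = z0), X.om p ≤
      X.N * (X.B * ((1 / X.a) * X.μ1)) := by
  have hs := X.hs
  have hQ := X.hQr
  have hB := X.Bpos
  have ha := X.ha
  have hμ := X.hμ1
  set A := (X.PG c).filter (fun p => X.zc c p = z0) with hA
  set E := cellsAt (cl X.Q) X.L X.T X.t3 with hE
  have h1 : ∑ p ∈ A, X.om p = ∑ y ∈ E, ∑ p ∈ A.filter (fun p => cl X.Q p.2.2 X.t3 = y), X.om p := by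
    refine (sum_fiberwise_of_maps_to (g := fun p : Tri m => cl X.Q p.2.2 X.t3) ?_ _).symm
    intro p hp
    rw [hA, mem_filter, mem_PG, mem_PP, mem_AA] at hp
    rw [hE]
    unfold cellsAt
    exact mem_image.2 ⟨p.2.2, mem_filter.2 ⟨hp.1.1.1.2.1.2, hp.1.1.1.2.2.2.1⟩, rfl⟩
  rw [h1]
  have h2 : ∀ y ∈ E, ∑ p ∈ A.filter (fun p => cl X.Q p.2.2 X.t3 = y), X.om p ≤
      X.B * ((1 / X.a) * X.μ1) := by
    intro y _
    set A2 := A.filter (fun p => cl X.Q p.2.2 X.t3 = y) with hA2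
    set I := A2.image (fun p => p.1) with hI
    have h3 : ∑ p ∈ A2, X.om p = ∑ l' ∈ I, ∑ p ∈ A2.filter (fun p => p.1 = l'), X.om p := by
      refine (sum_fiberwise_of_maps_to (g := fun p : Tri m => p.1) ?_ _).symm
      intro p hp
      exact mem_image_of_mem _ hp
    rw [h3]
    have h4 : (I.card : ℝ) ≤ X.B := by
      have hinjA : Set.InjOn (fun l : Line m => cell l.v) I := by
        intro x hx y hy hxy
        obtain ⟨p, hp, rfl⟩ := mem_image.1 (mem_coe.1 hx)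
        obtain ⟨p', hp', rfl⟩ := mem_image.1 (mem_coe.1 hy)
        rw [hA2, mem_filter, hA, mem_filter, mem_PG, mem_PP] at hp hp'
        exact X.hinj (mem_coe.2 hp.1.1.1.1.1) (mem_coe.2 hp'.1.1.1.1.1) hxy
      have hclose : ∀ x ∈ I, ∀ y ∈ I, ∀ k, |x.v k - y.v k| ≤ 4 / X.s ^ 3 := by
        intro x hx y hy k
        obtain ⟨p, hp, rfl⟩ := mem_image.1 hx
        obtain ⟨p', hp', rfl⟩ := mem_image.1 hy
        rw [hA2, mem_filter, hA, mem_filter] at hp hp'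
        have e1 : X.zc c p = X.zc c p' := hp.1.2.trans hp'.1.2.symm
        have e2 := abs_sub_lt_of_floor_eq ((cell_eq_iff _ _).1 e1 k)
        have e3 := abs_sub_lt_of_floor_eq ((cell_eq_iff _ _).1 (hp.2.trans hp'.2.symm) k)
        have e4 : |c * (p.1.v k - p'.1.v k)| ≤ 2 := by
          calc |c * (p.1.v k - p'.1.v k)| =
              |(pos p.2.2 ((X.t3 : ℝ) / X.Q) k + c * p.1.v k -
                (pos p'.2.2 ((X.t3 : ℝ) / X.Q) k + c * p'.1.v k)) -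
                (pos p.2.2 ((X.t3 : ℝ) / X.Q) k - pos p'.2.2 ((X.t3 : ℝ) / X.Q) k)| := by
                congr 1; ring
            _ ≤ 1 + 1 := le_trans (abs_sub _ _) (add_le_add e2 e3)
            _ = 2 := by norm_num
        have := X.vel_close hp.1.1 e4 (by norm_num)
        calc |p.1.v k - p'.1.v k| ≤ 2 * (2 / X.s ^ 3) := this
          _ = 4 / X.s ^ 3 := by ring
      refine le_trans (lines_card I (fun x => x) (by positivity) hinjA hclose) ?_
      apply X.pow_le_B (by positivity)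
      have h3 : 0 < 1 / X.s ^ 3 := by positivity
      calc 4 / X.s ^ 3 = 4 * (1 / X.s ^ 3) := by ring
        _ ≤ 6 * (1 / X.s ^ 3) := by linarith
        _ = 6 / X.s ^ 3 := by ring
    have h5 : ∀ l' ∈ I, ∑ p ∈ A2.filter (fun p => p.1 = l'), X.om p ≤ (1 / X.a) * X.μ1 := by
      intro l' hl'
      set A3 := A2.filter (fun p => p.1 = l') with hA3
      rcases A3.eq_empty_or_nonempty with h | ⟨p0, hp0⟩
      · rw [h, sum_empty]; positivity
      have h6 : ∀ p ∈ A3, (p ∈ X.PP ∧ cl X.Q p.2.2 X.t3 = y) ∧ p.1 = l' := by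
        intro p hp
        rw [hA3, mem_filter, hA2, mem_filter, hA, mem_filter, mem_PG] at hp
        exact ⟨⟨hp.1.1.1.1, hp.1.2⟩, hp.2⟩
      calc ∑ p ∈ A3, X.om p ≤ ∑ p ∈ A3, (1 / X.a) * wt (cl X.Q) X.L X.T X.q p.2.1 p.2.2 := by
            apply sum_le_sum
            intro p hp
            unfold om
            have h7 : p.2.1 ∈ X.L := (mem_AA.1 (mem_PP.1 (h6 p hp).1.1).1.2).1.1
            exact mul_le_mul_of_nonneg_right (wt_le X.ha X.hload h7) (wt_nonneg _ _ _)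
        _ = (1 / X.a) * ∑ p ∈ A3, wt (cl X.Q) X.L X.T X.q p.2.1 p.2.2 := by rw [mul_sum]
        _ = (1 / X.a) * ∑ p ∈ A3.image (fun p => p.2), wt (cl X.Q) X.L X.T X.q p.1 p.2 := by
            congr 1
            rw [sum_image]
            intro x hx y hy hxy
            ext1
            · rw [(h6 x (mem_coe.1 hx)).2, (h6 y (mem_coe.1 hy)).2]
            · exact hxy
        _ ≤ (1 / X.a) * X.μ1 := by
            gcongr
            have h8 := mem_PP.1 (h6 p0 hp0).1.1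
            have h9 := (mem_AA.1 h8.1.2).2.2.2
            refine le_trans ?_ h9
            unfold mult
            apply sum_le_sum_of_subset_of_nonneg
            · intro r hr
              obtain ⟨p, hp, rfl⟩ := mem_image.1 hr
              have g1 := h6 p hp
              have g2 := mem_PP.1 g1.1.1
              have g3 := mem_AA.1 g2.1.2
              unfold prs
              rw [mem_filter, mem_product]
              refine ⟨g3.1, g3.2.1, g3.2.2.1, ?_, ?_⟩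
              · rw [g2.2.1.2.2, h8.2.1.2.2, g1.2, (h6 p0 hp0).2]
              · rw [g1.1.2, (h6 p0 hp0).1.2]
            · intro r _ _; exact wt_nonneg _ _ _
    calc ∑ l' ∈ I, ∑ p ∈ A2.filter (fun p => p.1 = l'), X.om p
        ≤ ∑ l' ∈ I, (1 / X.a) * X.μ1 := sum_le_sum h5
      _ = I.card * ((1 / X.a) * X.μ1) := by simp
      _ ≤ X.B * ((1 / X.a) * X.μ1) := by gcongr
  calc ∑ y ∈ E, ∑ p ∈ A.filter (fun p => cl X.Q p.2.2 X.t3 = y), X.om p
      ≤ ∑ y ∈ E, X.B * ((1 / X.a) * X.μ1) := sum_le_sum h2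
    _ = E.card * (X.B * ((1 / X.a) * X.μ1)) := by simp
    _ ≤ X.N * (X.B * ((1 / X.a) * X.μ1)) := by
        have := X.hcells X.t3
        gcongr

/-- the main bound on the weight of good chains. -/
lemma PG_weight (c : ℝ) : ∑ p ∈ X.PG c, X.om p ≤
    (X.N * (X.B * ((1 / X.a) * X.μ1))) ^ (1 - 1 / X.α) *
      ((1 / X.a) * (1 / X.a) * X.B ^ 2 * X.H) ^ (1 / X.α) * (X.B * (X.N * X.Wb)) := by
  have ha := X.ha
  have hB := X.Bpos
  have hμ := X.hμ1
  have hN := X.hN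
  have h := unpopular_weight X.hQ X.hα.le X.hH X.hIH (X.PG c) X.om ((1 / X.a) * (1 / X.a))
    (X.B ^ 2) (by positivity) (by positivity) (fun x _ => X.om_nonneg x)
    (fun x hx => X.om_le (mem_PG.1 hx).1) (fun p => p.2.2) (X.RR c) (X.zc c)
    (fun x hx => (mem_AA.1 (mem_PP.1 (mem_PG.1 hx).1).1.2).1.2)
    (fun x hx τ hτ => X.hT _ (mem_AA.1 (mem_PP.1 (mem_PG.1 hx).1).1.2).1.2 (mem_RR.1 hτ).1)
    (fun x hx => (mem_PG.1 hx).2) (X.z_hfib c) _ (fun τ _ => X.z_hF c τ)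
    (X.N * (X.B * ((1 / X.a) * X.μ1))) (by positivity)
  rw [filter_true_of_mem] at h
  · exact h
  · intro x _
    exact X.z_all c _

end Cfg

end Pool.Agent.Helper84.Kak
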