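import Pool.Agent.Helper84.KakGeo

/-!
Weights of joined pairs of lines.
-/

noncomputable section

open Finset Classical

namespace Pool.Agent.Helper84.Kak

variable {Λ C : Type*}

/-- number of lines through the cell `y` at time `i`. -/
def load (c : Λ → ℕ → C) (L : Finset Λ) (T : Λ → Finset ℕ) (i : ℕ) (y : C) : ℝ :=
  ((L.filter (fun l => i ∈ T l ∧ c l i = y)).card : ℝ)

/-- weight of a pair of lines joined at time `i`. -/
def wt (c : Λ → ℕ → C) (L : Finset Λ) (T : Λ → Finset ℕ) (i : ℕ) (l l' : Λ) : ℝ :=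
  if i ∈ T l ∧ i ∈ T l' ∧ c l i = c l' i then 1 / load c L T i (c l i) else 0

/-- pairs having given cells. -/
def prs (c : Λ → ℕ → C) (L : Finset Λ) (T : Λ → Finset ℕ) (s s' : ℕ) (y y' : C) :
    Finset (Λ × Λ) :=
  (L ×ˢ L).filter (fun p => s ∈ T p.1 ∧ s' ∈ T p.2 ∧ c p.1 s = y ∧ c p.2 s' = y')

/-- weighted multiplicity. -/
def mult (c : Λ → ℕ → C) (L : Finset Λ) (T : Λ → Finset ℕ) (t s s' : ℕ) (y y' : C) : ℝ :=
  ∑ p ∈ prs c L T s s' y y', wt c L T t p.1 p.2

/-- weight of the pairs with small multiplicity. -/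
def Gw (c : Λ → ℕ → C) (L : Finset Λ) (T : Λ → Finset ℕ) (t s s' : ℕ) (μ : ℝ) : ℝ :=
  ∑ p ∈ (L ×ˢ L).filter (fun p => s ∈ T p.1 ∧ s' ∈ T p.2 ∧
    mult c L T t s s' (c p.1 s) (c p.2 s') ≤ μ), wt c L T t p.1 p.2

variable {c : Λ → ℕ → C} {L : Finset Λ} {T : Λ → Finset ℕ}

lemma load_nonneg (i : ℕ) (y : C) : 0 ≤ load c L T i y := by unfold load; positivity

lemma wt_nonneg (i : ℕ) (l l' : Λ) : 0 ≤ wt c L T i l l' := by
  unfold wt
  split_ifs
  · have := load_nonneg (c := c) (L := L) (T := T) i (c l i)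
    positivity
  · exact le_rfl

lemma wt_comm (i : ℕ) (l l' : Λ) : wt c L T i l l' = wt c L T i l' l := by
  unfold wt
  by_cases h : i ∈ T l ∧ i ∈ T l' ∧ c l i = c l' i
  · rw [if_pos h, if_pos ⟨h.2.1, h.1, h.2.2.symm⟩, h.2.2]
  · rw [if_neg h, if_neg]
    rintro ⟨h1, h2, h3⟩
    exact h ⟨h2, h1, h3.symm⟩

lemma wt_pos_imp {i : ℕ} {l l' : Λ} (h : wt c L T i l l' ≠ 0) :
    i ∈ T l ∧ i ∈ T l' ∧ c l i = c l' i := by
  unfold wt at h
  by_contra h1
  rw [if_neg h1] at h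
  exact h rfl

lemma wt_le {a : ℝ} (ha : 0 < a) (hload : ∀ l ∈ L, ∀ i ∈ T l, a ≤ load c L T i (c l i))
    {i : ℕ} {l l' : Λ} (hl : l ∈ L) : wt c L T i l l' ≤ 1 / a := by
  unfold wt
  split_ifs with h
  · exact one_div_le_one_div_of_le ha (hload l hl i h.1)
  · positivity

lemma sum_wt {i : ℕ} {l : Λ} (hl : l ∈ L) (hi : i ∈ T l) :
    ∑ l' ∈ L, wt c L T i l l' = 1 := by
  unfold wt
  rw [← sum_filter]
  have h1 : L.filter (fun l' => i ∈ T l ∧ i ∈ T l' ∧ c l i = c l' i) =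
      L.filter (fun l' => i ∈ T l' ∧ c l' i = c l i) := by
    apply filter_congr
    intro l' _
    constructor
    · rintro ⟨_, h2, h3⟩; exact ⟨h2, h3.symm⟩
    · rintro ⟨h2, h3⟩; exact ⟨hi, h2, h3.symm⟩
  rw [h1, sum_const, nsmul_eq_mul]
  unfold load
  have h2 : 0 < (L.filter (fun l' => i ∈ T l' ∧ c l' i = c l i)).card :=
    card_pos.2 ⟨l, mem_filter.2 ⟨hl, hi, rfl⟩⟩
  field_simp

lemma sum_wt_le {i : ℕ} {l : Λ} (hl : l ∈ L) : ∑ l' ∈ L, wt c L T i l l' ≤ 1 := by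
  by_cases hi : i ∈ T l
  · rw [sum_wt hl hi]
  · have : ∀ l' ∈ L, wt c L T i l l' = 0 := by
      intro l' _
      unfold wt
      rw [if_neg]
      rintro ⟨h, _⟩
      exact hi h
    rw [sum_eq_zero this]
    norm_num

lemma sum_wt_all_le (i : ℕ) : ∑ p ∈ L ×ˢ L, wt c L T i p.1 p.2 ≤ L.card := by
  rw [sum_product]
  calc ∑ l ∈ L, ∑ l' ∈ L, wt c L T i l l' ≤ ∑ l ∈ L, (1 : ℝ) :=
        sum_le_sum (fun l hl => sum_wt_le hl)
    _ = L.card := by simp

lemma mult_nonneg (t s s' : ℕ) (y y' : C) : 0 ≤ mult c L T t s s' y y' := by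
  unfold mult
  exact sum_nonneg (fun p _ => wt_nonneg _ _ _)

lemma mult_le_card (t s s' : ℕ) (y y' : C) : mult c L T t s s' y y' ≤ L.card := by
  unfold mult
  refine le_trans (sum_le_sum_of_subset_of_nonneg (filter_subset _ _)
    (fun p _ _ => wt_nonneg _ _ _)) (sum_wt_all_le t)

/-- few pairs of cells have large multiplicity. -/
lemma card_large_mult {μ : ℝ} (hμ : 0 < μ) (t s s' : ℕ) :
    ((((L ×ˢ L).filter (fun p => s ∈ T p.1 ∧ s' ∈ T p.2 ∧
      μ < mult c L T t s s' (c p.1 s) (c p.2 s'))).image (fun p => (c p.1 s, c p.2 s'))).card : ℝ)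
      ≤ L.card / μ := by
  set A := (L ×ˢ L).filter (fun p => s ∈ T p.1 ∧ s' ∈ T p.2 ∧
      μ < mult c L T t s s' (c p.1 s) (c p.2 s')) with hA
  set PP := A.image (fun p => (c p.1 s, c p.2 s')) with hPP
  rw [le_div_iff₀ hμ]
  calc (PP.card : ℝ) * μ = ∑ yy ∈ PP, μ := by simp
    _ ≤ ∑ yy ∈ PP, mult c L T t s s' yy.1 yy.2 := by
        apply sum_le_sum
        intro yy hyy
        obtain ⟨p, hp, rfl⟩ := mem_image.1 hyy
        exact (mem_filter.1 hp).2.2.2.le
    _ = ∑ p ∈ PP.biUnion (fun yy => prs c L T s s' yy.1 yy.2), wt c L T t p.1 p.2 := by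
        rw [sum_biUnion]
        · rfl
        · intro y1 _ y2 _ h12
          simp only [Function.onFun]
          rw [disjoint_left]
          intro p h1 h2
          simp only [prs, mem_filter] at h1 h2
          apply h12
          ext1
          · rw [← h1.2.2.2.1, ← h2.2.2.2.1]
          · rw [← h1.2.2.2.2, ← h2.2.2.2.2]
    _ ≤ ∑ p ∈ L ×ˢ L, wt c L T t p.1 p.2 := by
        apply sum_le_sum_of_subset_of_nonneg
        · intro p hp
          obtain ⟨yy, _, h2⟩ := mem_biUnion.1 hp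
          exact (mem_filter.1 h2).1
        · intro p _ _; exact wt_nonneg _ _ _
    _ ≤ L.card := sum_wt_all_le t

/-- the pairs of small multiplicity have small weight. -/
lemma Gw_le {N : ℝ} {s s' t : ℕ} {μ : ℝ} (hμ : 0 ≤ μ) (hN0 : 0 ≤ N)
    (hs : ((cellsAt c L T s).card : ℝ) ≤ N) (hs' : ((cellsAt c L T s').card : ℝ) ≤ N) :
    Gw c L T t s s' μ ≤ N ^ 2 * μ := by
  unfold Gw
  set A := (L ×ˢ L).filter (fun p => s ∈ T p.1 ∧ s' ∈ T p.2 ∧
      mult c L T t s s' (c p.1 s) (c p.2 s') ≤ μ) with hA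
  have h1 : ∑ p ∈ A, wt c L T t p.1 p.2 =
      ∑ yy ∈ cellsAt c L T s ×ˢ cellsAt c L T s', ∑ p ∈ A.filter (fun p =>
        (c p.1 s, c p.2 s') = yy), wt c L T t p.1 p.2 := by
    rw [sum_fiberwise_of_maps_to]
    intro p hp
    simp only [hA, mem_filter, mem_product] at hp
    simp only [mem_product, cellsAt, mem_image, mem_filter]
    exact ⟨⟨p.1, ⟨hp.1.1, hp.2.1⟩, rfl⟩, ⟨p.2, ⟨hp.1.2, hp.2.2.1⟩, rfl⟩⟩
  rw [h1]
  calc ∑ yy ∈ cellsAt c L T s ×ˢ cellsAt c L T s', ∑ p ∈ A.filter (fun p =>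
        (c p.1 s, c p.2 s') = yy), wt c L T t p.1 p.2
      ≤ ∑ yy ∈ cellsAt c L T s ×ˢ cellsAt c L T s', μ := by
        apply sum_le_sum
        intro yy _
        rcases (A.filter (fun p => (c p.1 s, c p.2 s') = yy)).eq_empty_or_nonempty with h | ⟨p0, h0⟩
        · rw [h, sum_empty]; exact hμ
        · simp only [hA, mem_filter] at h0
          have h2 := h0.1.2.2.2
          refine le_trans ?_ h2
          unfold mult
          apply sum_le_sum_of_subset_of_nonneg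
          · intro p hp
            simp only [hA, mem_filter] at hp
            simp only [prs, mem_filter]
            have e1 : c p.1 s = c p0.1 s := by
              have := hp.2.trans h0.2.symm
              exact (Prod.ext_iff.1 this).1
            have e2 : c p.2 s' = c p0.2 s' := by
              have := hp.2.trans h0.2.symm
              exact (Prod.ext_iff.1 this).2
            exact ⟨hp.1.1, hp.1.2.1, hp.1.2.2.1, e1, e2⟩
          · intro p _ _; exact wt_nonneg _ _ _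
    _ = ((cellsAt c L T s).card : ℝ) * (cellsAt c L T s').card * μ := by
        simp [card_product, mul_comm]
    _ ≤ N ^ 2 * μ := by
        rw [sq]
        gcongr

lemma Gw_nonneg (t s s' : ℕ) (μ : ℝ) : 0 ≤ Gw c L T t s s' μ := by
  unfold Gw
  exact sum_nonneg (fun p _ => wt_nonneg _ _ _)

/-- full weight at the top level. -/
lemma Gw_top (t s s' : ℕ) : Gw c L T t s s' L.card =
    ∑ p ∈ (L ×ˢ L).filter (fun p => s ∈ T p.1 ∧ s' ∈ T p.2), wt c L T t p.1 p.2 := by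
  unfold Gw
  apply sum_congr _ (fun _ _ => rfl)
  apply filter_congr
  intro p _
  constructor
  · rintro ⟨h1, h2, _⟩; exact ⟨h1, h2⟩
  · rintro ⟨h1, h2⟩; exact ⟨h1, h2, mult_le_card _ _ _ _ _⟩

end Pool.Agent.Helper84.Kak
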