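import Mathlib

/-!
Abstract counting lemma used in the arithmetic Kakeya argument.
-/

noncomputable section

open Finset Classical

namespace Pool.Agent.Helper84.Kak

variable {Λ C ι Z : Type*}

/-- cells at time `i` of a family of lines `L` with time sets `T`. -/
def cellsAt (c : Λ → ℕ → C) (L : Finset Λ) (T : Λ → Finset ℕ) (i : ℕ) : Finset C :=
  (L.filter (fun l => i ∈ T l)).image (fun l => c l i)

/-- average number of cells per time. -/
def avg (c : Λ → ℕ → C) (Q : ℕ) (L : Finset Λ) (T : Λ → Finset ℕ) : ℝ :=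
  (∑ i ∈ range Q, ((cellsAt c L T i).card : ℝ)) / Q

/-- the induction hypothesis with explicit constants, for subfamilies of `L0`. -/
def IHc (c : Λ → ℕ → C) (Q : ℕ) (L0 : Finset Λ) (κ α H : ℝ) : Prop :=
  ∀ L : Finset Λ, L ⊆ L0 → ∀ T : Λ → Finset ℕ,
    (∀ l ∈ L, T l ⊆ range Q ∧ κ * Q ≤ ((T l).card : ℝ)) →
      (L.card : ℝ) ≤ H * (avg c Q L T) ^ α

/-- fibre average of the structure family `X`. -/
def fib (c : Λ → ℕ → C) (Q : ℕ) (X : Finset ι) (l : ι → Λ) (S : ι → Finset ℕ) (z : ι → Z)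
    (z0 : Z) : ℝ :=
  (∑ i ∈ range Q, (((X.filter (fun x => z x = z0 ∧ i ∈ S x)).image
    (fun x => c (l x) i)).card : ℝ)) / Q

lemma fib_nonneg (c : Λ → ℕ → C) (Q : ℕ) (X : Finset ι) (l : ι → Λ) (S : ι → Finset ℕ)
    (z : ι → Z) (z0 : Z) : 0 ≤ fib c Q X l S z z0 := by
  unfold fib; positivity

lemma avg_nonneg (c : Λ → ℕ → C) (Q : ℕ) (L : Finset Λ) (T : Λ → Finset ℕ) :
    0 ≤ avg c Q L T := by
  unfold avg; positivity

/-- Lemma Z, first part. -/
lemma weight_fib_le {c : Λ → ℕ → C} {Q : ℕ} {L0 : Finset Λ} {κ α H : ℝ}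
    (hα : 0 ≤ α) (hH : 0 ≤ H) (hIH : IHc c Q L0 κ α H)
    (X : Finset ι) (w : ι → ℝ) (b B : ℝ) (hb : 0 ≤ b) (hB : 0 ≤ B)
    (hw : ∀ x ∈ X, w x ≤ b)
    (l : ι → Λ) (S : ι → Finset ℕ) (z : ι → Z)
    (hl : ∀ x ∈ X, l x ∈ L0) (hS : ∀ x ∈ X, S x ⊆ range Q)
    (hκ : ∀ x ∈ X, κ * Q ≤ ((S x).card : ℝ))
    (hfib : ∀ z0 l0, ((X.filter (fun x => z x = z0 ∧ l x = l0)).card : ℝ) ≤ B)
    (z0 : Z) :
    ∑ x ∈ X.filter (fun x => z x = z0), w x ≤ b * B * H * (fib c Q X l S z z0) ^ α := by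
  set X0 := X.filter (fun x => z x = z0) with hX0
  set L1 := X0.image l with hL1
  rcases X0.eq_empty_or_nonempty with hemp | ⟨x00, _⟩
  · rw [hemp, sum_empty]
    have := fib_nonneg c Q X l S z z0
    positivity
  have : Nonempty ι := ⟨x00⟩
  -- choose representative
  have hrep : ∀ l1 ∈ L1, ∃ x ∈ X0, l x = l1 := by
    intro l1 h1
    simpa [hL1] using h1
  choose! r hr1 hr2 using hrep
  have h1 : (L1.card : ℝ) ≤ H * (avg c Q L1 (fun l1 => S (r l1))) ^ α := by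
    apply hIH L1
    · intro l1 h1
      have hx := hr1 l1 h1
      rw [← hr2 l1 h1]
      exact hl _ (mem_filter.1 hx).1
    · intro l1 h1
      have hx := hr1 l1 h1
      exact ⟨hS _ (mem_filter.1 hx).1, hκ _ (mem_filter.1 hx).1⟩
  have h2 : avg c Q L1 (fun l1 => S (r l1)) ≤ fib c Q X l S z z0 := by
    unfold avg fib
    apply div_le_div_of_nonneg_right _ (by positivity)
    apply sum_le_sum
    intro i _
    norm_cast
    apply card_le_card
    intro y hy
    simp only [cellsAt, mem_image, mem_filter] at hy ⊢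
    obtain ⟨l1, ⟨h1, h1'⟩, rfl⟩ := hy
    refine ⟨r l1, ?_, ?_⟩
    · have hx := hr1 l1 h1
      simp only [hX0, mem_filter] at hx
      exact ⟨hx.1, hx.2, h1'⟩
    · rw [hr2 l1 h1]
  have h3 : (X0.card : ℝ) ≤ B * L1.card := by
    have h4 : X0.card = ∑ l1 ∈ L1, (X0.filter (fun x => l x = l1)).card := by
      apply card_eq_sum_card_fiberwise
      intro x hx
      exact mem_coe.2 (mem_image_of_mem l hx)
    rw [h4]
    push_cast
    calc ∑ l1 ∈ L1, ((X0.filter (fun x => l x = l1)).card : ℝ) ≤ ∑ l1 ∈ L1, B := by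
          apply sum_le_sum
          intro l1 _
          have := hfib z0 l1
          rw [hX0, filter_filter]
          exact this
      _ = B * L1.card := by simp [mul_comm]
  calc ∑ x ∈ X0, w x ≤ ∑ x ∈ X0, b := by
        apply sum_le_sum
        intro x hx
        exact hw x (mem_filter.1 hx).1
    _ = b * X0.card := by simp [mul_comm]
    _ ≤ b * (B * L1.card) := by gcongr
    _ ≤ b * (B * (H * (avg c Q L1 (fun l1 => S (r l1))) ^ α)) := by gcongr
    _ ≤ b * (B * (H * (fib c Q X l S z z0) ^ α)) := by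
        have := Real.rpow_le_rpow (avg_nonneg _ _ _ _) h2 hα
        gcongr
    _ = _ := by ring

/-- Lemma Z, second part. -/
lemma sum_fib_le {c : Λ → ℕ → C} {Q : ℕ} (hQ : 0 < Q)
    (X : Finset ι) (l : ι → Λ) (S : ι → Finset ℕ) (z : ι → Z) (F : ℝ)
    (hF : ∀ i ∈ range Q, (((X.filter (fun x => i ∈ S x)).image
      (fun x => (z x, c (l x) i))).card : ℝ) ≤ F) :
    ∑ z0 ∈ X.image z, fib c Q X l S z z0 ≤ F := by
  unfold fib
  rw [← sum_div, div_le_iff₀ (by positivity), sum_comm]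
  calc ∑ i ∈ range Q, ∑ z0 ∈ X.image z,
        (((X.filter (fun x => z x = z0 ∧ i ∈ S x)).image (fun x => c (l x) i)).card : ℝ)
      ≤ ∑ i ∈ range Q, F := by
        apply sum_le_sum
        intro i hi
        refine le_trans ?_ (hF i hi)
        set P := (X.filter (fun x => i ∈ S x)).image (fun x => (z x, c (l x) i)) with hP
        have h1 : P.card = ∑ z0 ∈ X.image z, (P.filter (fun p => p.1 = z0)).card := by
          apply card_eq_sum_card_fiberwise
          intro p hp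
          simp only [hP, coe_image, Set.mem_image, mem_coe, mem_filter] at hp
          obtain ⟨x, ⟨hx, _⟩, rfl⟩ := hp
          exact mem_coe.2 (mem_image_of_mem z hx)
        rw [h1]
        push_cast
        apply sum_le_sum
        intro z0 _
        norm_cast
        have h2 : (X.filter (fun x => z x = z0 ∧ i ∈ S x)).image (fun x => c (l x) i) ⊆
            (P.filter (fun p => p.1 = z0)).image Prod.snd := by
          intro y hy
          simp only [mem_image, mem_filter] at hy ⊢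
          obtain ⟨x, ⟨hx, hxz, hxi⟩, rfl⟩ := hy
          refine ⟨(z x, c (l x) i), ⟨?_, hxz⟩, rfl⟩
          rw [hP]
          exact mem_image.2 ⟨x, mem_filter.2 ⟨hx, hxi⟩, rfl⟩
        exact le_trans (card_le_card h2) card_image_le
    _ = F * Q := by simp [mul_comm]

/-- popular values are few. -/
lemma popular_card {c : Λ → ℕ → C} {Q : ℕ} (hQ : 0 < Q) {L0 : Finset Λ} {κ α H : ℝ}
    (hα : 0 < α) (hH : 0 < H) (hIH : IHc c Q L0 κ α H)
    (X : Finset ι) (w : ι → ℝ) (b B : ℝ) (hb : 0 < b) (hB : 0 < B)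
    (hw : ∀ x ∈ X, w x ≤ b)
    (l : ι → Λ) (S : ι → Finset ℕ) (z : ι → Z)
    (hl : ∀ x ∈ X, l x ∈ L0) (hS : ∀ x ∈ X, S x ⊆ range Q)
    (hκ : ∀ x ∈ X, κ * Q ≤ ((S x).card : ℝ))
    (hfib : ∀ z0 l0, ((X.filter (fun x => z x = z0 ∧ l x = l0)).card : ℝ) ≤ B)
    (F : ℝ) (hF : ∀ i ∈ range Q, (((X.filter (fun x => i ∈ S x)).image
      (fun x => (z x, c (l x) i))).card : ℝ) ≤ F)
    (K : ℝ) (hK : 0 < K) :
    (((X.image z).filter (fun z0 => K ≤ ∑ x ∈ X.filter (fun x => z x = z0), w x)).card : ℝ)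
      ≤ F * (b * B * H / K) ^ (1 / α) := by
  set W := (X.image z).filter (fun z0 => K ≤ ∑ x ∈ X.filter (fun x => z x = z0), w x) with hW
  have hbBH : 0 < b * B * H := by positivity
  have h1 : ∀ z0 ∈ W, (K / (b * B * H)) ^ (1 / α) ≤ fib c Q X l S z z0 := by
    intro z0 hz
    have h2 : K ≤ b * B * H * (fib c Q X l S z z0) ^ α :=
      le_trans (mem_filter.1 hz).2
        (weight_fib_le hα.le hH.le hIH X w b B hb.le hB.le hw l S z hl hS hκ hfib z0)
    have h3 : K / (b * B * H) ≤ (fib c Q X l S z z0) ^ α := by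
      rw [div_le_iff₀ hbBH]; linarith
    calc (K / (b * B * H)) ^ (1 / α) ≤ ((fib c Q X l S z z0) ^ α) ^ (1 / α) :=
          Real.rpow_le_rpow (by positivity) h3 (by positivity)
      _ = fib c Q X l S z z0 := by
          rw [← Real.rpow_mul (fib_nonneg _ _ _ _ _ _ _)]
          rw [mul_one_div_cancel hα.ne', Real.rpow_one]
  have h4 : (W.card : ℝ) * (K / (b * B * H)) ^ (1 / α) ≤ F := by
    calc (W.card : ℝ) * (K / (b * B * H)) ^ (1 / α)
        = ∑ z0 ∈ W, (K / (b * B * H)) ^ (1 / α) := by simp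
      _ ≤ ∑ z0 ∈ W, fib c Q X l S z z0 := sum_le_sum h1
      _ ≤ ∑ z0 ∈ X.image z, fib c Q X l S z z0 :=
          sum_le_sum_of_subset_of_nonneg (filter_subset _ _)
            (fun _ _ _ => fib_nonneg _ _ _ _ _ _ _)
      _ ≤ F := sum_fib_le hQ X l S z F hF
  have h5 : 0 < (K / (b * B * H)) ^ (1 / α) := Real.rpow_pos_of_pos (by positivity) _
  have h6 : (b * B * H / K) ^ (1 / α) = ((K / (b * B * H)) ^ (1 / α))⁻¹ := by
    rw [← Real.inv_rpow (by positivity), inv_div]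
  rw [h6, ← div_eq_mul_inv, le_div_iff₀ h5]
  exact h4

/-- the unpopular part has small weight. -/
lemma unpopular_weight {c : Λ → ℕ → C} {Q : ℕ} (hQ : 0 < Q) {L0 : Finset Λ} {κ α H : ℝ}
    (hα : 1 ≤ α) (hH : 0 < H) (hIH : IHc c Q L0 κ α H)
    (X : Finset ι) (w : ι → ℝ) (b B : ℝ) (hb : 0 < b) (hB : 0 < B)
    (hw0 : ∀ x ∈ X, 0 ≤ w x) (hw : ∀ x ∈ X, w x ≤ b)
    (l : ι → Λ) (S : ι → Finset ℕ) (z : ι → Z)
    (hl : ∀ x ∈ X, l x ∈ L0) (hS : ∀ x ∈ X, S x ⊆ range Q)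
    (hκ : ∀ x ∈ X, κ * Q ≤ ((S x).card : ℝ))
    (hfib : ∀ z0 l0, ((X.filter (fun x => z x = z0 ∧ l x = l0)).card : ℝ) ≤ B)
    (F : ℝ) (hF : ∀ i ∈ range Q, (((X.filter (fun x => i ∈ S x)).image
      (fun x => (z x, c (l x) i))).card : ℝ) ≤ F)
    (K : ℝ) (hK : 0 ≤ K) :
    ∑ x ∈ X.filter (fun x => ∑ x' ∈ X.filter (fun x' => z x' = z x), w x' ≤ K), w x
      ≤ K ^ (1 - 1 / α) * (b * B * H) ^ (1 / α) * F := by
  have hα0 : 0 < α := by linarith
  have hbBH : 0 < b * B * H := by positivity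
  set Wt : Z → ℝ := fun z0 => ∑ x ∈ X.filter (fun x => z x = z0), w x with hWt
  have hWt0 : ∀ z0, 0 ≤ Wt z0 := fun z0 =>
    sum_nonneg (fun x hx => hw0 x (mem_filter.1 hx).1)
  set U := (X.image z).filter (fun z0 => Wt z0 ≤ K) with hU
  have h0 : ∑ x ∈ X.filter (fun x => Wt (z x) ≤ K), w x = ∑ z0 ∈ U, Wt z0 := by
    have h1 : X.filter (fun x => Wt (z x) ≤ K) = U.biUnion (fun z0 => X.filter (fun x => z x = z0)) := by
      ext x
      simp only [mem_filter, mem_biUnion, hU, mem_image]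
      constructor
      · rintro ⟨hx, hx'⟩
        exact ⟨z x, ⟨⟨x, hx, rfl⟩, hx'⟩, hx, rfl⟩
      · rintro ⟨z0, ⟨_, h2⟩, hx, hx'⟩
        subst hx'
        exact ⟨hx, h2⟩
    rw [h1, sum_biUnion]
    intro z1 _ z2 _ h12
    simp only [Function.onFun]
    rw [disjoint_left]
    intro x hx1 hx2
    exact h12 ((mem_filter.1 hx1).2.symm.trans (mem_filter.1 hx2).2)
  have h1 : ∀ z0 ∈ U, Wt z0 ≤ K ^ (1 - 1 / α) * (b * B * H) ^ (1 / α) * fib c Q X l S z z0 := by
    intro z0 hz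
    have h2 : Wt z0 ≤ b * B * H * (fib c Q X l S z z0) ^ α :=
      weight_fib_le hα0.le hH.le hIH X w b B hb.le hB.le hw l S z hl hS hκ hfib z0
    have h3 : Wt z0 ≤ K := (mem_filter.1 hz).2
    rcases (hWt0 z0).eq_or_lt with h4 | h4
    · rw [← h4]
      have := fib_nonneg c Q X l S z z0
      positivity
    have h5 : (Wt z0) ^ (1 / α) ≤ (b * B * H) ^ (1 / α) * fib c Q X l S z z0 := by
      calc (Wt z0) ^ (1 / α) ≤ (b * B * H * (fib c Q X l S z z0) ^ α) ^ (1 / α) :=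
            Real.rpow_le_rpow h4.le h2 (by positivity)
        _ = (b * B * H) ^ (1 / α) * ((fib c Q X l S z z0) ^ α) ^ (1 / α) := by
            rw [Real.mul_rpow hbBH.le (Real.rpow_nonneg (fib_nonneg _ _ _ _ _ _ _) _)]
        _ = (b * B * H) ^ (1 / α) * fib c Q X l S z z0 := by
            rw [← Real.rpow_mul (fib_nonneg _ _ _ _ _ _ _)]
            rw [mul_one_div_cancel hα0.ne', Real.rpow_one]
    have h6 : (Wt z0) ^ (1 - 1 / α) ≤ K ^ (1 - 1 / α) := by
      apply Real.rpow_le_rpow h4.le h3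
      have : 1 / α ≤ 1 := by rw [div_le_one hα0]; exact hα
      linarith
    calc Wt z0 = (Wt z0) ^ (1 - 1 / α) * (Wt z0) ^ (1 / α) := by
          rw [← Real.rpow_add h4]
          simp
      _ ≤ K ^ (1 - 1 / α) * ((b * B * H) ^ (1 / α) * fib c Q X l S z z0) := by
          apply mul_le_mul h6 h5 (by positivity) (by positivity)
      _ = _ := by ring
  change ∑ x ∈ X.filter (fun x => Wt (z x) ≤ K), w x ≤ _
  rw [h0]
  calc ∑ z0 ∈ U, Wt z0 ≤ ∑ z0 ∈ U, K ^ (1 - 1 / α) * (b * B * H) ^ (1 / α) *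
        fib c Q X l S z z0 := sum_le_sum h1
    _ = K ^ (1 - 1 / α) * (b * B * H) ^ (1 / α) * ∑ z0 ∈ U, fib c Q X l S z z0 := by
        rw [mul_sum]
    _ ≤ K ^ (1 - 1 / α) * (b * B * H) ^ (1 / α) * F := by
        have : ∑ z0 ∈ U, fib c Q X l S z z0 ≤ F :=
          le_trans (sum_le_sum_of_subset_of_nonneg (filter_subset _ _)
            (fun _ _ _ => fib_nonneg _ _ _ _ _ _ _)) (sum_fib_le hQ X l S z F hF)
        gcongr

end Pool.Agent.Helper84.Kak
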