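import Mathlib

set_option autoImplicit false

namespace Pool.Agent.Helper84

section
variable {A : Type*} [CommRing A]

/-- `h, g` is a regular pair (weak sense). -/
def Reg (h g : A) : Prop := (∀ t, h * t = 0 → t = 0) ∧ (∀ v, h ∣ g * v → h ∣ v)

lemma Reg.kos {h g : A} (H : Reg h g) {u v : A} (e : h * u + g * v = 0) :
    ∃ t, u = -(g * t) ∧ v = h * t := by
  obtain ⟨t, ht⟩ := H.2 v ⟨-u, by linear_combination e⟩
  refine ⟨t, ?_, ht⟩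
  have := H.1 (u + g * t) (by rw [ht] at e; linear_combination e)
  linear_combination this

/-- data of five elements -/
structure Five (A : Type*) where
  x : A
  y : A
  z : A
  w : A
  r : A

namespace Five
variable (D : Five A)

def g2 : A := D.w - D.y - D.x ^ 2
def g3 : A := D.z - D.x - D.y ^ 2
def ga : A := D.w - D.x ^ 2 + D.x * D.z
def gb : A := D.z - D.y ^ 2 + D.y * D.w

/-- the relations -/
structure Rels : Prop where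
  hxy : D.x * D.y = D.z * D.w
  hrx : D.r * D.x = D.r * D.w
  hry : D.r * D.y = D.r * D.z

/-- injectivity condition -/
def Inj : Prop := ∀ f g : A, (∃ p q, D.z * f + D.w * g = D.x * p + D.y * q) →
  (∃ p q, (D.x + D.r) * f + D.y * g = D.z * p + D.g2 * q) →
  (∃ p q, D.x * f + (D.y + D.r) * g = D.w * p + D.g3 * q) →
  (∃ p q, f = D.y * p + D.ga * q) ∧ (∃ p q, g = D.x * p + D.gb * q)

structure AllReg : Prop where
  r1 : Reg D.x D.y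
  r2 : Reg D.z D.g2
  r3 : Reg D.w D.g3
  ra : Reg D.y D.ga
  rb : Reg D.x D.gb
  inj : D.Inj

def d1 : (A × A × A × A × A × A × A × A) →ₗ[A] (A × A × A) where
  toFun v :=
    (D.x * v.1 + D.y * v.2.1 + D.z * v.2.2.2.2.2.2.1 + D.w * v.2.2.2.2.2.2.2,
     D.z * v.2.2.1 + D.g2 * v.2.2.2.1 + (D.x + D.r) * v.2.2.2.2.2.2.1 + D.y * v.2.2.2.2.2.2.2,
     D.w * v.2.2.2.2.1 + D.g3 * v.2.2.2.2.2.1 + D.x * v.2.2.2.2.2.2.1
       + (D.y + D.r) * v.2.2.2.2.2.2.2)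
  map_add' u v := by
    ext <;> simp <;> ring
  map_smul' c v := by
    ext <;> simp <;> ring

def d2 : (A × A × A × A × A × A × A) →ₗ[A] (A × A × A × A × A × A × A × A) where
  toFun v :=
    (-(D.y * v.1) - (D.y - D.x * D.z + D.z ^ 2) * v.2.2.2.2.1 - D.w * v.2.2.2.2.2.1,
     D.x * v.1 - D.z * v.2.2.2.1 - (D.x - D.w * D.y + D.w ^ 2) * v.2.2.2.2.2.2,
     -(D.g2 * v.2.1) - (D.w + D.r) * v.2.2.2.1 - (D.w + D.r + D.x * (D.x + D.r)) * v.2.2.2.2.1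
       - D.w * v.2.2.2.2.2.1 - (D.y + D.z * D.w ^ 2) * v.2.2.2.2.2.2,
     D.z * v.2.1 - (D.x + D.r) * v.2.2.2.2.1 - D.y ^ 2 * v.2.2.2.2.2.2,
     -(D.g3 * v.2.2.1) - D.z * v.2.2.2.1 - (D.x + D.z ^ 2 * D.w) * v.2.2.2.2.1
       - (D.z + D.r) * v.2.2.2.2.2.1 - (D.z + D.r + D.y * (D.y + D.r)) * v.2.2.2.2.2.2,
     D.w * v.2.2.1 - D.x ^ 2 * v.2.2.2.2.1 - (D.y + D.r) * v.2.2.2.2.2.2,
     D.y * v.2.2.2.1 + D.ga * v.2.2.2.2.1,
     D.x * v.2.2.2.2.2.1 + D.gb * v.2.2.2.2.2.2)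
  map_add' u v := by
    ext <;> simp <;> ring
  map_smul' c v := by
    ext <;> simp <;> ring

def d3 : (A × A) →ₗ[A] (A × A × A × A × A × A × A) where
  toFun v :=
    ((-D.y + D.x * D.z - D.z ^ 2) * v.1 + (D.x - D.w * D.y + D.w ^ 2) * v.2,
     (D.w + D.r) * v.1 + (D.y * D.w) * v.2,
     (D.x * D.z) * v.1 + (D.z + D.r) * v.2,
     -(D.ga * v.1), D.y * v.1, -(D.gb * v.2), D.x * v.2)
  map_add' u v := by
    ext <;> simp <;> ring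
  map_smul' c v := by
    ext <;> simp <;> ring

variable {D}

lemma d1_d2 (h : D.Rels) (v) : D.d1 (D.d2 v) = 0 := by
  obtain ⟨hxy, hrx, hry⟩ := h
  obtain ⟨k1, k2, k3, s, s', t, t'⟩ := v
  simp only [d1, d2, LinearMap.coe_mk, AddHom.coe_mk, Prod.mk_eq_zero, ga, gb, g2, g3]
  refine ⟨?_, ?_, ?_⟩
  · grind
  · grind
  · grind

lemma d2_d3 (h : D.Rels) (v) : D.d2 (D.d3 v) = 0 := by
  obtain ⟨hxy, hrx, hry⟩ := h
  obtain ⟨s, t⟩ := v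
  simp only [d2, d3, LinearMap.coe_mk, AddHom.coe_mk, Prod.mk_eq_zero, ga, gb, g2, g3]
  refine ⟨?_, ?_, ?_, ?_, ?_, ?_, ?_, ?_⟩ <;> grind

lemma d3_inj (H : D.AllReg) (v) (hv : D.d3 v = 0) : v = 0 := by
  obtain ⟨s, t⟩ := v
  simp only [d3, LinearMap.coe_mk, AddHom.coe_mk, Prod.mk_eq_zero] at hv ⊢
  obtain ⟨-, -, -, -, h1, -, h2⟩ := hv
  exact ⟨H.ra.1 _ h1, H.rb.1 _ h2⟩

lemma exact2 (h : D.Rels) (H : D.AllReg) (v) (hv : D.d2 v = 0) : ∃ u, D.d3 u = v := by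
  obtain ⟨k1, k2, k3, s, s', t, t'⟩ := v
  have hv' := hv
  simp only [d2, LinearMap.coe_mk, AddHom.coe_mk, Prod.mk_eq_zero] at hv
  obtain ⟨e1, e2, e3, e4, e5, e6, e7, e8⟩ := hv
  obtain ⟨τ, hs, hs'⟩ := H.ra.kos e7
  obtain ⟨τ', ht, ht'⟩ := H.rb.kos e8
  refine ⟨(τ, τ'), ?_⟩
  have key := D.d2.map_sub (k1, k2, k3, s, s', t, t') (D.d3 (τ, τ'))
  rw [hv', d2_d3 h, sub_zero] at key
  have hd : (k1, k2, k3, s, s', t, t') - D.d3 (τ, τ') =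
      (k1 - (D.d3 (τ, τ')).1, k2 - (D.d3 (τ, τ')).2.1, k3 - (D.d3 (τ, τ')).2.2.1, 0, 0, 0, 0) := by
    simp only [d3, LinearMap.coe_mk, AddHom.coe_mk, Prod.mk_sub_mk, hs, hs', ht, ht', sub_self]
    rfl
  rw [hd] at key
  simp only [d2, LinearMap.coe_mk, AddHom.coe_mk, Prod.mk_eq_zero, mul_zero, sub_zero, add_zero]
    at key
  obtain ⟨-, f2, -, f4, -, f6, -, -⟩ := key
  have g1 := H.rb.1 _ f2
  have g2 := H.r2.1 _ f4
  have g3 := H.r3.1 _ f6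
  rw [sub_eq_zero] at g1 g2 g3
  symm
  rw [← sub_eq_zero, hd, g1, g2, g3]
  simp

lemma exact1 (h : D.Rels) (H : D.AllReg) (v) (hv : D.d1 v = 0) : ∃ u, D.d2 u = v := by
  obtain ⟨q1, q1', q2, q2', q3, q3', pa, pb⟩ := v
  have hv' := hv
  simp only [d1, LinearMap.coe_mk, AddHom.coe_mk, Prod.mk_eq_zero] at hv
  obtain ⟨e1, e2, e3⟩ := hv
  obtain ⟨⟨s, s', hs⟩, ⟨t, t', ht⟩⟩ := H.inj pa pb ⟨-q1, -q1', by linear_combination e1⟩
    ⟨-q2, -q2', by linear_combination e2⟩ ⟨-q3, -q3', by linear_combination e3⟩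
  have key := D.d1.map_sub (q1, q1', q2, q2', q3, q3', pa, pb) (D.d2 (0, 0, 0, s, s', t, t'))
  rw [hv', d1_d2 h, sub_zero] at key
  set U := D.d2 (0, 0, 0, s, s', t, t') with hU
  have hd : (q1, q1', q2, q2', q3, q3', pa, pb) - U =
      (q1 - U.1, q1' - U.2.1, q2 - U.2.2.1, q2' - U.2.2.2.1, q3 - U.2.2.2.2.1,
        q3' - U.2.2.2.2.2.1, 0, 0) := by
    have h1 : U.2.2.2.2.2.2.1 = pa := by
      rw [hU, hs]; simp [d2]
    have h2 : U.2.2.2.2.2.2.2 = pb := by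
      rw [hU, ht]; simp [d2]
    ext <;> simp [h1, h2]
  rw [hd] at key
  simp only [d1, LinearMap.coe_mk, AddHom.coe_mk, Prod.mk_eq_zero, mul_zero, add_zero]
    at key
  obtain ⟨f1, f2, f3⟩ := key
  obtain ⟨κ1, a1, b1⟩ := H.r1.kos f1
  obtain ⟨κ2, a2, b2⟩ := H.r2.kos f2
  obtain ⟨κ3, a3, b3⟩ := H.r3.kos f3
  refine ⟨(κ1, κ2, κ3, 0, 0, 0, 0) + (0, 0, 0, s, s', t, t'), ?_⟩
  rw [map_add, ← hU]
  refine (sub_eq_iff_eq_add.mp ?_).symm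
  rw [hd, a1, b1, a2, b2, a3, b3]
  simp [d2]

end Five
end
end Pool.Agent.Helper84
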