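import Mathlib

set_option autoImplicit false

namespace Pool.Agent.Helper84

/-- Rank two algebra `O[x]/(x^2 - s x + z w)`. -/
@[ext] structure SA {O : Type} (s z w : O) where
  a : O
  b : O

/-- Rank three algebra with basis `1, x, r` where `r x = w r`, `r^2 = (s - w - z) r`,
`x^2 = s x - w r - z w`. -/
@[ext] structure RA {O : Type} (s z w : O) where
  a : O
  b : O
  c : O

section
variable {O : Type} [CommRing O] {s z w : O}

namespace SA
instance : Zero (SA s z w) := ⟨⟨0, 0⟩⟩
instance : One (SA s z w) := ⟨⟨1, 0⟩⟩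
instance : Add (SA s z w) := ⟨fun f g => ⟨f.a + g.a, f.b + g.b⟩⟩
instance : Neg (SA s z w) := ⟨fun f => ⟨-f.a, -f.b⟩⟩
instance : Mul (SA s z w) :=
  ⟨fun f g => ⟨f.a * g.a - z * w * (f.b * g.b), f.a * g.b + g.a * f.b + s * (f.b * g.b)⟩⟩

@[simp] lemma zero_a : (0 : SA s z w).a = 0 := rfl
@[simp] lemma zero_b : (0 : SA s z w).b = 0 := rfl
@[simp] lemma one_a : (1 : SA s z w).a = 1 := rfl
@[simp] lemma one_b : (1 : SA s z w).b = 0 := rfl
@[simp] lemma add_a (f g : SA s z w) : (f + g).a = f.a + g.a := rfl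
@[simp] lemma add_b (f g : SA s z w) : (f + g).b = f.b + g.b := rfl
@[simp] lemma neg_a (f : SA s z w) : (-f).a = -f.a := rfl
@[simp] lemma neg_b (f : SA s z w) : (-f).b = -f.b := rfl
@[simp] lemma mul_a (f g : SA s z w) : (f * g).a = f.a * g.a - z * w * (f.b * g.b) := rfl
@[simp] lemma mul_b (f g : SA s z w) :
    (f * g).b = f.a * g.b + g.a * f.b + s * (f.b * g.b) := rfl

instance : CommRing (SA s z w) where
  add_assoc f g h := by ext <;> simp <;> ring
  zero_add f := by ext <;> simp
  add_zero f := by ext <;> simp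
  nsmul := nsmulRec
  zsmul := zsmulRec
  neg_add_cancel f := by ext <;> simp
  add_comm f g := by ext <;> simp <;> ring
  mul_assoc f g h := by ext <;> simp <;> ring
  one_mul f := by ext <;> simp
  mul_one f := by ext <;> simp
  mul_comm f g := by ext <;> simp <;> ring
  left_distrib f g h := by ext <;> simp <;> ring
  right_distrib f g h := by ext <;> simp <;> ring
  zero_mul f := by ext <;> simp
  mul_zero f := by ext <;> simp

@[simp] lemma sub_a (f g : SA s z w) : (f - g).a = f.a - g.a := by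
  rw [sub_eq_add_neg, add_a, neg_a, ← sub_eq_add_neg]
@[simp] lemma sub_b (f g : SA s z w) : (f - g).b = f.b - g.b := by
  rw [sub_eq_add_neg, add_b, neg_b, ← sub_eq_add_neg]

/-- structure map -/
def ι : O →+* SA s z w where
  toFun a := ⟨a, 0⟩
  map_one' := rfl
  map_mul' a b := by ext <;> simp
  map_zero' := rfl
  map_add' a b := by ext <;> simp

@[simp] lemma ι_a (f : O) : (ι f : SA s z w).a = f := rfl
@[simp] lemma ι_b (f : O) : (ι f : SA s z w).b = 0 := rfl

instance : Algebra O (SA s z w) := ι.toAlgebra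

end SA

namespace RA
instance : Zero (RA s z w) := ⟨⟨0, 0, 0⟩⟩
instance : One (RA s z w) := ⟨⟨1, 0, 0⟩⟩
instance : Add (RA s z w) := ⟨fun f g => ⟨f.a + g.a, f.b + g.b, f.c + g.c⟩⟩
instance : Neg (RA s z w) := ⟨fun f => ⟨-f.a, -f.b, -f.c⟩⟩
instance : Mul (RA s z w) :=
  ⟨fun f g => ⟨f.a * g.a - z * w * (f.b * g.b), f.a * g.b + g.a * f.b + s * (f.b * g.b),
    f.a * g.c + g.a * f.c - w * (f.b * g.b) + w * (f.b * g.c + g.b * f.c)
      + (s - w - z) * (f.c * g.c)⟩⟩

@[simp] lemma zero_a : (0 : RA s z w).a = 0 := rfl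
@[simp] lemma zero_b : (0 : RA s z w).b = 0 := rfl
@[simp] lemma zero_c : (0 : RA s z w).c = 0 := rfl
@[simp] lemma one_a : (1 : RA s z w).a = 1 := rfl
@[simp] lemma one_b : (1 : RA s z w).b = 0 := rfl
@[simp] lemma one_c : (1 : RA s z w).c = 0 := rfl
@[simp] lemma add_a (f g : RA s z w) : (f + g).a = f.a + g.a := rfl
@[simp] lemma add_b (f g : RA s z w) : (f + g).b = f.b + g.b := rfl
@[simp] lemma add_c (f g : RA s z w) : (f + g).c = f.c + g.c := rfl
@[simp] lemma neg_a (f : RA s z w) : (-f).a = -f.a := rfl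
@[simp] lemma neg_b (f : RA s z w) : (-f).b = -f.b := rfl
@[simp] lemma neg_c (f : RA s z w) : (-f).c = -f.c := rfl
@[simp] lemma mul_a (f g : RA s z w) : (f * g).a = f.a * g.a - z * w * (f.b * g.b) := rfl
@[simp] lemma mul_b (f g : RA s z w) :
    (f * g).b = f.a * g.b + g.a * f.b + s * (f.b * g.b) := rfl
@[simp] lemma mul_c (f g : RA s z w) :
    (f * g).c = f.a * g.c + g.a * f.c - w * (f.b * g.b) + w * (f.b * g.c + g.b * f.c)
      + (s - w - z) * (f.c * g.c) := rfl

instance : CommRing (RA s z w) where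
  add_assoc f g h := by ext <;> simp <;> ring
  zero_add f := by ext <;> simp
  add_zero f := by ext <;> simp
  nsmul := nsmulRec
  zsmul := zsmulRec
  neg_add_cancel f := by ext <;> simp
  add_comm f g := by ext <;> simp <;> ring
  mul_assoc f g h := by ext <;> simp <;> ring
  one_mul f := by ext <;> simp
  mul_one f := by ext <;> simp
  mul_comm f g := by ext <;> simp <;> ring
  left_distrib f g h := by ext <;> simp <;> ring
  right_distrib f g h := by ext <;> simp <;> ring
  zero_mul f := by ext <;> simp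
  mul_zero f := by ext <;> simp

@[simp] lemma sub_a (f g : RA s z w) : (f - g).a = f.a - g.a := by
  rw [sub_eq_add_neg, add_a, neg_a, ← sub_eq_add_neg]
@[simp] lemma sub_b (f g : RA s z w) : (f - g).b = f.b - g.b := by
  rw [sub_eq_add_neg, add_b, neg_b, ← sub_eq_add_neg]
@[simp] lemma sub_c (f g : RA s z w) : (f - g).c = f.c - g.c := by
  rw [sub_eq_add_neg, add_c, neg_c, ← sub_eq_add_neg]

/-- structure map -/
def ι : O →+* RA s z w where
  toFun a := ⟨a, 0, 0⟩
  map_one' := rfl
  map_mul' a b := by ext <;> simp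
  map_zero' := rfl
  map_add' a b := by ext <;> simp

@[simp] lemma ι_a (f : O) : (ι f : RA s z w).a = f := rfl
@[simp] lemma ι_b (f : O) : (ι f : RA s z w).b = 0 := rfl
@[simp] lemma ι_c (f : O) : (ι f : RA s z w).c = 0 := rfl

instance : Algebra O (RA s z w) := ι.toAlgebra

/-- the quotient map killing `r` -/
def π : RA s z w →+* SA s z w where
  toFun f := ⟨f.a, f.b⟩
  map_one' := rfl
  map_mul' a b := by ext <;> simp
  map_zero' := rfl
  map_add' a b := by ext <;> simp

@[simp] lemma π_a (f : RA s z w) : (π f).a = f.a := rfl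
@[simp] lemma π_b (f : RA s z w) : (π f).b = f.b := rfl

/-- the map `x ↦ w`, `r ↦ s - w - z` -/
def ev : RA s z w →+* O where
  toFun f := f.a + f.b * w + f.c * (s - w - z)
  map_one' := by simp
  map_mul' a b := by simp; ring
  map_zero' := by simp
  map_add' a b := by simp; ring

lemma ev_apply (f : RA s z w) : ev f = f.a + f.b * w + f.c * (s - w - z) := rfl

end RA
end

end Pool.Agent.Helper84
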