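import Mathlib
import Pool.Agent.Helper84.TorRing
import Pool.Agent.Helper84.TorCone

set_option autoImplicit false

namespace Pool.Agent.Helper84

/-- properties of the base ring -/
structure Good {O : Type} [CommRing O] (s z w : O) : Prop where
  dom : IsDomain O
  hz : Prime z
  hw : Prime w
  hρ : Prime (s - w - z)
  zs : ¬ z ∣ s
  zw : ¬ z ∣ w
  zws : ¬ z ∣ w - s
  zwss : ¬ z ∣ w - s ^ 2
  ws : ¬ w ∣ s
  wz : ¬ w ∣ z
  wzs : ¬ w ∣ z - s
  wzss : ¬ w ∣ z - s ^ 2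
  ρz : ¬ (s - w - z) ∣ z
  ρw : ¬ (s - w - z) ∣ w
  u1 : IsUnit (1 - w + z)
  u2 : IsUnit (1 - z + w)
  u3 : IsUnit (1 - w)
  u4 : IsUnit (1 - z)
  p1 : (Ideal.span {z, w - s ^ 2}).IsPrime
  q1 : s ∉ Ideal.span {z, w - s ^ 2}
  p2 : (Ideal.span {w, z - s}).IsPrime
  q2 : s ∉ Ideal.span {w, z - s}
  p3 : (Ideal.span {w, s}).IsPrime
  q3 : z ∉ Ideal.span {w, s}
  p4 : (Ideal.span {z, s}).IsPrime
  q4 : w ∉ Ideal.span {z, s}
  p5 : (Ideal.span {z, w - s}).IsPrime
  q5 : s ∉ Ideal.span {z, w - s}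
  p6 : (Ideal.span {w, z - s ^ 2}).IsPrime
  q6 : s ∉ Ideal.span {w, z - s ^ 2}
  p7 : (Ideal.span {z, w}).IsPrime
  q7 : s ∉ Ideal.span {z, w}

section
variable {O : Type} [CommRing O] {s z w : O}

/-- the five elements in `SA` -/
def DS (s z w : O) : Five (SA s z w) :=
  ⟨⟨0, 1⟩, ⟨s, -1⟩, ⟨z, 0⟩, ⟨w, 0⟩, 0⟩

lemma Good.zw_dvd (G : Good s z w) {a : O} (h1 : z ∣ a) (h2 : w ∣ a) : z * w ∣ a := by
  obtain ⟨b, rfl⟩ := h1
  rcases G.hw.2.2 _ _ h2 with h | h
  · exact absurd h G.wz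
  · exact mul_dvd_mul_left z h

lemma SA.x_dvd (f : SA s z w) : (DS s z w).x ∣ f ↔ z * w ∣ f.a := by
  constructor
  · rintro ⟨g, rfl⟩
    exact ⟨-g.b, by simp [DS]⟩
  · rintro ⟨c, hc⟩
    refine ⟨⟨f.b + s * c, -c⟩, ?_⟩
    ext
    · simp [DS, hc]
    · simp [DS]

lemma SA.y_dvd (f : SA s z w) : (DS s z w).y ∣ f ↔ z * w ∣ f.a + s * f.b := by
  constructor
  · rintro ⟨g, rfl⟩
    exact ⟨g.b, by simp only [DS, SA.mul_a, SA.mul_b]; ring⟩
  · rintro ⟨c, hc⟩
    refine ⟨⟨-f.b, c⟩, ?_⟩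
    ext
    · simp only [DS, SA.mul_a]; linear_combination hc
    · simp [DS]

lemma SA.z_dvd (f : SA s z w) : (DS s z w).z ∣ f ↔ z ∣ f.a ∧ z ∣ f.b := by
  constructor
  · rintro ⟨g, rfl⟩
    exact ⟨⟨g.a, by simp [DS]⟩, ⟨g.b, by simp [DS]⟩⟩
  · rintro ⟨⟨a, ha⟩, ⟨b, hb⟩⟩
    refine ⟨⟨a, b⟩, ?_⟩
    ext
    · simp [DS, ha]
    · simp [DS, hb]

lemma SA.w_dvd (f : SA s z w) : (DS s z w).w ∣ f ↔ w ∣ f.a ∧ w ∣ f.b := by
  constructor
  · rintro ⟨g, rfl⟩
    exact ⟨⟨g.a, by simp [DS]⟩, ⟨g.b, by simp [DS]⟩⟩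
  · rintro ⟨⟨a, ha⟩, ⟨b, hb⟩⟩
    refine ⟨⟨a, b⟩, ?_⟩
    ext
    · simp [DS, ha]
    · simp [DS, hb]

lemma SA.x_reg (G : Good s z w) (f : SA s z w) (h : (DS s z w).x * f = 0) : f = 0 := by
  have := G.dom
  have h1 := congrArg SA.a h
  have h2 := congrArg SA.b h
  simp only [DS, SA.mul_a, SA.mul_b, SA.zero_a, SA.zero_b] at h1 h2
  have hb : f.b = 0 := by
    have : z * w * f.b = 0 := by linear_combination -h1
    rcases mul_eq_zero.1 this with h | h
    · rcases mul_eq_zero.1 h with h | h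
      · exact absurd h G.hz.ne_zero
      · exact absurd h G.hw.ne_zero
    · exact h
  have ha : f.a = 0 := by rw [hb] at h2; linear_combination h2
  ext
  · exact ha
  · exact hb

lemma SA.y_reg (G : Good s z w) (f : SA s z w) (h : (DS s z w).y * f = 0) : f = 0 := by
  have := G.dom
  have h1 := congrArg SA.a h
  have h2 := congrArg SA.b h
  simp only [DS, SA.mul_a, SA.mul_b, SA.zero_a, SA.zero_b] at h1 h2
  have ha : f.a = 0 := by linear_combination -h2
  have hb : f.b = 0 := by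
    have : z * w * f.b = 0 := by rw [ha] at h1; linear_combination h1
    rcases mul_eq_zero.1 this with h | h
    · rcases mul_eq_zero.1 h with h | h
      · exact absurd h G.hz.ne_zero
      · exact absurd h G.hw.ne_zero
    · exact h
  ext
  · exact ha
  · exact hb

lemma SA.z_reg (G : Good s z w) (f : SA s z w) (h : (DS s z w).z * f = 0) : f = 0 := by
  have := G.dom
  have h1 := congrArg SA.a h
  have h2 := congrArg SA.b h
  simp only [DS, SA.mul_a, SA.mul_b, SA.zero_a, SA.zero_b] at h1 h2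
  ext
  · exact (mul_eq_zero.1 (by linear_combination h1 : z * f.a = 0)).resolve_left G.hz.ne_zero
  · exact (mul_eq_zero.1 (by linear_combination h2 : z * f.b = 0)).resolve_left G.hz.ne_zero

lemma SA.w_reg (G : Good s z w) (f : SA s z w) (h : (DS s z w).w * f = 0) : f = 0 := by
  have := G.dom
  have h1 := congrArg SA.a h
  have h2 := congrArg SA.b h
  simp only [DS, SA.mul_a, SA.mul_b, SA.zero_a, SA.zero_b] at h1 h2
  ext
  · exact (mul_eq_zero.1 (by linear_combination h1 : w * f.a = 0)).resolve_left G.hw.ne_zero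
  · exact (mul_eq_zero.1 (by linear_combination h2 : w * f.b = 0)).resolve_left G.hw.ne_zero

lemma prime_step {p a b c e : O} (hp : Prime p) (hc : ¬ p ∣ c) (h : p ∣ a) (he : a = c * b + p * e) :
    p ∣ b := by
  have : p ∣ c * b := by
    have h2 : c * b = a - p * e := by rw [he]; ring
    rw [h2]
    exact dvd_sub h (dvd_mul_right _ _)
  exact (hp.2.2 _ _ this).resolve_left hc

lemma SA.r1 (G : Good s z w) : Reg (DS s z w).x (DS s z w).y := by
  refine ⟨SA.x_reg G, fun v hv => ?_⟩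
  rw [SA.x_dvd] at hv ⊢
  simp only [DS, SA.mul_a] at hv
  apply G.zw_dvd
  · exact prime_step G.hz G.zs (dvd_trans (dvd_mul_right z w) hv) (e := w * v.b) (by ring)
  · exact prime_step G.hw G.ws (dvd_trans (dvd_mul_left w z) hv) (e := z * v.b) (by ring)

lemma SA.r2 (G : Good s z w) : Reg (DS s z w).z (DS s z w).g2 := by
  refine ⟨SA.z_reg G, fun v hv => ?_⟩
  rw [SA.z_dvd] at hv ⊢
  obtain ⟨h1, h2⟩ := hv
  have e1 : (DS s z w).g2.a = w - s + z * w := by simp [DS, Five.g2, pow_two]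
  have e2 : (DS s z w).g2.b = 1 - s := by simp [DS, Five.g2, pow_two]
  rw [SA.mul_a, e1, e2] at h1
  rw [SA.mul_b, e1, e2] at h2
  have ha : z ∣ v.a := prime_step G.hz G.zws h1
    (e := w * v.a - w * ((1 - s) * v.b)) (by ring)
  refine ⟨ha, ?_⟩
  obtain ⟨a', ha'⟩ := ha
  exact prime_step G.hz G.zwss h2 (e := w * v.b + a' * (1 - s)) (by rw [ha']; ring)

lemma SA.r3 (G : Good s z w) : Reg (DS s z w).w (DS s z w).g3 := by
  refine ⟨SA.w_reg G, fun v hv => ?_⟩
  rw [SA.w_dvd] at hv ⊢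
  obtain ⟨h1, h2⟩ := hv
  have e1 : (DS s z w).g3.a = z - s ^ 2 + z * w := by simp [DS, Five.g3, pow_two]; ring
  have e2 : (DS s z w).g3.b = s - 1 := by simp [DS, Five.g3, pow_two]; ring
  rw [SA.mul_a, e1, e2] at h1
  rw [SA.mul_b, e1, e2] at h2
  have ha : w ∣ v.a := prime_step G.hw G.wzss h1
    (e := z * v.a - z * ((s - 1) * v.b)) (by ring)
  refine ⟨ha, ?_⟩
  obtain ⟨a', ha'⟩ := ha
  exact prime_step G.hw G.wzs h2 (e := z * v.b + a' * (s - 1)) (by rw [ha']; ring)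

lemma ga_a : (DS s z w).ga.a = w + z * w := by simp [DS, Five.ga, pow_two]
lemma ga_b : (DS s z w).ga.b = z - s := by simp [DS, Five.ga, pow_two]; ring
lemma gb_a : (DS s z w).gb.a = z - s ^ 2 + z * w + s * w := by
  simp [DS, Five.gb, pow_two]; ring
lemma gb_b : (DS s z w).gb.b = s - w := by simp [DS, Five.gb, pow_two]; ring

lemma SA.ra (G : Good s z w) : Reg (DS s z w).y (DS s z w).ga := by
  refine ⟨SA.y_reg G, fun v hv => ?_⟩
  rw [SA.y_dvd] at hv ⊢
  rw [SA.mul_a, SA.mul_b, ga_a, ga_b] at hv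
  apply G.zw_dvd
  · exact prime_step G.hz G.zwss (dvd_trans (dvd_mul_right z w) hv)
      (e := (w + s) * (v.a + s * v.b) - w * ((z - s) * v.b)) (by ring)
  · have : ¬ w ∣ s * (z - s) := fun h => (G.hw.2.2 _ _ h).elim G.ws G.wzs
    exact prime_step G.hw this (dvd_trans (dvd_mul_left w z) hv)
      (e := (1 + z) * (v.a + s * v.b) - z * ((z - s) * v.b)) (by ring)

lemma SA.rb (G : Good s z w) : Reg (DS s z w).x (DS s z w).gb := by
  refine ⟨SA.x_reg G, fun v hv => ?_⟩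
  rw [SA.x_dvd] at hv ⊢
  rw [SA.mul_a, gb_a, gb_b] at hv
  apply G.zw_dvd
  · have : ¬ z ∣ s * (w - s) := fun h => (G.hz.2.2 _ _ h).elim G.zs G.zws
    exact prime_step G.hz this (dvd_trans (dvd_mul_right z w) hv)
      (e := (1 + w) * v.a - w * ((s - w) * v.b)) (by ring)
  · exact prime_step G.hw G.wzss (dvd_trans (dvd_mul_left w z) hv)
      (e := (z + s) * v.a - z * ((s - w) * v.b)) (by ring)

/-- x ↦ s, y ↦ 0 modulo an ideal containing z w -/
lemma evA_mul (f g : SA s z w) : (f * g).a + s * (f * g).b =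
    (f.a + s * f.b) * (g.a + s * g.b) - z * w * (f.b * g.b) := by
  simp; ring

lemma evA_add (f g : SA s z w) : (f + g).a + s * (f + g).b =
    (f.a + s * f.b) + (g.a + s * g.b) := by
  simp; ring

lemma inter_lemma (s z w : O) (h1 : (Ideal.span {z, w - s ^ 2}).IsPrime)
    (h1' : s ∉ Ideal.span {z, w - s ^ 2}) (h2 : (Ideal.span {w, z - s}).IsPrime)
    (h2' : s ∉ Ideal.span {w, z - s}) (F : O)
    (F1 : F ∈ Ideal.span {z, w - s ^ 2}) (F2 : F ∈ Ideal.span {w, z - s})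
    (F3 : F ∈ Ideal.span {w, s}) : ∃ α β, F = z * w * α + (w - s ^ 2 + s * z) * β := by
  obtain ⟨a, b, hab⟩ := Ideal.mem_span_pair.1 F3
  have hb : s * b ∈ Ideal.span {w, z - s} := by
    have : s * b = F - a * w := by rw [← hab]; ring
    rw [this]
    exact Ideal.sub_mem _ F2 (Ideal.mul_mem_left _ _ (Ideal.subset_span (by simp)))
  have hb' := (h2.mem_or_mem hb).resolve_left h2'
  obtain ⟨c, e, hce⟩ := Ideal.mem_span_pair.1 hb'
  -- F = a w + s (c w + e (z - s))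
  have hF : F = (a + s * c) * w + s * (z - s) * e := by rw [← hab, ← hce]; ring
  have h5 : s ^ 2 * (a + s * c - e) ∈ Ideal.span {z, w - s ^ 2} := by
    have : s ^ 2 * (a + s * c - e) = F - (s * e) * z - (a + s * c) * (w - s ^ 2) := by
      rw [hF]; ring
    rw [this]
    refine Ideal.sub_mem _ (Ideal.sub_mem _ F1 ?_) ?_
    · exact Ideal.mul_mem_left _ _ (Ideal.subset_span (by simp))
    · exact Ideal.mul_mem_left _ _ (Ideal.subset_span (by simp))
  have h6 := (h1.mem_or_mem h5).resolve_left (fun h => h1' (h1.mem_of_pow_mem _ h))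
  obtain ⟨γ, δ, hγ⟩ := Ideal.mem_span_pair.1 h6
  refine ⟨γ - s * δ, e + w * δ, ?_⟩
  have : a + s * c = e + γ * z + δ * (w - s ^ 2) := by linear_combination -hγ
  rw [hF, this]; ring


lemma mem1 (I : Ideal O) (a b : O) (h : a ∈ I) (e : b = a) : b ∈ I := e ▸ h

lemma SA.inj (G : Good s z w) : (DS s z w).Inj := by
  intro f g ⟨p1, q1, h1⟩ ⟨p2, q2, h2⟩ ⟨p3, q3, h3⟩
  have a1 := congrArg SA.a h1
  have b1 := congrArg SA.b h1
  have a2 := congrArg SA.a h2
  have b2 := congrArg SA.b h2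
  have a3 := congrArg SA.a h3
  have b3 := congrArg SA.b h3
  simp only [DS, Five.g2, Five.g3, pow_two, SA.add_a, SA.add_b, SA.mul_a, SA.mul_b, SA.sub_a,
    SA.sub_b, SA.zero_a, SA.zero_b] at a1 b1 a2 b2 a3 b3
  constructor
  · -- f
    have F3 : f.a + s * f.b ∈ Ideal.span {w, s} := by
      have : z * (f.a + s * f.b) ∈ Ideal.span {w, s} := by
        refine Ideal.mem_span_pair.2 ⟨-(g.a + s * g.b) + z * q1.b - z * p1.b,
          p1.a + s * p1.b, ?_⟩
        linear_combination -a1 - s * b1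
      exact (G.p3.mem_or_mem this).resolve_left G.q3
    have F1 : f.a + s * f.b ∈ Ideal.span {z, w - s ^ 2} := by
      have : s * (f.a + s * f.b) ∈ Ideal.span {z, w - s ^ 2} := by
        refine Ideal.mem_span_pair.2 ⟨(p2.a + s * p2.b) + w * (q2.a + s * q2.b)
          - w * (1 - s) * q2.b + w * f.b - w * g.b, q2.a + s * q2.b, ?_⟩
        linear_combination -a2 - s * b2
      exact (G.p1.mem_or_mem this).resolve_left G.q1
    have F2 : f.a + s * f.b ∈ Ideal.span {w, z - s} := by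
      have : s * (f.a + s * f.b) ∈ Ideal.span {w, z - s} := by
        refine Ideal.mem_span_pair.2 ⟨(p3.a + s * p3.b) + z * (q3.a + s * q3.b)
          - z * (s - 1) * q3.b + z * f.b - z * g.b, q3.a + s * q3.b, ?_⟩
        linear_combination -a3 - s * b3
      exact (G.p2.mem_or_mem this).resolve_left G.q2
    obtain ⟨α, β, hαβ⟩ := inter_lemma s z w G.p1 G.q1 G.p2 G.q2 _ F1 F2 F3
    have : (DS s z w).y ∣ f - (DS s z w).ga * ⟨β, 0⟩ := by
      rw [SA.y_dvd]
      simp only [SA.sub_a, SA.sub_b, SA.mul_a, SA.mul_b, ga_a, ga_b]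
      refine ⟨α - β, ?_⟩
      linear_combination hαβ
    obtain ⟨c, hc⟩ := this
    exact ⟨c, ⟨β, 0⟩, by linear_combination hc⟩
  · have F3 : g.a ∈ Ideal.span {z, s} := by
      have : w * g.a ∈ Ideal.span {z, s} := by
        refine Ideal.mem_span_pair.2 ⟨-w * p1.b + w * q1.b - f.a, q1.a, ?_⟩
        linear_combination -a1
      exact (G.p4.mem_or_mem this).resolve_left G.q4
    have F1 : g.a ∈ Ideal.span {w, z - s ^ 2} := by
      have : s * g.a ∈ Ideal.span {w, z - s ^ 2} := by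
        refine Ideal.mem_span_pair.2 ⟨p3.a + z * q3.a - z * (s - 1) * q3.b + z * f.b - z * g.b,
          q3.a, ?_⟩
        linear_combination -a3
      exact (G.p6.mem_or_mem this).resolve_left G.q6
    have F2 : g.a ∈ Ideal.span {z, w - s} := by
      have : s * g.a ∈ Ideal.span {z, w - s} := by
        refine Ideal.mem_span_pair.2 ⟨p2.a + w * q2.a - w * (1 - s) * q2.b + w * f.b - w * g.b,
          q2.a, ?_⟩
        linear_combination -a2
      exact (G.p5.mem_or_mem this).resolve_left G.q5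
    obtain ⟨α, β, hαβ⟩ := inter_lemma s w z G.p6 G.q6 G.p5 G.q5 _ F1 F2 F3
    have : (DS s z w).x ∣ g - (DS s z w).gb * ⟨β, 0⟩ := by
      rw [SA.x_dvd]
      simp only [SA.sub_a, SA.mul_a, gb_a, gb_b]
      refine ⟨α - β, ?_⟩
      linear_combination hαβ
    obtain ⟨c, hc⟩ := this
    exact ⟨c, ⟨β, 0⟩, by linear_combination hc⟩

theorem SA.allReg (G : Good s z w) : (DS s z w).AllReg :=
  ⟨SA.r1 G, SA.r2 G, SA.r3 G, SA.ra G, SA.rb G, SA.inj G⟩

end

end Pool.Agent.Helper84
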