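import Mathlib
import Pool.Agent.Helper84.TorRegS

set_option autoImplicit false

noncomputable section

namespace Pool.Agent.Helper84

open MvPolynomial

/-- polynomial ring in three variables -/
abbrev P3 : Type := MvPolynomial (Fin 3) ℚ

/-- the origin -/
def m0 : Ideal P3 := RingHom.ker (constantCoeff : P3 →+* ℚ)

instance m0_max : m0.IsMaximal :=
  RingHom.ker_isMaximal_of_surjective _ (fun q => ⟨C q, by simp⟩)

instance m0_prime : m0.IsPrime := m0_max.isPrime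

lemma mem_m0 (p : P3) : p ∈ m0 ↔ constantCoeff p = 0 := Iff.rfl

/-- the base ring -/
abbrev OO : Type := Localization.AtPrime m0

lemma sub_mem' (f : Fin 3 → P3) (I : Ideal P3) (h1 : ∀ i, X i - f i ∈ I) (p : P3) :
    p - (aeval f : P3 →ₐ[ℚ] P3) p ∈ I := by
  have key : (Ideal.Quotient.mkₐ ℚ I) = (Ideal.Quotient.mkₐ ℚ I).comp (aeval f : P3 →ₐ[ℚ] P3) := by
    apply MvPolynomial.algHom_ext
    intro i
    simp only [AlgHom.comp_apply, aeval_X, Ideal.Quotient.mkₐ_eq_mk]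
    rw [Ideal.Quotient.eq]
    exact h1 i
  have h3 := congrArg (fun F => F p) key
  simp only [AlgHom.comp_apply, Ideal.Quotient.mkₐ_eq_mk] at h3
  exact Ideal.Quotient.eq.1 h3

lemma ker_eq (f : Fin 3 → P3) (I : Ideal P3) (h1 : ∀ i, X i - f i ∈ I)
    (h2 : I ≤ RingHom.ker (aeval f : P3 →ₐ[ℚ] P3)) :
    RingHom.ker (aeval f : P3 →ₐ[ℚ] P3) = I := by
  refine le_antisymm ?_ h2
  intro p hp
  have h3 := sub_mem' f I h1 p
  have h4 : (aeval f : P3 →ₐ[ℚ] P3) p = 0 := hp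
  rwa [h4, sub_zero] at h3

lemma prime_of (f : Fin 3 → P3) (I : Ideal P3) (h1 : ∀ i, X i - f i ∈ I)
    (h2 : I ≤ RingHom.ker (aeval f : P3 →ₐ[ℚ] P3)) : I.IsPrime := by
  rw [← ker_eq f I h1 h2]
  exact RingHom.ker_isPrime _

lemma disj {I : Ideal P3} (h : I ≤ m0) : Disjoint (m0.primeCompl : Set P3) (I : Set P3) := by
  rw [Set.disjoint_left]
  intro a ha hb
  exact ha (h hb)

lemma map_prime {I : Ideal P3} (hI : I.IsPrime) (h : I ≤ m0) :
    (I.map (algebraMap P3 OO)).IsPrime :=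
  IsLocalization.isPrime_of_isPrime_disjoint m0.primeCompl OO I hI (disj h)

lemma mem_map {I : Ideal P3} (hI : I.IsPrime) (h : I ≤ m0) (p : P3) :
    algebraMap P3 OO p ∈ I.map (algebraMap P3 OO) ↔ p ∈ I := by
  rw [← Ideal.mem_comap]
  have := IsLocalization.under_map_of_isPrime_disjoint m0.primeCompl OO hI (disj h)
  rw [Ideal.under] at this
  rw [this]

/-- the hypothesis package for two generators -/
structure GenPair (f : Fin 3 → P3) (p q : P3) : Prop where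
  h1 : ∀ i, X i - f i ∈ Ideal.span {p, q}
  hp : (aeval f : P3 →ₐ[ℚ] P3) p = 0
  hq : (aeval f : P3 →ₐ[ℚ] P3) q = 0
  hp0 : constantCoeff p = 0
  hq0 : constantCoeff q = 0

lemma GenPair.le_ker {f : Fin 3 → P3} {p q : P3} (H : GenPair f p q) :
    Ideal.span {p, q} ≤ RingHom.ker (aeval f : P3 →ₐ[ℚ] P3) := by
  rw [Ideal.span_le]
  rintro x (rfl | rfl)
  · exact H.hp
  · exact H.hq

lemma GenPair.le_m0 {f : Fin 3 → P3} {p q : P3} (H : GenPair f p q) :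
    Ideal.span {p, q} ≤ m0 := by
  rw [Ideal.span_le]
  rintro x (rfl | rfl)
  · exact H.hp0
  · exact H.hq0

lemma GenPair.prime0 {f : Fin 3 → P3} {p q : P3} (H : GenPair f p q) :
    (Ideal.span {p, q}).IsPrime := prime_of f _ H.h1 H.le_ker

lemma GenPair.prime {f : Fin 3 → P3} {p q : P3} (H : GenPair f p q) :
    (Ideal.span {algebraMap P3 OO p, algebraMap P3 OO q}).IsPrime := by
  have := map_prime H.prime0 H.le_m0
  rwa [Ideal.map_span, Set.image_pair] at this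

lemma GenPair.not_mem {f : Fin 3 → P3} {p q : P3} (H : GenPair f p q) (g : P3) (v : Fin 3 → ℚ)
    (h1 : eval v p = 0) (h2 : eval v q = 0) (h3 : eval v g ≠ 0) :
    algebraMap P3 OO g ∉ Ideal.span {algebraMap P3 OO p, algebraMap P3 OO q} := by
  have := mem_map H.prime0 H.le_m0 g
  rw [Ideal.map_span, Set.image_pair] at this
  rw [this]
  intro hg
  obtain ⟨a, b, hab⟩ := Ideal.mem_span_pair.1 hg
  apply h3
  rw [← hab, map_add, map_mul, map_mul, h1, h2, mul_zero, mul_zero, add_zero]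

lemma alg_inj : Function.Injective (algebraMap P3 OO) :=
  IsLocalization.injective OO m0.primeCompl_le_nonZeroDivisors

lemma GenPair.prime1 {f : Fin 3 → P3} {p : P3} (H : GenPair f p 0) (hp : p ≠ 0) :
    Prime (algebraMap P3 OO p) := by
  have h := H.prime
  rw [map_zero, Ideal.span_pair_zero] at h
  rwa [Ideal.span_singleton_prime (by
    intro h0
    exact hp (alg_inj (by rw [h0, map_zero])))] at h

lemma GenPair.not_dvd {f : Fin 3 → P3} {p : P3} (H : GenPair f p 0) (g : P3) (v : Fin 3 → ℚ)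
    (h1 : eval v p = 0) (h3 : eval v g ≠ 0) :
    ¬ algebraMap P3 OO p ∣ algebraMap P3 OO g := by
  have h := H.not_mem g v h1 (map_zero _) h3
  rwa [map_zero, Ideal.span_pair_zero, Ideal.mem_span_singleton] at h

/-- s -/
def Xs : P3 := X 0
/-- z -/
def Xz : P3 := X 1
/-- w -/
def Xw : P3 := X 2

/-- s -/
def es : OO := algebraMap P3 OO Xs
/-- z -/
def ez : OO := algebraMap P3 OO Xz
/-- w -/
def ew : OO := algebraMap P3 OO Xw

lemma unit_of (p : P3) (h : constantCoeff p ≠ 0) : IsUnit (algebraMap P3 OO p) :=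
  IsLocalization.map_units OO (⟨p, h⟩ : m0.primeCompl)

lemma Pz : GenPair ![X 0, 0, X 2] Xz 0 := by
  refine ⟨?_, ?_, ?_, ?_, ?_⟩
  · intro i
    refine Ideal.mem_span_pair.2 ?_
    fin_cases i
    · exact ⟨0, 0, by simp [Xs, Xz, Xw]⟩
    · exact ⟨1, 0, by simp [Xs, Xz, Xw]⟩
    · exact ⟨0, 0, by simp [Xs, Xz, Xw]⟩
  · simp [Xs, Xz, Xw]
  · simp [Xs, Xz, Xw]
  · simp [Xs, Xz, Xw]
  · simp [Xs, Xz, Xw]

lemma Pw : GenPair ![X 0, X 1, 0] Xw 0 := by
  refine ⟨?_, ?_, ?_, ?_, ?_⟩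
  · intro i
    refine Ideal.mem_span_pair.2 ?_
    fin_cases i
    · exact ⟨0, 0, by simp [Xs, Xz, Xw]⟩
    · exact ⟨0, 0, by simp [Xs, Xz, Xw]⟩
    · exact ⟨1, 0, by simp [Xs, Xz, Xw]⟩
  · simp [Xs, Xz, Xw]
  · simp [Xs, Xz, Xw]
  · simp [Xs, Xz, Xw]
  · simp [Xs, Xz, Xw]

lemma Pρ : GenPair ![X 2 + X 1, X 1, X 2] (Xs - Xw - Xz) 0 := by
  refine ⟨?_, ?_, ?_, ?_, ?_⟩
  · intro i
    refine Ideal.mem_span_pair.2 ?_
    fin_cases i
    · exact ⟨1, 0, by simp [Xs, Xz, Xw]; ring⟩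
    · exact ⟨0, 0, by simp [Xs, Xz, Xw]⟩
    · exact ⟨0, 0, by simp [Xs, Xz, Xw]⟩
  · simp [Xs, Xz, Xw]
  · simp [Xs, Xz, Xw]
  · simp [Xs, Xz, Xw]
  · simp [Xs, Xz, Xw]

lemma Pp1 : GenPair ![X 0, 0, X 0 ^ 2] Xz (Xw - Xs ^ 2) := by
  refine ⟨?_, ?_, ?_, ?_, ?_⟩
  · intro i
    refine Ideal.mem_span_pair.2 ?_
    fin_cases i
    · exact ⟨0, 0, by simp [Xs, Xz, Xw]⟩
    · exact ⟨1, 0, by simp [Xs, Xz, Xw]⟩
    · exact ⟨0, 1, by simp [Xs, Xz, Xw]⟩
  · simp [Xs, Xz, Xw]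
  · simp [Xs, Xz, Xw]
  · simp [Xs, Xz, Xw]
  · simp [Xs, Xz, Xw]

lemma Pp2 : GenPair ![X 0, X 0, 0] Xw (Xz - Xs) := by
  refine ⟨?_, ?_, ?_, ?_, ?_⟩
  · intro i
    refine Ideal.mem_span_pair.2 ?_
    fin_cases i
    · exact ⟨0, 0, by simp [Xs, Xz, Xw]⟩
    · exact ⟨0, 1, by simp [Xs, Xz, Xw]⟩
    · exact ⟨1, 0, by simp [Xs, Xz, Xw]⟩
  · simp [Xs, Xz, Xw]
  · simp [Xs, Xz, Xw]
  · simp [Xs, Xz, Xw]
  · simp [Xs, Xz, Xw]

lemma Pp3 : GenPair ![0, X 1, 0] Xw Xs := by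
  refine ⟨?_, ?_, ?_, ?_, ?_⟩
  · intro i
    refine Ideal.mem_span_pair.2 ?_
    fin_cases i
    · exact ⟨0, 1, by simp [Xs, Xz, Xw]⟩
    · exact ⟨0, 0, by simp [Xs, Xz, Xw]⟩
    · exact ⟨1, 0, by simp [Xs, Xz, Xw]⟩
  · simp [Xs, Xz, Xw]
  · simp [Xs, Xz, Xw]
  · simp [Xs, Xz, Xw]
  · simp [Xs, Xz, Xw]

lemma Pp4 : GenPair ![0, 0, X 2] Xz Xs := by
  refine ⟨?_, ?_, ?_, ?_, ?_⟩
  · intro i
    refine Ideal.mem_span_pair.2 ?_
    fin_cases i
    · exact ⟨0, 1, by simp [Xs, Xz, Xw]⟩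
    · exact ⟨1, 0, by simp [Xs, Xz, Xw]⟩
    · exact ⟨0, 0, by simp [Xs, Xz, Xw]⟩
  · simp [Xs, Xz, Xw]
  · simp [Xs, Xz, Xw]
  · simp [Xs, Xz, Xw]
  · simp [Xs, Xz, Xw]

lemma Pp5 : GenPair ![X 0, 0, X 0] Xz (Xw - Xs) := by
  refine ⟨?_, ?_, ?_, ?_, ?_⟩
  · intro i
    refine Ideal.mem_span_pair.2 ?_
    fin_cases i
    · exact ⟨0, 0, by simp [Xs, Xz, Xw]⟩
    · exact ⟨1, 0, by simp [Xs, Xz, Xw]⟩
    · exact ⟨0, 1, by simp [Xs, Xz, Xw]⟩
  · simp [Xs, Xz, Xw]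
  · simp [Xs, Xz, Xw]
  · simp [Xs, Xz, Xw]
  · simp [Xs, Xz, Xw]

lemma Pp6 : GenPair ![X 0, X 0 ^ 2, 0] Xw (Xz - Xs ^ 2) := by
  refine ⟨?_, ?_, ?_, ?_, ?_⟩
  · intro i
    refine Ideal.mem_span_pair.2 ?_
    fin_cases i
    · exact ⟨0, 0, by simp [Xs, Xz, Xw]⟩
    · exact ⟨0, 1, by simp [Xs, Xz, Xw]⟩
    · exact ⟨1, 0, by simp [Xs, Xz, Xw]⟩
  · simp [Xs, Xz, Xw]
  · simp [Xs, Xz, Xw]
  · simp [Xs, Xz, Xw]
  · simp [Xs, Xz, Xw]

lemma Pp7 : GenPair ![X 0, 0, 0] Xz Xw := by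
  refine ⟨?_, ?_, ?_, ?_, ?_⟩
  · intro i
    refine Ideal.mem_span_pair.2 ?_
    fin_cases i
    · exact ⟨0, 0, by simp [Xs, Xz, Xw]⟩
    · exact ⟨1, 0, by simp [Xs, Xz, Xw]⟩
    · exact ⟨0, 1, by simp [Xs, Xz, Xw]⟩
  · simp [Xs, Xz, Xw]
  · simp [Xs, Xz, Xw]
  · simp [Xs, Xz, Xw]
  · simp [Xs, Xz, Xw]


lemma hrho : es - ew - ez = algebraMap P3 OO (Xs - Xw - Xz) := by
  simp only [es, ew, ez, map_sub]

theorem good : Good es ez ew where
  dom := IsLocalization.isDomain_localization m0.primeCompl_le_nonZeroDivisors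
  hz := Pz.prime1 (X_ne_zero _)
  hw := Pw.prime1 (X_ne_zero _)
  hρ := by
    rw [hrho]
    refine Pρ.prime1 ?_
    intro h
    have := congrArg (eval ![(1 : ℚ), 0, 0]) h
    simp [Xs, Xw, Xz] at this
  zs := Pz.not_dvd Xs ![1, 0, 0] (by simp [Xz]) (by simp [Xs])
  zw := Pz.not_dvd Xw ![0, 0, 1] (by simp [Xz]) (by simp [Xw])
  zws := by
    have := Pz.not_dvd (Xw - Xs) ![1, 0, 0] (by simp [Xz]) (by simp [Xs, Xw])
    simpa only [es, ew, ez, map_sub] using this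
  zwss := by
    have := Pz.not_dvd (Xw - Xs ^ 2) ![1, 0, 0] (by simp [Xz]) (by simp [Xs, Xw])
    simpa only [es, ew, ez, map_sub, map_pow] using this
  ws := Pw.not_dvd Xs ![1, 0, 0] (by simp [Xw]) (by simp [Xs])
  wz := Pw.not_dvd Xz ![0, 1, 0] (by simp [Xw]) (by simp [Xz])
  wzs := by
    have := Pw.not_dvd (Xz - Xs) ![1, 0, 0] (by simp [Xw]) (by simp [Xs, Xz])
    simpa only [es, ew, ez, map_sub] using this
  wzss := by
    have := Pw.not_dvd (Xz - Xs ^ 2) ![1, 0, 0] (by simp [Xw]) (by simp [Xs, Xz])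
    simpa only [es, ew, ez, map_sub, map_pow] using this
  ρz := by
    rw [hrho]
    exact Pρ.not_dvd Xz ![1, 1, 0] (by simp [Xs, Xw, Xz]) (by simp [Xz])
  ρw := by
    rw [hrho]
    exact Pρ.not_dvd Xw ![1, 0, 1] (by simp [Xs, Xw, Xz]) (by simp [Xw])
  u1 := by
    have := unit_of (1 - Xw + Xz) (by simp [Xw, Xz])
    simpa only [es, ew, ez, map_sub, map_add, map_one] using this
  u2 := by
    have := unit_of (1 - Xz + Xw) (by simp [Xw, Xz])
    simpa only [es, ew, ez, map_sub, map_add, map_one] using this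
  u3 := by
    have := unit_of (1 - Xw) (by simp [Xw])
    simpa only [es, ew, ez, map_sub, map_add, map_one] using this
  u4 := by
    have := unit_of (1 - Xz) (by simp [Xz])
    simpa only [es, ew, ez, map_sub, map_add, map_one] using this
  p1 := by
    have := Pp1.prime
    simpa only [es, ew, ez, map_sub, map_pow] using this
  q1 := by
    have := Pp1.not_mem Xs ![1, 0, 1] (by simp [Xz]) (by simp [Xs, Xw]) (by simp [Xs])
    simpa only [es, ew, ez, map_sub, map_pow] using this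
  p2 := by
    have := Pp2.prime
    simpa only [es, ew, ez, map_sub, map_pow] using this
  q2 := by
    have := Pp2.not_mem Xs ![1, 1, 0] (by simp [Xw]) (by simp [Xs, Xz]) (by simp [Xs])
    simpa only [es, ew, ez, map_sub, map_pow] using this
  p3 := Pp3.prime
  q3 := Pp3.not_mem Xz ![0, 1, 0] (by simp [Xw]) (by simp [Xs]) (by simp [Xz])
  p4 := Pp4.prime
  q4 := Pp4.not_mem Xw ![0, 0, 1] (by simp [Xz]) (by simp [Xs]) (by simp [Xw])
  p5 := by
    have := Pp5.prime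
    simpa only [es, ew, ez, map_sub, map_pow] using this
  q5 := by
    have := Pp5.not_mem Xs ![1, 0, 1] (by simp [Xz]) (by simp [Xs, Xw]) (by simp [Xs])
    simpa only [es, ew, ez, map_sub, map_pow] using this
  p6 := by
    have := Pp6.prime
    simpa only [es, ew, ez, map_sub, map_pow] using this
  q6 := by
    have := Pp6.not_mem Xs ![1, 1, 0] (by simp [Xw]) (by simp [Xs, Xz]) (by simp [Xs])
    simpa only [es, ew, ez, map_sub, map_pow] using this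
  p7 := Pp7.prime
  q7 := Pp7.not_mem Xs ![1, 0, 0] (by simp [Xz]) (by simp [Xw]) (by simp [Xs])

/-- the maximal ideal is generated by the three variables -/
lemma maximalIdeal_le (I : Ideal OO) (hs : es ∈ I) (hz : ez ∈ I) (hw : ew ∈ I) :
    IsLocalRing.maximalIdeal OO ≤ I := by
  rw [← Localization.AtPrime.map_eq_maximalIdeal, Ideal.map_le_iff_le_comap]
  intro p hp
  have h := sub_mem' (fun _ => 0) (I.comap (algebraMap P3 OO)) (by
    intro i
    rw [sub_zero]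
    fin_cases i
    · exact hs
    · exact hz
    · exact hw) p
  have h2 : (aeval (fun _ => 0) : P3 →ₐ[ℚ] P3) p = 0 := by
    rw [MvPolynomial.aeval_zero', (mem_m0 p).1 hp, map_zero]
  rwa [h2, sub_zero] at h

end Pool.Agent.Helper84
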