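import Mathlib

set_option autoImplicit false

namespace Pool.Agent.Helper84

section
variable {A B : Type*} [CommRing A] [CommRing B] [Algebra A B] [Algebra.IsIntegral A B]

lemma dim_le_of_integral : ringKrullDim B ≤ ringKrullDim A := by
  refine Order.krullDim_le_of_strictMono
    (fun P : PrimeSpectrum B => PrimeSpectrum.comap (algebraMap A B) P) ?_
  intro P Q h
  exact Ideal.IsIntegral.comap_lt_comap (I := P.asIdeal) (J := Q.asIdeal) h

lemma dim_ge_of_integral (hinj : Function.Injective (algebraMap A B)) :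
    ringKrullDim A ≤ ringKrullDim B := by
  refine iSup_le ?_
  intro l
  obtain ⟨Q, -, hQ, hQP⟩ := Ideal.exists_ideal_over_prime_of_isIntegral
    (RelSeries.head l).asIdeal (⊥ : Ideal B) (by
      rw [← RingHom.ker_eq_comap_bot, (RingHom.injective_iff_ker_eq_bot _).1 hinj]
      exact bot_le)
  have lo : Q.LiesOver (RelSeries.head l).asIdeal := ⟨hQP.symm⟩
  obtain ⟨L, hL, -⟩ := Ideal.exists_ltSeries_of_hasGoingUp l Q
  rw [← hL]
  exact le_iSup (fun p : LTSeries (PrimeSpectrum B) => (p.length : WithBot ℕ∞)) L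

end

section
variable {R : Type*} [CommRing R]

lemma one_le_dim_quot (I P Q : Ideal R) (hP : P.IsPrime) (hQ : Q.IsPrime) (h : I ≤ P)
    (hPQ : P < Q) : 1 ≤ ringKrullDim (R ⧸ I) := by
  rw [ringKrullDim_quotient, Order.one_le_krullDim_iff]
  exact ⟨⟨⟨P, hP⟩, h⟩, ⟨⟨Q, hQ⟩, h.trans hPQ.le⟩, hPQ⟩

lemma dim_quot_le_zero (I M : Ideal R) (h : ∀ P : Ideal R, P.IsPrime → I ≤ P → P = M) :
    ringKrullDim (R ⧸ I) ≤ 0 := by
  rw [ringKrullDim_quotient]
  have : Subsingleton (PrimeSpectrum.zeroLocus (R := R) I) := by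
    constructor
    intro P Q
    apply Subtype.ext
    apply PrimeSpectrum.ext
    rw [h _ P.1.2 P.2, h _ Q.1.2 Q.2]
  exact Order.krullDim_nonpos_of_subsingleton

lemma dim_contra_le [IsNoetherianRing R] [IsLocalRing R] {a b e : WithBot ℕ∞}
    (ha : ringKrullDim R ≤ a) (hb : 1 ≤ b) (he : e ≤ 0) (h : a + b ≤ ringKrullDim R + e) :
    False := by
  have h1 : ringKrullDim R ≠ ⊤ := ringKrullDim_ne_top
  have h2 : ringKrullDim R ≠ ⊥ := ringKrullDim_ne_bot
  generalize ringKrullDim R = c at *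
  have h3 : c + 1 ≤ c := by
    calc c + 1 ≤ a + b := add_le_add ha hb
      _ ≤ c + e := h
      _ ≤ c + 0 := add_le_add le_rfl he
      _ = c := add_zero c
  induction c using WithBot.recBotCoe with
  | bot => exact h2 rfl
  | coe c =>
    induction c using ENat.recTopCoe with
    | top => exact h1 rfl
    | coe n =>
      have h4 : ((n + 1 : ℕ) : WithBot ℕ∞) ≤ ((n : ℕ) : WithBot ℕ∞) := by
        push_cast
        exact h3
      have := Nat.cast_le.1 h4
      omega

lemma dim_contra [IsNoetherianRing R] [IsLocalRing R] {a b e : WithBot ℕ∞}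
    (ha : ringKrullDim R ≤ a) (hb : 1 ≤ b) (he : e ≤ 0) (h : a + b = ringKrullDim R + e) :
    False := dim_contra_le ha hb he h.le

end

end Pool.Agent.Helper84
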