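import Mathlib

set_option autoImplicit false

namespace Pool.Agent.Helper84

open CategoryTheory CategoryTheory.Limits CategoryTheory.MonoidalCategory

universe u
variable {R : Type u} [CommRing R]

section
variable {Y : ModuleCat.{u} R} (K : ChainComplex (ModuleCat.{u} R) ℕ)
  (ε : K.X 0 ⟶ Y) (hproj : ∀ n, Projective (K.X n))
  (hε : K.d 1 0 ≫ ε = 0)
  (ex0 : (ShortComplex.mk _ _ hε).Exact) (epi : Epi ε)
  (ex : ∀ n, K.ExactAt (n + 1))

set_option backward.defeqAttrib.useBackward true in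
set_option backward.isDefEq.respectTransparency false in
/-- projective resolution from an exact sequence -/
noncomputable def resOf : ProjectiveResolution Y where
  complex := K
  projective := hproj
  π := (ChainComplex.toSingle₀Equiv _ _).symm ⟨ε, hε⟩
  quasiIso := ⟨fun n => by
    cases n
    · rw [ChainComplex.quasiIsoAt₀_iff, ShortComplex.quasiIso_iff_of_zeros']
      · dsimp
        refine (ShortComplex.exact_and_epi_g_iff_of_iso ?_).2
          ⟨ex0, epi⟩
        exact ShortComplex.isoMk (Iso.refl _) (Iso.refl _) (Iso.refl _)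
          (by simp) (by simp)
      all_goals first | rfl | exact K.shape _ _ (by simp)
    · rw [quasiIsoAt_iff_exactAt']
      · apply ex
      · apply ChainComplex.exactAt_succ_single_obj⟩

lemma tor_isZero (X : ModuleCat.{u} R) (hX : ∀ n, ((((tensoringLeft (ModuleCat.{u} R)).obj X).mapHomologicalComplex _).obj K).ExactAt (n + 1)) (i : ℕ) (hi : 0 < i)
   (P : ProjectiveResolution Y) (hP : P.complex = K) :
    IsZero (((Tor (ModuleCat.{u} R) i).obj X).obj Y) := by
  obtain ⟨n, rfl⟩ : ∃ n, i = n + 1 := ⟨i - 1, by omega⟩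
  subst hP
  exact IsZero.of_iso ((HomologicalComplex.exactAt_iff_isZero_homology _ _).1 (hX n))
    (P.isoLeftDerivedObj ((tensoringLeft (ModuleCat.{u} R)).obj X) (n + 1))

end


section len3
variable {P0 P1 P2 P3 Y X : Type u} [AddCommGroup P0] [AddCommGroup P1] [AddCommGroup P2]
  [AddCommGroup P3] [AddCommGroup Y] [AddCommGroup X] [Module R P0] [Module R P1] [Module R P2]
  [Module R P3] [Module R Y] [Module R X]
  (d1 : P1 →ₗ[R] P0) (d2 : P2 →ₗ[R] P1) (d3 : P3 →ₗ[R] P2) (ε : P0 →ₗ[R] Y)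

lemma exact_zero_of_inj (f : P3 →ₗ[R] P2) (hf : Function.Injective f) :
    Function.Exact (0 : PUnit.{u + 1} →ₗ[R] P3) f := by
  intro v
  constructor
  · intro hv
    exact ⟨0, (hf (by rw [hv, LinearMap.zero_apply, map_zero])).symm⟩
  · rintro ⟨u, rfl⟩
    rw [LinearMap.zero_apply, map_zero]

lemma exact_zero_tensor (f : P3 →ₗ[R] P2) (hf : Function.Injective (f.lTensor X)) :
    Function.Exact ((0 : PUnit.{u + 1} →ₗ[R] P3).lTensor X) (f.lTensor X) := by
  intro v
  rw [LinearMap.lTensor_zero]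
  constructor
  · intro hv
    exact ⟨0, (hf (by rw [hv, LinearMap.zero_apply, map_zero])).symm⟩
  · rintro ⟨u, rfl⟩
    rw [LinearMap.zero_apply, map_zero]

lemma tensor_punit (v : TensorProduct R X PUnit.{u + 1}) : v = 0 := by
  induction v using TensorProduct.induction_on with
  | zero => rfl
  | tmul a b =>
    rw [Subsingleton.elim b 0, TensorProduct.tmul_zero]
  | add a b ha hb => rw [ha, hb, add_zero]

lemma exact_tensor_punit {Z : Type u} [AddCommGroup Z] [Module R Z] :
    Function.Exact ((0 : PUnit.{u + 1} →ₗ[R] PUnit.{u + 1}).lTensor X)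
      ((0 : PUnit.{u + 1} →ₗ[R] Z).lTensor X) := by
  intro v
  rw [LinearMap.lTensor_zero, LinearMap.lTensor_zero]
  exact ⟨fun _ => ⟨0, by rw [tensor_punit v, map_zero]⟩, fun _ => rfl⟩

variable (P0 P1 P2 P3) in
/-- objects -/
def PP : ℕ → ModuleCat.{u} R
  | 0 => ModuleCat.of R P0
  | 1 => ModuleCat.of R P1
  | 2 => ModuleCat.of R P2
  | 3 => ModuleCat.of R P3
  | (_ + 4) => ModuleCat.of R PUnit

/-- differentials -/
def dd : ∀ n, PP (R := R) P0 P1 P2 P3 (n + 1) ⟶ PP P0 P1 P2 P3 n
  | 0 => ModuleCat.ofHom d1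
  | 1 => ModuleCat.ofHom d2
  | 2 => ModuleCat.ofHom d3
  | (_ + 3) => 0

lemma dd_dd (h12 : d1 ∘ₗ d2 = 0) (h23 : d2 ∘ₗ d3 = 0) :
    ∀ n, dd d1 d2 d3 (n + 1) ≫ dd d1 d2 d3 n = 0
  | 0 => by
    change ModuleCat.ofHom d2 ≫ ModuleCat.ofHom d1 = 0
    rw [← ModuleCat.ofHom_comp, h12]; rfl
  | 1 => by
    change ModuleCat.ofHom d3 ≫ ModuleCat.ofHom d2 = 0
    rw [← ModuleCat.ofHom_comp, h23]; rfl
  | (_ + 2) => by
    change 0 ≫ _ = 0
    rw [zero_comp]

theorem tor_len3 [Module.Projective R P0] [Module.Projective R P1] [Module.Projective R P2]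
    [Module.Projective R P3]
    (hε : Function.Surjective ε) (e0 : Function.Exact d1 ε) (e1 : Function.Exact d2 d1)
    (e2 : Function.Exact d3 d2) (e3 : Function.Injective d3)
    (t1 : Function.Exact (d2.lTensor X) (d1.lTensor X))
    (t2 : Function.Exact (d3.lTensor X) (d2.lTensor X))
    (t3 : Function.Injective (d3.lTensor X)) (i : ℕ) (hi : 0 < i) :
    IsZero (((Tor (ModuleCat.{u} R) i).obj (ModuleCat.of R X)).obj (ModuleCat.of R Y)) := by
  have h12 : d1 ∘ₗ d2 = 0 := by
    ext v; exact e1.apply_apply_eq_zero v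
  have h23 : d2 ∘ₗ d3 = 0 := by
    ext v; exact e2.apply_apply_eq_zero v
  let K : ChainComplex (ModuleCat.{u} R) ℕ :=
    ChainComplex.of (PP P0 P1 P2 P3) (dd d1 d2 d3) (dd_dd d1 d2 d3 h12 h23)
  have hKd : ∀ n, K.d (n + 1) n = dd d1 d2 d3 n := fun n => ChainComplex.of_d _ _ _
  have hproj : ∀ n, Projective (K.X n) := by
    intro n
    change Projective (PP P0 P1 P2 P3 n)
    match n with
    | 0 => exact (IsProjective.iff_projective P0).1 inferInstance
    | 1 => exact (IsProjective.iff_projective P1).1 inferInstance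
    | 2 => exact (IsProjective.iff_projective P2).1 inferInstance
    | 3 => exact (IsProjective.iff_projective P3).1 inferInstance
    | (n + 4) => exact (IsProjective.iff_projective (PUnit : Type u)).1 inferInstance
  have hz : K.d 1 0 ≫ (ModuleCat.ofHom ε : K.X 0 ⟶ ModuleCat.of R Y) = 0 := by
    rw [hKd]
    change ModuleCat.ofHom d1 ≫ ModuleCat.ofHom ε = 0
    rw [← ModuleCat.ofHom_comp]
    have : ε ∘ₗ d1 = 0 := by ext v; exact e0.apply_apply_eq_zero v
    rw [this]; rfl
  have ex0 : (ShortComplex.mk _ _ hz).Exact := by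
    rw [ShortComplex.ShortExact.moduleCat_exact_iff_function_exact]
    have := hKd 0
    change Function.Exact (K.d (0 + 1) 0).hom ε
    rw [this]
    exact e0
  have hepi : Epi (ModuleCat.ofHom ε : K.X 0 ⟶ ModuleCat.of R Y) :=
    (ModuleCat.epi_iff_surjective _).2 hε
  have ex : ∀ n, K.ExactAt (n + 1) := by
    intro n
    rw [HomologicalComplex.exactAt_iff' _ (n + 1 + 1) (n + 1) n (by simp) (by simp),
      ShortComplex.ShortExact.moduleCat_exact_iff_function_exact]
    change Function.Exact (K.d (n + 1 + 1) (n + 1)).hom (K.d (n + 1) n).hom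
    rw [hKd, hKd]
    match n with
    | 0 => exact e1
    | 1 => exact e2
    | 2 => exact exact_zero_of_inj d3 e3
    | (n + 3) =>
      intro v
      exact ⟨fun _ => ⟨0, Subsingleton.elim (α := PUnit) _ _⟩, fun _ => rfl⟩
  refine tor_isZero K (ModuleCat.of R X) ?_ i hi (resOf K (ModuleCat.ofHom ε) hproj hz ex0 hepi ex) rfl
  intro n
  rw [HomologicalComplex.exactAt_iff' _ (n + 1 + 1) (n + 1) n (by simp) (by simp),
    ShortComplex.ShortExact.moduleCat_exact_iff_function_exact]
  change Function.Exact (ModuleCat.of R X ◁ (K.d (n + 1 + 1) (n + 1))).hom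
    (ModuleCat.of R X ◁ (K.d (n + 1) n)).hom
  rw [hKd, hKd]
  match n with
  | 0 => exact t1
  | 1 => exact t2
  | 2 => exact exact_zero_tensor d3 t3
  | (n + 3) => exact exact_tensor_punit (X := X) (Z := PP (R := R) P0 P1 P2 P3 (n + 3))

end len3

end Pool.Agent.Helper84
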