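import Mathlib
import Pool.Agent.Helper84.TorCone
import Pool.Agent.Helper84.TorVanish

set_option autoImplicit false

namespace Pool.Agent.Helper84

open CategoryTheory CategoryTheory.Limits TensorProduct

section
variable {R : Type*} [CommRing R] {A B C : Type*} [AddCommGroup A] [AddCommGroup B]
  [AddCommGroup C] [Module R A] [Module R B] [Module R C]

lemma one_tmul_eq_zero (r : R) (m : B) (h : (1 : R ⧸ Ideal.span {r}) ⊗ₜ[R] m = 0) :
    ∃ u : B, r • u = m := by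
  have h2 := congrArg (TensorProduct.quotTensorEquivQuotSMul B (Ideal.span {r})) h
  have h3 : (1 : R ⧸ Ideal.span {r}) = Ideal.Quotient.mk _ 1 := rfl
  rw [h3, TensorProduct.quotTensorEquivQuotSMul_mk_tmul, map_zero, one_smul,
    Submodule.Quotient.mk_eq_zero, Submodule.ideal_span_singleton_smul,
    Submodule.mem_smul_pointwise_iff_exists] at h2
  obtain ⟨u, -, hu⟩ := h2
  exact ⟨u, hu⟩

lemma one_tmul_smul (r : R) (u : B) : (1 : R ⧸ Ideal.span {r}) ⊗ₜ[R] (r • u) = 0 := by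
  rw [← TensorProduct.smul_tmul]
  have : r • (1 : R ⧸ Ideal.span {r}) = 0 := by
    rw [Algebra.smul_def, mul_one]
    exact Ideal.Quotient.eq_zero_iff_mem.2 (Ideal.mem_span_singleton_self r)
  rw [this, TensorProduct.zero_tmul]

lemma exists_one_tmul (r : R) (v : (R ⧸ Ideal.span {r}) ⊗[R] B) :
    ∃ b : B, v = (1 : R ⧸ Ideal.span {r}) ⊗ₜ[R] b := by
  induction v using TensorProduct.induction_on with
  | zero => exact ⟨0, by rw [TensorProduct.tmul_zero]⟩
  | tmul x b =>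
    obtain ⟨x, rfl⟩ := Ideal.Quotient.mk_surjective x
    refine ⟨x • b, ?_⟩
    rw [TensorProduct.tmul_smul, TensorProduct.smul_tmul']
    congr 1
    rw [Algebra.smul_def, mul_one]
    rfl
  | add a b ha hb =>
    obtain ⟨a', rfl⟩ := ha
    obtain ⟨b', rfl⟩ := hb
    exact ⟨a' + b', by rw [TensorProduct.tmul_add]⟩

lemma lTensor_exact_of (r : R) (f : A →ₗ[R] B) (g : B →ₗ[R] C) (hfg : ∀ a, g (f a) = 0)
    (h : ∀ b c, g b = r • c → ∃ a u, b = f a + r • u) :
    Function.Exact (f.lTensor (R ⧸ Ideal.span {r})) (g.lTensor (R ⧸ Ideal.span {r})) := by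
  intro v
  constructor
  · intro hv
    obtain ⟨b, rfl⟩ := exists_one_tmul r v
    rw [LinearMap.lTensor_tmul] at hv
    obtain ⟨c, hc⟩ := one_tmul_eq_zero r _ hv
    obtain ⟨a, u, hb⟩ := h b c hc.symm
    refine ⟨1 ⊗ₜ a, ?_⟩
    rw [LinearMap.lTensor_tmul, hb, TensorProduct.tmul_add, one_tmul_smul, add_zero]
  · rintro ⟨a, rfl⟩
    obtain ⟨a, rfl⟩ := exists_one_tmul r a
    rw [LinearMap.lTensor_tmul, LinearMap.lTensor_tmul, hfg, TensorProduct.tmul_zero]

lemma lTensor_inj_of (r : R) (g : B →ₗ[R] C)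
    (h : ∀ b c, g b = r • c → ∃ u, b = r • u) :
    Function.Injective (g.lTensor (R ⧸ Ideal.span {r})) := by
  rw [injective_iff_map_eq_zero]
  intro v hv
  obtain ⟨b, rfl⟩ := exists_one_tmul r v
  rw [LinearMap.lTensor_tmul] at hv
  obtain ⟨c, hc⟩ := one_tmul_eq_zero r _ hv
  obtain ⟨u, hb⟩ := h b c hc.symm
  rw [hb, one_tmul_smul]

end

section
universe u
variable {R S : Type u} [CommRing R] [CommRing S] (π : R →+* S) (D : Five R)

/-- image -/
def Five.map : Five S := ⟨π D.x, π D.y, π D.z, π D.w, π D.r⟩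

/-- the module -/
abbrev Five.Mod : Type u := (R × R × R) ⧸ LinearMap.range D.d1

lemma Five.map_rels (h : D.Rels) : (D.map π).Rels := by
  obtain ⟨h1, h2, h3⟩ := h
  refine ⟨?_, ?_, ?_⟩
  · simp only [Five.map, ← map_mul, h1]
  · simp only [Five.map, ← map_mul, h2]
  · simp only [Five.map, ← map_mul, h3]

theorem Five.tor_zero (h : D.Rels) (H : D.AllReg) (H' : (D.map π).AllReg)
    (hs : Function.Surjective π) (hr : π D.r = 0) (hk : ∀ f, π f = 0 → ∃ c, f = D.r * c)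
    (i : ℕ) (hi : 0 < i) :
    IsZero (((Tor (ModuleCat.{u} R) i).obj (ModuleCat.of R (R ⧸ Ideal.span {D.r}))).obj
      (ModuleCat.of R D.Mod)) := by
  have h' := D.map_rels π h
  refine tor_len3 D.d1 D.d2 D.d3 (LinearMap.range D.d1).mkQ (Submodule.mkQ_surjective _)
    ?_ ?_ ?_ ?_ ?_ ?_ ?_ i hi
  · intro v
    rw [← LinearMap.mem_ker, Submodule.ker_mkQ]; rfl
  · intro v
    exact ⟨fun hv => Five.exact1 h H v hv, by rintro ⟨u, rfl⟩; exact Five.d1_d2 h u⟩
  · intro v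
    exact ⟨fun hv => Five.exact2 h H v hv, by rintro ⟨u, rfl⟩; exact Five.d2_d3 h u⟩
  · rw [injective_iff_map_eq_zero]
    exact Five.d3_inj H
  · refine lTensor_exact_of _ _ _ (Five.d1_d2 h) ?_
    rintro ⟨b1, b2, b3, b4, b5, b6, b7, b8⟩ ⟨c1, c2, c3⟩ hb
    have : (D.map π).d1 (π b1, π b2, π b3, π b4, π b5, π b6, π b7, π b8) = 0 := by
      simp only [Five.d1, LinearMap.coe_mk, AddHom.coe_mk, Prod.smul_mk, Prod.mk.injEq,
        smul_eq_mul] at hb
      obtain ⟨e1, e2, e3⟩ := hb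
      simp only [Five.d1, LinearMap.coe_mk, AddHom.coe_mk, Prod.mk_eq_zero, Five.map, Five.g2,
        Five.g3]
      have e1 := congrArg π e1
      have e2 := congrArg π e2
      have e3 := congrArg π e3
      simp only [Five.g2, Five.g3, map_add, map_mul, map_sub, map_pow, hr, zero_mul] at e1 e2 e3
      refine ⟨?_, ?_, ?_⟩
      · exact e1
      · rw [hr]; exact e2
      · rw [hr]; exact e3
    obtain ⟨⟨u1, u2, u3, u4, u5, u6, u7⟩, hu⟩ := Five.exact1 h' H' _ this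
    obtain ⟨u1, rfl⟩ := hs u1
    obtain ⟨u2, rfl⟩ := hs u2
    obtain ⟨u3, rfl⟩ := hs u3
    obtain ⟨u4, rfl⟩ := hs u4
    obtain ⟨u5, rfl⟩ := hs u5
    obtain ⟨u6, rfl⟩ := hs u6
    obtain ⟨u7, rfl⟩ := hs u7
    simp only [Five.d2, LinearMap.coe_mk, AddHom.coe_mk, Prod.mk.injEq, Five.map, Five.g2,
        Five.g3, Five.ga, Five.gb, ← map_mul, ← map_add, ← map_sub, ← map_pow, ← map_neg] at hu
    obtain ⟨e1, e2, e3, e4, e5, e6, e7, e8⟩ := hu
    have key : ∀ a b : R, π a = π b → ∃ c, b = a + D.r * c := by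
      intro a b hab
      obtain ⟨c, hc⟩ := hk (b - a) (by rw [map_sub, hab, sub_self])
      exact ⟨c, by linear_combination hc⟩
    obtain ⟨v1, f1⟩ := key _ _ e1
    obtain ⟨v2, f2⟩ := key _ _ e2
    obtain ⟨v3, f3⟩ := key _ _ e3
    obtain ⟨v4, f4⟩ := key _ _ e4
    obtain ⟨v5, f5⟩ := key _ _ e5
    obtain ⟨v6, f6⟩ := key _ _ e6
    obtain ⟨v7, f7⟩ := key _ _ e7
    obtain ⟨v8, f8⟩ := key _ _ e8
    refine ⟨(u1, u2, u3, u4, u5, u6, u7), (v1, v2, v3, v4, v5, v6, v7, v8), ?_⟩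
    simp only [Five.d2, LinearMap.coe_mk, AddHom.coe_mk, Prod.mk.injEq, Prod.smul_mk,
      Prod.mk_add_mk, smul_eq_mul]
    exact ⟨f1, f2, f3, f4, f5, f6, f7, f8⟩
  · refine lTensor_exact_of _ _ _ (Five.d2_d3 h) ?_
    rintro ⟨b1, b2, b3, b4, b5, b6, b7⟩ ⟨c1, c2, c3, c4, c5, c6, c7, c8⟩ hb
    have : (D.map π).d2 (π b1, π b2, π b3, π b4, π b5, π b6, π b7) = 0 := by
      simp only [Five.d2, LinearMap.coe_mk, AddHom.coe_mk, Prod.smul_mk, Prod.mk.injEq,
        smul_eq_mul] at hb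
      obtain ⟨e1, e2, e3, e4, e5, e6, e7, e8⟩ := hb
      simp only [Five.d2, LinearMap.coe_mk, AddHom.coe_mk, Prod.mk_eq_zero, Five.map, Five.g2,
        Five.g3, Five.ga, Five.gb]
      have e1 := congrArg π e1
      have e2 := congrArg π e2
      have e3 := congrArg π e3
      have e4 := congrArg π e4
      have e5 := congrArg π e5
      have e6 := congrArg π e6
      have e7 := congrArg π e7
      have e8 := congrArg π e8
      simp only [Five.g2, Five.g3, Five.ga, Five.gb, map_add, map_mul, map_sub, map_pow, map_neg,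
        hr, zero_mul] at e1 e2 e3 e4 e5 e6 e7 e8
      simp only [hr]
      exact ⟨e1, e2, e3, e4, e5, e6, e7, e8⟩
    obtain ⟨⟨u1, u2⟩, hu⟩ := Five.exact2 h' H' _ this
    obtain ⟨u1, rfl⟩ := hs u1
    obtain ⟨u2, rfl⟩ := hs u2
    simp only [Five.d3, LinearMap.coe_mk, AddHom.coe_mk, Prod.mk.injEq, Five.map, Five.g2,
        Five.g3, Five.ga, Five.gb, ← map_mul, ← map_add, ← map_sub, ← map_pow, ← map_neg] at hu
    obtain ⟨e1, e2, e3, e4, e5, e6, e7⟩ := hu
    have key : ∀ a b : R, π a = π b → ∃ c, b = a + D.r * c := by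
      intro a b hab
      obtain ⟨c, hc⟩ := hk (b - a) (by rw [map_sub, hab, sub_self])
      exact ⟨c, by linear_combination hc⟩
    obtain ⟨v1, f1⟩ := key _ _ e1
    obtain ⟨v2, f2⟩ := key _ _ e2
    obtain ⟨v3, f3⟩ := key _ _ e3
    obtain ⟨v4, f4⟩ := key _ _ e4
    obtain ⟨v5, f5⟩ := key _ _ e5
    obtain ⟨v6, f6⟩ := key _ _ e6
    obtain ⟨v7, f7⟩ := key _ _ e7
    refine ⟨(u1, u2), (v1, v2, v3, v4, v5, v6, v7), ?_⟩
    simp only [Five.d3, LinearMap.coe_mk, AddHom.coe_mk, Prod.mk.injEq, Prod.smul_mk,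
      Prod.mk_add_mk, smul_eq_mul]
    exact ⟨f1, f2, f3, f4, f5, f6, f7⟩
  · refine lTensor_inj_of _ _ ?_
    rintro ⟨b1, b2⟩ ⟨c1, c2, c3, c4, c5, c6, c7⟩ hb
    have : (D.map π).d3 (π b1, π b2) = 0 := by
      simp only [Five.d3, LinearMap.coe_mk, AddHom.coe_mk, Prod.smul_mk, Prod.mk.injEq,
        smul_eq_mul] at hb
      obtain ⟨e1, e2, e3, e4, e5, e6, e7⟩ := hb
      simp only [Five.d3, LinearMap.coe_mk, AddHom.coe_mk, Prod.mk_eq_zero, Five.map, Five.g2,
        Five.g3, Five.ga, Five.gb]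
      have e1 := congrArg π e1
      have e2 := congrArg π e2
      have e3 := congrArg π e3
      have e4 := congrArg π e4
      have e5 := congrArg π e5
      have e6 := congrArg π e6
      have e7 := congrArg π e7
      simp only [Five.g2, Five.g3, Five.ga, Five.gb, map_add, map_mul, map_sub, map_pow, map_neg,
        hr, zero_mul] at e1 e2 e3 e4 e5 e6 e7
      simp only [hr]
      exact ⟨e1, e2, e3, e4, e5, e6, e7⟩
    have hu := Five.d3_inj H' _ this
    simp only [Prod.mk_eq_zero] at hu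
    obtain ⟨e1, e2⟩ := hu
    obtain ⟨v1, f1⟩ := hk _ e1
    obtain ⟨v2, f2⟩ := hk _ e2
    refine ⟨(v1, v2), ?_⟩
    simp only [Prod.mk.injEq, Prod.smul_mk, smul_eq_mul]
    exact ⟨f1, f2⟩

end

end Pool.Agent.Helper84
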