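import Mathlib
import Pool.Agent.Helper84.TorQuot

set_option autoImplicit false

namespace Pool.Agent.Helper84

section
universe u
variable {R : Type u} [CommRing R] {D : Five R}
open TensorProduct

/-- `m` is in the image of `d1` up to multiples of `r`. -/
def Five.InW (D : Five R) (m : R × R × R) : Prop := ∃ v u, m = D.d1 v + D.r • u

lemma Five.InW.add {m m' : R × R × R} (h : D.InW m) (h' : D.InW m') : D.InW (m + m') := by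
  obtain ⟨v, u, rfl⟩ := h
  obtain ⟨v', u', rfl⟩ := h'
  refine ⟨v + v', u + u', ?_⟩
  rw [map_add, smul_add]; abel

lemma Five.InW.smul {m : R × R × R} (h : D.InW m) (a : R) : D.InW (a • m) := by
  obtain ⟨v, u, rfl⟩ := h
  refine ⟨a • v, a • u, ?_⟩
  rw [map_smul, smul_add, smul_comm]

lemma Five.kill_x (h : D.Rels) (m : R × R × R) : D.InW ((D.x ^ 3) • m) := by
  obtain ⟨hxy, hrx, hry⟩ := h
  obtain ⟨a, b, c⟩ := m
  refine ⟨(D.x ^ 2 * a - D.y * b + (D.y - D.x * D.z) * c, 0, -(D.w * b) + D.w * c,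
    -(D.x * b) + D.x * c, -(D.x * b) + D.x * c, 0, D.w * b + (D.x ^ 2 - D.w) * c, 0),
    (0, -(D.w * b) - (D.x ^ 2 - D.w) * c, 0), ?_⟩
  simp only [d1, LinearMap.coe_mk, AddHom.coe_mk, g2, g3, Prod.smul_mk, smul_eq_mul,
    Prod.mk_add_mk, Prod.mk.injEq]
  refine ⟨?_, ?_, ?_⟩ <;> grind

lemma Five.kill_y (h : D.Rels) (m : R × R × R) : D.InW ((D.y ^ 3) • m) := by
  obtain ⟨hxy, hrx, hry⟩ := h
  obtain ⟨a, b, c⟩ := m
  refine ⟨(0, D.y ^ 2 * a + (D.x - D.y * D.w) * b - D.x * c, D.y * b - D.y * c, 0,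
    D.z * b - D.z * c, D.y * b - D.y * c, 0, (D.y ^ 2 - D.z) * b + D.z * c),
    (0, 0, -(D.z * c) - (D.y ^ 2 - D.z) * b), ?_⟩
  simp only [d1, LinearMap.coe_mk, AddHom.coe_mk, g2, g3, Prod.smul_mk, smul_eq_mul,
    Prod.mk_add_mk, Prod.mk.injEq]
  refine ⟨?_, ?_, ?_⟩ <;> grind

lemma Five.kill_w1 (h : D.Rels) : D.InW (D.w ^ 3, 0, 0) := by
  obtain ⟨hxy, hrx, hry⟩ := h
  refine ⟨(0, -(D.x - D.y * D.w), -(D.x * D.w ^ 2 + D.x * D.y * D.w) - D.y,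
    -(D.w * D.y + D.y ^ 2), -(D.w * (D.y + D.r)) - D.z, -D.y, 0, D.w ^ 2 - (D.y ^ 2 - D.z)),
    (0, 0, D.y ^ 2 - D.z), ?_⟩
  simp only [d1, LinearMap.coe_mk, AddHom.coe_mk, g2, g3, Prod.smul_mk, smul_eq_mul,
    Prod.mk_add_mk, Prod.mk.injEq]
  refine ⟨?_, ?_, ?_⟩ <;> grind

lemma Five.kill_w2 (h : D.Rels) : D.InW (0, D.w ^ 3, 0) := by
  have e1 := (Five.kill_x h (0, 1, 0)).smul (D.x ^ 3)
  have e2 := Five.kill_y h (0, 1, 0)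
  obtain ⟨hxy, hrx, hry⟩ := h
  have e3 : D.InW (0, D.w ^ 3 - D.y ^ 3 - D.x ^ 6, 0) := by
    refine ⟨(0, 0, D.w * (3 * D.x * D.y + 3 * D.x ^ 3),
      D.w ^ 2 + D.w * (D.y + D.x ^ 2) + (D.y + D.x ^ 2) ^ 2, 0, 0, 0, 0), (0, 0, 0), ?_⟩
    simp only [d1, LinearMap.coe_mk, AddHom.coe_mk, g2, g3, Prod.smul_mk, smul_eq_mul,
      Prod.mk_add_mk, Prod.mk.injEq]
    refine ⟨?_, ?_, ?_⟩ <;> grind
  have e4 := (e1.add e2).add e3
  simp only [Prod.smul_mk, smul_eq_mul, Prod.mk_add_mk, mul_zero, mul_one, add_zero] at e4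
  convert e4 using 3
  ring

lemma Five.kill_w3 : D.InW (0, 0, D.w ^ 3) := by
  refine ⟨(0, 0, 0, 0, D.w ^ 2, 0, 0, 0), 0, ?_⟩
  simp only [d1, LinearMap.coe_mk, AddHom.coe_mk, g2, g3, smul_zero, add_zero,
    Prod.mk.injEq]
  refine ⟨?_, ?_, ?_⟩ <;> ring

lemma Five.kill_z1 (h : D.Rels) : D.InW (D.z ^ 3, 0, 0) := by
  obtain ⟨hxy, hrx, hry⟩ := h
  refine ⟨(-(D.y - D.x * D.z), 0, -((D.x + D.r) * D.z) - D.w, -D.x,
    -(D.y * D.z ^ 2 + D.x * D.y * D.z) - D.x, -(D.z * D.x + D.x ^ 2),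
    D.z ^ 2 - (D.x ^ 2 - D.w), 0),
    (0, D.x ^ 2 - D.w, 0), ?_⟩
  simp only [d1, LinearMap.coe_mk, AddHom.coe_mk, g2, g3, Prod.smul_mk, smul_eq_mul,
    Prod.mk_add_mk, Prod.mk.injEq]
  refine ⟨?_, ?_, ?_⟩ <;> grind

lemma Five.kill_z3 (h : D.Rels) : D.InW (0, 0, D.z ^ 3) := by
  have e1 := (Five.kill_y h (0, 0, 1)).smul (D.y ^ 3)
  have e2 := Five.kill_x h (0, 0, 1)
  obtain ⟨hxy, hrx, hry⟩ := h
  have e3 : D.InW (0, 0, D.z ^ 3 - D.x ^ 3 - D.y ^ 6) := by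
    refine ⟨(0, 0, 0, 0, D.z * (3 * D.x * D.y + 3 * D.y ^ 3),
      D.z ^ 2 + D.z * (D.x + D.y ^ 2) + (D.x + D.y ^ 2) ^ 2, 0, 0), (0, 0, 0), ?_⟩
    simp only [d1, LinearMap.coe_mk, AddHom.coe_mk, g2, g3, Prod.smul_mk, smul_eq_mul,
      Prod.mk_add_mk, Prod.mk.injEq]
    refine ⟨?_, ?_, ?_⟩ <;> grind
  have e4 := (e1.add e2).add e3
  simp only [Prod.smul_mk, smul_eq_mul, Prod.mk_add_mk, mul_zero, mul_one, add_zero] at e4
  convert e4 using 3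
  ring

lemma Five.kill_z2 : D.InW (0, D.z ^ 3, 0) := by
  refine ⟨(0, 0, D.z ^ 2, 0, 0, 0, 0, 0), 0, ?_⟩
  simp only [d1, LinearMap.coe_mk, AddHom.coe_mk, g2, g3, smul_zero, add_zero,
    Prod.mk.injEq]
  refine ⟨?_, ?_, ?_⟩ <;> ring

lemma Five.inW_of_basis {f : R} (h1 : D.InW (f, 0, 0)) (h2 : D.InW (0, f, 0))
    (h3 : D.InW (0, 0, f)) (m : R × R × R) : D.InW (f • m) := by
  obtain ⟨a, b, c⟩ := m
  have := ((h1.smul a).add (h2.smul b)).add (h3.smul c)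
  simp only [Prod.smul_mk, smul_eq_mul, Prod.mk_add_mk, mul_zero, add_zero, zero_add] at this
  simpa only [Prod.smul_mk, smul_eq_mul, mul_comm] using this

lemma Five.kill_w (h : D.Rels) (m : R × R × R) : D.InW ((D.w ^ 3) • m) :=
  Five.inW_of_basis (Five.kill_w1 h) (Five.kill_w2 h) Five.kill_w3 m

lemma Five.kill_z (h : D.Rels) (m : R × R × R) : D.InW ((D.z ^ 3) • m) :=
  Five.inW_of_basis (Five.kill_z1 h) Five.kill_z2 (Five.kill_z3 h) m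

lemma Five.mem_ann_of (f : R) (hf : ∀ m : R × R × R, D.InW (f • m)) :
    f ∈ Module.annihilator R ((R ⧸ Ideal.span {D.r}) ⊗[R] D.Mod) := by
  rw [Module.mem_annihilator]
  intro t
  obtain ⟨m, rfl⟩ := exists_one_tmul D.r t
  obtain ⟨m, rfl⟩ := Submodule.mkQ_surjective _ m
  obtain ⟨v, u, hvu⟩ := hf m
  rw [← TensorProduct.tmul_smul, ← map_smul, hvu, map_add, map_smul]
  have : (LinearMap.range D.d1).mkQ (D.d1 v) = 0 := by
    rw [← LinearMap.mem_ker, Submodule.ker_mkQ]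
    exact ⟨v, rfl⟩
  rw [this, zero_add, one_tmul_smul]

lemma Five.r_mem_ann : D.r ∈ Module.annihilator R ((R ⧸ Ideal.span {D.r}) ⊗[R] D.Mod) :=
  Five.mem_ann_of _ (fun m => ⟨0, m, by rw [map_zero, zero_add]⟩)

theorem Five.mem_of_prime (h : D.Rels) (P : Ideal R) (hP : P.IsPrime)
    (hle : Module.annihilator R ((R ⧸ Ideal.span {D.r}) ⊗[R] D.Mod) ≤ P) :
    D.x ∈ P ∧ D.y ∈ P ∧ D.z ∈ P ∧ D.w ∈ P ∧ D.r ∈ P :=
  ⟨hP.mem_of_pow_mem _ (hle (Five.mem_ann_of _ (Five.kill_x h))),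
   hP.mem_of_pow_mem _ (hle (Five.mem_ann_of _ (Five.kill_y h))),
   hP.mem_of_pow_mem _ (hle (Five.mem_ann_of _ (Five.kill_z h))),
   hP.mem_of_pow_mem _ (hle (Five.mem_ann_of _ (Five.kill_w h))),
   hle Five.r_mem_ann⟩

end

end Pool.Agent.Helper84
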