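import Mathlib
import Pool.Agent.Helper84.TorRegS
import Pool.Agent.Helper84.TorQuot

set_option autoImplicit false

namespace Pool.Agent.Helper84

section
variable {O : Type} [CommRing O] {s z w : O}

/-- the five elements in `RA` -/
def DR (s z w : O) : Five (RA s z w) :=
  ⟨⟨0, 1, 0⟩, ⟨s, -1, -1⟩, ⟨z, 0, 0⟩, ⟨w, 0, 0⟩, ⟨0, 0, 1⟩⟩

lemma DR_rels : (DR s z w).Rels := by
  refine ⟨?_, ?_, ?_⟩
  · ext
    · simp [DR]
    · simp [DR]
    · simp [DR]
  · ext <;> simp [DR]
  · ext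
    · simp [DR]
    · simp [DR]
    · simp [DR]; ring

lemma DR_map : (DR s z w).map RA.π = DS s z w := by
  simp only [Five.map, DR, DS, Five.mk.injEq]
  refine ⟨?_, ?_, ?_, ?_, ?_⟩ <;> (ext <;> simp)

lemma RA.π_surj : Function.Surjective (RA.π : RA s z w →+* SA s z w) := by
  intro f
  exact ⟨⟨f.a, f.b, 0⟩, by ext <;> simp⟩

lemma RA.π_r0 : (RA.π : RA s z w →+* SA s z w) (DR s z w).r = 0 := by
  ext <;> simp [DR]

lemma RA.π_ker (f : RA s z w) (h : RA.π f = 0) : f = (DR s z w).r * RA.ι f.c := by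
  have h1 := congrArg SA.a h
  have h2 := congrArg SA.b h
  simp only [RA.π_a, RA.π_b, SA.zero_a, SA.zero_b] at h1 h2
  ext
  · simp [DR, h1]
  · simp [DR, h2]
  · simp [DR]

lemma RA.ext2 (G : Good s z w) {f g : RA s z w} (h1 : RA.π f = RA.π g)
    (h2 : RA.ev f = RA.ev g) : f = g := by
  have := G.dom
  have a1 := congrArg SA.a h1
  have a2 := congrArg SA.b h1
  simp only [RA.π_a, RA.π_b] at a1 a2
  rw [RA.ev_apply, RA.ev_apply, a1, a2] at h2
  have h3 : (s - w - z) * f.c = (s - w - z) * g.c := by linear_combination h2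
  ext
  · exact a1
  · exact a2
  · exact mul_left_cancel₀ G.hρ.ne_zero h3

lemma RA.glue (G : Good s z w) {h f : RA s z w} (hρ : ¬ (s - w - z) ∣ RA.ev h)
    (h1 : RA.π h ∣ RA.π f) (h2 : RA.ev h ∣ RA.ev f) : h ∣ f := by
  obtain ⟨g, hg⟩ := h1
  obtain ⟨e, he⟩ := h2
  have a1 := congrArg SA.a hg
  have a2 := congrArg SA.b hg
  simp only [RA.π_a, RA.π_b, SA.mul_a, SA.mul_b] at a1 a2
  have key : (s - w - z) ∣ RA.ev h * (e - (g.a + g.b * w)) := by
    rw [mul_sub, ← he]
    simp only [RA.ev_apply, a1, a2]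
    refine ⟨w * (h.b * g.b) + f.c - h.c * (g.a + g.b * w), ?_⟩
    ring
  obtain ⟨c, hc⟩ := (G.hρ.2.2 _ _ key).resolve_left hρ
  refine ⟨⟨g.a, g.b, c⟩, ?_⟩
  apply RA.ext2 G
  · rw [map_mul, hg]; congr 1
  · rw [map_mul, he]; congr 1
    rw [RA.ev_apply]
    linear_combination hc

lemma RA.reg (G : Good s z w) {h g : RA s z w} (hρ : ¬ (s - w - z) ∣ RA.ev h)
    (h1 : Reg (RA.π h) (RA.π g)) (h2 : Reg (RA.ev h) (RA.ev g)) : Reg h g := by
  constructor
  · intro t ht
    apply RA.ext2 G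
    · rw [map_zero]
      apply h1.1
      rw [← map_mul, ht, map_zero]
    · rw [map_zero]
      apply h2.1
      rw [← map_mul, ht, map_zero]
  · intro v hv
    apply RA.glue G hρ
    · apply h1.2
      rw [← map_mul]
      exact map_dvd RA.π hv
    · apply h2.2
      rw [← map_mul]
      exact map_dvd RA.ev hv

lemma reg_of_prime {p g : O} [IsDomain O] (hp : Prime p) (hg : ¬ p ∣ g) : Reg p g :=
  ⟨fun _ ht => (mul_eq_zero.1 ht).resolve_left hp.ne_zero,
    fun _ hv => (hp.2.2 _ _ hv).resolve_left hg⟩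

lemma ev_x : RA.ev (DR s z w).x = w := by simp [RA.ev_apply, DR]
lemma ev_y : RA.ev (DR s z w).y = z := by simp [RA.ev_apply, DR]; ring
lemma ev_z : RA.ev (DR s z w).z = z := by simp [RA.ev_apply, DR]
lemma ev_w : RA.ev (DR s z w).w = w := by simp [RA.ev_apply, DR]
lemma ev_r : RA.ev (DR s z w).r = s - w - z := by simp [RA.ev_apply, DR]
lemma ev_g2 : RA.ev (DR s z w).g2 = w - z - w ^ 2 := by
  simp only [Five.g2, map_sub, map_pow, ev_w, ev_y, ev_x]
lemma ev_g3 : RA.ev (DR s z w).g3 = z - w - z ^ 2 := by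
  simp only [Five.g3, map_sub, map_pow, ev_z, ev_y, ev_x]
lemma ev_ga : RA.ev (DR s z w).ga = w - w ^ 2 + w * z := by
  simp only [Five.ga, map_sub, map_add, map_mul, map_pow, ev_w, ev_z, ev_x]
lemma ev_gb : RA.ev (DR s z w).gb = z - z ^ 2 + z * w := by
  simp only [Five.gb, map_sub, map_add, map_mul, map_pow, ev_w, ev_z, ev_y]

lemma π_x : RA.π (DR s z w).x = (DS s z w).x :=
  congrArg Five.x (DR_map (s := s) (z := z) (w := w))
lemma π_y : RA.π (DR s z w).y = (DS s z w).y :=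
  congrArg Five.y (DR_map (s := s) (z := z) (w := w))
lemma π_z : RA.π (DR s z w).z = (DS s z w).z :=
  congrArg Five.z (DR_map (s := s) (z := z) (w := w))
lemma π_w : RA.π (DR s z w).w = (DS s z w).w :=
  congrArg Five.w (DR_map (s := s) (z := z) (w := w))
lemma π_r : RA.π (DR s z w).r = (DS s z w).r :=
  congrArg Five.r (DR_map (s := s) (z := z) (w := w))
lemma π_g2 : RA.π (DR s z w).g2 = (DS s z w).g2 := by
  simp only [Five.g2, map_sub, map_pow, π_w, π_y, π_x]
lemma π_g3 : RA.π (DR s z w).g3 = (DS s z w).g3 := by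
  simp only [Five.g3, map_sub, map_pow, π_z, π_y, π_x]
lemma π_ga : RA.π (DR s z w).ga = (DS s z w).ga := by
  simp only [Five.ga, map_sub, map_add, map_mul, map_pow, π_w, π_z, π_x]
lemma π_gb : RA.π (DR s z w).gb = (DS s z w).gb := by
  simp only [Five.gb, map_sub, map_add, map_mul, map_pow, π_w, π_z, π_y]

lemma not_dvd_mul_unit {p a u : O} (hp : Prime p) (ha : ¬ p ∣ a) (hu : IsUnit u) :
    ¬ p ∣ a * u := fun h => (hp.2.2 _ _ h).elim ha (fun h' => hp.2.1 (isUnit_of_dvd_unit h' hu))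

lemma RA.r1 (G : Good s z w) : Reg (DR s z w).x (DR s z w).y := by
  have := G.dom
  apply RA.reg G
  · rw [ev_x]; exact G.ρw
  · rw [π_x, π_y]; exact SA.r1 G
  · rw [ev_x, ev_y]; exact reg_of_prime G.hw G.wz

lemma RA.r2 (G : Good s z w) : Reg (DR s z w).z (DR s z w).g2 := by
  have := G.dom
  apply RA.reg G
  · rw [ev_z]; exact G.ρz
  · rw [π_z, π_g2]; exact SA.r2 G
  · rw [ev_z, ev_g2]; refine reg_of_prime G.hz ?_
    intro h
    apply not_dvd_mul_unit G.hz G.zw G.u3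
    have : w * (1 - w) = w - z - w ^ 2 + z := by ring
    rw [this]
    exact dvd_add h dvd_rfl

lemma RA.r3 (G : Good s z w) : Reg (DR s z w).w (DR s z w).g3 := by
  have := G.dom
  apply RA.reg G
  · rw [ev_w]; exact G.ρw
  · rw [π_w, π_g3]; exact SA.r3 G
  · rw [ev_w, ev_g3]; refine reg_of_prime G.hw ?_
    intro h
    apply not_dvd_mul_unit G.hw G.wz G.u4
    have : z * (1 - z) = z - w - z ^ 2 + w := by ring
    rw [this]
    exact dvd_add h dvd_rfl

lemma RA.ra (G : Good s z w) : Reg (DR s z w).y (DR s z w).ga := by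
  have := G.dom
  apply RA.reg G
  · rw [ev_y]; exact G.ρz
  · rw [π_y, π_ga]; exact SA.ra G
  · rw [ev_y, ev_ga]; refine reg_of_prime G.hz ?_
    have : w - w ^ 2 + w * z = w * (1 - w + z) := by ring
    rw [this]
    exact not_dvd_mul_unit G.hz G.zw G.u1

lemma RA.rb (G : Good s z w) : Reg (DR s z w).x (DR s z w).gb := by
  have := G.dom
  apply RA.reg G
  · rw [ev_x]; exact G.ρw
  · rw [π_x, π_gb]; exact SA.rb G
  · rw [ev_x, ev_gb]; refine reg_of_prime G.hw ?_
    have : z - z ^ 2 + z * w = z * (1 - z + w) := by ring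
    rw [this]
    exact not_dvd_mul_unit G.hw G.wz G.u2

lemma r_ga : (DR s z w).r * (DR s z w).ga =
    (DR s z w).r * (DR s z w).w * RA.ι (1 - w + z) := by
  ext
  · simp [DR, Five.ga, pow_two]
  · simp [DR, Five.ga, pow_two]
  · simp [DR, Five.ga, pow_two]; ring

lemma r_gb : (DR s z w).r * (DR s z w).gb =
    (DR s z w).r * (DR s z w).z * RA.ι (1 - z + w) := by
  ext
  · simp [DR, Five.gb, pow_two]
  · simp [DR, Five.gb, pow_two]
  · simp [DR, Five.gb, pow_two]; ring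

lemma RA.inj (G : Good s z w) : (DR s z w).Inj := by
  intro f g ⟨p1, q1, h1⟩ ⟨p2, q2, h2⟩ ⟨p3, q3, h3⟩
  have hS := SA.inj G (RA.π f) (RA.π g)
    ⟨RA.π p1, RA.π q1, by
      simpa only [map_add, map_mul, π_x, π_y, π_z, π_w, π_r] using congrArg RA.π h1⟩
    ⟨RA.π p2, RA.π q2, by
      simpa only [map_add, map_mul, π_x, π_y, π_z, π_w, π_r, π_g2] using congrArg RA.π h2⟩
    ⟨RA.π p3, RA.π q3, by
      simpa only [map_add, map_mul, π_x, π_y, π_z, π_w, π_r, π_g3] using congrArg RA.π h3⟩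
  obtain ⟨⟨a, b, hab⟩, ⟨c, d, hcd⟩⟩ := hS
  obtain ⟨a, rfl⟩ := RA.π_surj a
  obtain ⟨b, rfl⟩ := RA.π_surj b
  obtain ⟨c, rfl⟩ := RA.π_surj c
  obtain ⟨d, rfl⟩ := RA.π_surj d
  have hf := RA.π_ker (f - ((DR s z w).y * a + (DR s z w).ga * b)) (by
    rw [map_sub, map_add, map_mul, map_mul, π_y, π_ga, hab, sub_self])
  have hg := RA.π_ker (g - ((DR s z w).x * c + (DR s z w).gb * d)) (by
    rw [map_sub, map_add, map_mul, map_mul, π_x, π_gb, hcd, sub_self])
  set u := (f - ((DR s z w).y * a + (DR s z w).ga * b)).c with hu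
  set v := (g - ((DR s z w).x * c + (DR s z w).gb * d)).c with hv
  have evι : ∀ t : O, RA.ev (RA.ι t : RA s z w) = t := by
    intro t; simp [RA.ev_apply]
  have e2 := congrArg RA.ev h2
  have e3 := congrArg RA.ev h3
  have ef := congrArg RA.ev hf
  have eg := congrArg RA.ev hg
  simp only [map_add, map_mul, map_sub, ev_x, ev_y, ev_z, ev_w, ev_r, ev_g2, ev_g3, ev_ga,
    ev_gb, evι] at e2 e3 ef eg
  have mz : z ∈ Ideal.span {z, w} := Ideal.subset_span (by simp)
  have mw : w ∈ Ideal.span {z, w} := Ideal.subset_span (by simp)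
  have hu' : u ∈ Ideal.span {z, w} := by
    have hf' : RA.ev f ∈ Ideal.span {z, w} := by
      have : s * RA.ev f ∈ Ideal.span {z, w} := by
        refine Ideal.mem_span_pair.2 ⟨RA.ev f - RA.ev g + RA.ev p2 - RA.ev q2,
          (1 - w) * RA.ev q2, ?_⟩
        linear_combination -e2
      exact (G.p7.mem_or_mem this).resolve_left G.q7
    obtain ⟨α, β, hαβ⟩ := Ideal.mem_span_pair.1 hf'
    have : s * u ∈ Ideal.span {z, w} := by
      refine Ideal.mem_span_pair.2 ⟨α - RA.ev a + u, β - (1 - w + z) * RA.ev b + u, ?_⟩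
      linear_combination hαβ + ef
    exact (G.p7.mem_or_mem this).resolve_left G.q7
  have hv' : v ∈ Ideal.span {z, w} := by
    have hg' : RA.ev g ∈ Ideal.span {z, w} := by
      have : s * RA.ev g ∈ Ideal.span {z, w} := by
        refine Ideal.mem_span_pair.2 ⟨(1 - z) * RA.ev q3,
          RA.ev g - RA.ev f + RA.ev p3 - RA.ev q3, ?_⟩
        linear_combination -e3
      exact (G.p7.mem_or_mem this).resolve_left G.q7
    obtain ⟨α, β, hαβ⟩ := Ideal.mem_span_pair.1 hg'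
    have : s * v ∈ Ideal.span {z, w} := by
      refine Ideal.mem_span_pair.2 ⟨α - (1 - z + w) * RA.ev d + v, β - RA.ev c + v, ?_⟩
      linear_combination hαβ + eg
    exact (G.p7.mem_or_mem this).resolve_left G.q7
  have hιz : (RA.ι z : RA s z w) = (DR s z w).z := rfl
  have hιw : (RA.ι w : RA s z w) = (DR s z w).w := rfl
  obtain ⟨-, hrx, hry⟩ := DR_rels (s := s) (z := z) (w := w)
  constructor
  · obtain ⟨α, β, hαβ⟩ := Ideal.mem_span_pair.1 hu'
    obtain ⟨U, hU⟩ := G.u1.exists_right_inv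
    have hU' : (RA.ι (1 - w + z) : RA s z w) * RA.ι U = 1 := by
      rw [← map_mul, hU, map_one]
    refine ⟨a + RA.ι α * (DR s z w).r, b + RA.ι (β * U) * (DR s z w).r, ?_⟩
    have hu2 : (RA.ι u : RA s z w) = RA.ι α * (DR s z w).z + RA.ι β * (DR s z w).w := by
      rw [← hαβ, map_add, map_mul, map_mul, hιz, hιw]
    rw [hu2] at hf
    rw [map_mul]
    have e := r_ga (s := s) (z := z) (w := w)
    linear_combination hf - RA.ι α * hry - RA.ι β * RA.ι U * e
      - RA.ι β * (DR s z w).w * (DR s z w).r * hU'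
  · obtain ⟨α, β, hαβ⟩ := Ideal.mem_span_pair.1 hv'
    obtain ⟨U, hU⟩ := G.u2.exists_right_inv
    have hU' : (RA.ι (1 - z + w) : RA s z w) * RA.ι U = 1 := by
      rw [← map_mul, hU, map_one]
    refine ⟨c + RA.ι β * (DR s z w).r, d + RA.ι (α * U) * (DR s z w).r, ?_⟩
    have hu2 : (RA.ι v : RA s z w) = RA.ι α * (DR s z w).z + RA.ι β * (DR s z w).w := by
      rw [← hαβ, map_add, map_mul, map_mul, hιz, hιw]
    rw [hu2] at hg
    rw [map_mul]
    have e := r_gb (s := s) (z := z) (w := w)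
    linear_combination hg - RA.ι β * hrx - RA.ι α * RA.ι U * e
      - RA.ι α * (DR s z w).z * (DR s z w).r * hU'

theorem RA.allReg (G : Good s z w) : (DR s z w).AllReg :=
  ⟨RA.r1 G, RA.r2 G, RA.r3 G, RA.ra G, RA.rb G, RA.inj G⟩

end

end Pool.Agent.Helper84
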