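import Mathlib
import Pool.Agent.Helper84.TorRegR
import Pool.Agent.Helper84.TorDim

set_option autoImplicit false

namespace Pool.Agent.Helper84

section
variable {O : Type} [CommRing O] {s z w : O}

lemma RA.decomp (f : RA s z w) :
    f = RA.ι f.a + RA.ι f.b * (DR s z w).x + RA.ι f.c * (DR s z w).r := by
  ext <;> simp [DR]

lemma RA.algebraMap_eq : algebraMap O (RA s z w) = RA.ι := rfl

lemma RA.smul_eq (a : O) (f : RA s z w) : a • f = RA.ι a * f := rfl

instance RA.finite : Module.Finite O (RA s z w) := by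
  refine ⟨Submodule.fg_def.2 ⟨{1, (DR s z w).x, (DR s z w).r}, Set.toFinite _, ?_⟩⟩
  rw [eq_top_iff]
  intro f _
  rw [RA.decomp f]
  refine Submodule.add_mem _ (Submodule.add_mem _ ?_ ?_) ?_
  · have := Submodule.smul_mem (Submodule.span O ({1, (DR s z w).x, (DR s z w).r} :
      Set (RA s z w))) f.a (Submodule.subset_span (by simp) : (1 : RA s z w) ∈ _)
    rwa [RA.smul_eq, mul_one] at this
  · exact Submodule.smul_mem _ f.b (Submodule.subset_span (by simp))
  · exact Submodule.smul_mem _ f.c (Submodule.subset_span (by simp))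

instance RA.noeth [IsNoetherianRing O] : IsNoetherianRing (RA s z w) :=
  IsNoetherianRing.of_finite O (RA s z w)

section
variable [IsLocalRing O]

/-- the residue map -/
noncomputable def RA.res (hz : z ∈ IsLocalRing.maximalIdeal O) : RA s z w →+* IsLocalRing.ResidueField O where
  toFun f := IsLocalRing.residue O f.a
  map_one' := by simp
  map_mul' f g := by
    have hz' : IsLocalRing.residue O z = 0 := (IsLocalRing.residue_eq_zero_iff z).2 hz
    simp [hz']
  map_zero' := by simp
  map_add' f g := by simp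

lemma RA.res_apply (hz : z ∈ IsLocalRing.maximalIdeal O) (f : RA s z w) :
    RA.res hz f = IsLocalRing.residue O f.a := rfl

lemma RA.res_ker_max (hz : z ∈ IsLocalRing.maximalIdeal O) :
    (RingHom.ker (RA.res (s := s) (w := w) hz)).IsMaximal := by
  apply RingHom.ker_isMaximal_of_surjective
  intro t
  obtain ⟨t, rfl⟩ := IsLocalRing.residue_surjective t
  exact ⟨RA.ι t, rfl⟩

lemma RA.mem_res_ker (hz : z ∈ IsLocalRing.maximalIdeal O) (f : RA s z w) :
    f ∈ RingHom.ker (RA.res (s := s) (w := w) hz) ↔ f.a ∈ IsLocalRing.maximalIdeal O := by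
  rw [RingHom.mem_ker, RA.res_apply, IsLocalRing.residue_eq_zero_iff]

lemma RA.eq_res_ker (hz : z ∈ IsLocalRing.maximalIdeal O) (P : Ideal (RA s z w))
    (hP : P.IsPrime) (hx : (DR s z w).x ∈ P) (hr : (DR s z w).r ∈ P)
    (hO : ∀ t ∈ IsLocalRing.maximalIdeal O, RA.ι t ∈ P) :
    P = RingHom.ker (RA.res (s := s) (w := w) hz) := by
  symm
  apply (RA.res_ker_max hz).eq_of_le hP.ne_top
  intro f hf
  rw [RA.mem_res_ker] at hf
  rw [RA.decomp f]
  exact Ideal.add_mem _ (Ideal.add_mem _ (hO _ hf) (Ideal.mul_mem_left _ _ hx))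
    (Ideal.mul_mem_left _ _ hr)

lemma RA.isLocal (hs : s ∈ IsLocalRing.maximalIdeal O) (hz : z ∈ IsLocalRing.maximalIdeal O)
    (hw : w ∈ IsLocalRing.maximalIdeal O) : IsLocalRing (RA s z w) := by
  apply IsLocalRing.of_unique_max_ideal
  refine ⟨_, RA.res_ker_max hz, ?_⟩
  intro J hJ
  have hJ' : (J.comap (algebraMap O (RA s z w))).IsMaximal :=
    Ideal.isMaximal_comap_of_isIntegral_of_isMaximal J
  have hc := IsLocalRing.eq_maximalIdeal hJ'
  have hO : ∀ t ∈ IsLocalRing.maximalIdeal O, (RA.ι t : RA s z w) ∈ J := by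
    intro t ht
    rw [← hc] at ht
    exact ht
  have hJp := hJ.isPrime
  have hr : (DR s z w).r ∈ J := by
    apply hJp.mem_of_pow_mem 2
    have : (DR s z w).r ^ 2 = RA.ι (s - w - z) * (DR s z w).r := by
      ext <;> simp [DR, pow_two]
    rw [this]
    exact Ideal.mul_mem_right _ _ (hO _ (Ideal.sub_mem _ (Ideal.sub_mem _ hs hw) hz))
  have hx : (DR s z w).x ∈ J := by
    apply hJp.mem_of_pow_mem 2
    have : (DR s z w).x ^ 2 = RA.ι s * (DR s z w).x - RA.ι w * (DR s z w).r
        - RA.ι (z * w) := by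
      ext <;> simp [DR, pow_two]
    rw [this]
    exact Ideal.sub_mem _ (Ideal.sub_mem _ (Ideal.mul_mem_right _ _ (hO _ hs))
      (Ideal.mul_mem_right _ _ (hO _ hw))) (hO _ (Ideal.mul_mem_left _ _ hw))
  exact RA.eq_res_ker hz J hJp hx hr hO

end

lemma RA.dim_le (I : Ideal (RA s z w)) : ringKrullDim (RA s z w ⧸ I) ≤ ringKrullDim O :=
  (ringKrullDim_quotient_le I).trans dim_le_of_integral

lemma RA.dim_ge : ringKrullDim O ≤
    ringKrullDim (RA s z w ⧸ Ideal.span {(DR s z w).r}) := by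
  apply dim_ge_of_integral
  rw [injective_iff_map_eq_zero]
  intro t ht
  have h1 : (RA.ι t : RA s z w) ∈ Ideal.span {(DR s z w).r} :=
    Ideal.Quotient.eq_zero_iff_mem.1 ht
  obtain ⟨g, hg⟩ := Ideal.mem_span_singleton.1 h1
  have := congrArg RA.a hg
  simpa [DR] using this

lemma RA.dim_eq : ringKrullDim (RA s z w) ≤
    ringKrullDim (RA s z w ⧸ Ideal.span {(DR s z w).r}) :=
  dim_le_of_integral.trans RA.dim_ge

/-- the prime ideal of the third component -/
def RA.cc (s z w : O) : Ideal (RA s z w) := (Ideal.span {z, w}).comap RA.ev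

lemma RA.ann_le : Module.annihilator (RA s z w) (DR s z w).Mod ≤ RA.cc s z w := by
  intro f hf
  rw [Module.mem_annihilator] at hf
  have h := hf ((LinearMap.range (DR s z w).d1).mkQ (1, 0, 0))
  rw [← map_smul, ← LinearMap.mem_ker, Submodule.ker_mkQ] at h
  obtain ⟨v, hv⟩ := h
  have h1 := congrArg (fun t => RA.ev t.1) hv
  simp only [Five.d1, LinearMap.coe_mk, AddHom.coe_mk, Prod.smul_mk, smul_eq_mul, mul_one,
    map_add, map_mul, ev_x, ev_y, ev_z, ev_w] at h1
  rw [RA.cc, Ideal.mem_comap, ← h1]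
  have mz : z ∈ Ideal.span {z, w} := Ideal.subset_span (by simp)
  have mw : w ∈ Ideal.span {z, w} := Ideal.subset_span (by simp)
  refine Ideal.add_mem _ (Ideal.add_mem _ (Ideal.add_mem _ ?_ ?_) ?_) ?_
  · exact Ideal.mul_mem_right _ _ mw
  · exact Ideal.mul_mem_right _ _ mz
  · exact Ideal.mul_mem_right _ _ mz
  · exact Ideal.mul_mem_right _ _ mw

end

end Pool.Agent.Helper84
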