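import Mathlib
import Pool.Agent.Helper84.TorLocal
import Pool.Agent.Helper84.TorKill
import Pool.Agent.Helper84.TorBase

set_option autoImplicit false

namespace Pool.Agent.Helper84

open CategoryTheory CategoryTheory.Limits

lemma ez_mem : ez ∈ IsLocalRing.maximalIdeal OO :=
  (IsLocalRing.mem_maximalIdeal _).2 good.hz.not_isUnit

lemma ew_mem : ew ∈ IsLocalRing.maximalIdeal OO :=
  (IsLocalRing.mem_maximalIdeal _).2 good.hw.not_isUnit

lemma es_mem : es ∈ IsLocalRing.maximalIdeal OO := by
  have h := IsLocalRing.le_maximalIdeal good.p3.ne_top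
  exact h (Ideal.subset_span (by simp))

/-- the local ring of the counterexample -/
abbrev RR : Type := RA es ez ew

/-- the five elements -/
noncomputable abbrev DD : Five RR := DR es ez ew

instance RR_local : IsLocalRing RR := RA.isLocal es_mem ez_mem ew_mem

theorem RR_tor (i : ℕ) (hi : 0 < i) :
    IsZero (((Tor (ModuleCat.{0} RR) i).obj (ModuleCat.of RR (RR ⧸ Ideal.span {DD.r}))).obj
      (ModuleCat.of RR DD.Mod)) := by
  have h1 := SA.allReg good
  rw [← DR_map] at h1
  exact Five.tor_zero RA.π DD DR_rels (RA.allReg good) h1 RA.π_surj RA.π_r0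
    (fun f hf => ⟨_, RA.π_ker f hf⟩) i hi

lemma cc_prime : (RA.cc es ez ew).IsPrime := by
  have := good.p7
  exact Ideal.IsPrime.comap _

lemma cc_lt : RA.cc es ez ew < RingHom.ker (RA.res (s := es) (w := ew) ez_mem) := by
  have := cc_prime
  refine lt_of_le_of_ne ?_ ?_
  · have h1 := IsLocalRing.le_maximalIdeal (cc_prime).ne_top
    have h2 := IsLocalRing.eq_maximalIdeal (RA.res_ker_max (s := es) (w := ew) ez_mem)
    rw [h2]
    exact h1
  · intro h
    have h1 : (RA.ι es : RR) ∈ RA.cc es ez ew := by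
      rw [h, RA.mem_res_ker]
      exact es_mem
    rw [RA.cc, Ideal.mem_comap] at h1
    have h2 : RA.ev (RA.ι es : RR) = es := by simp [RA.ev_apply]
    rw [h2] at h1
    exact good.q7 h1

lemma span_r_ne_top : Ideal.span {DD.r} ≠ ⊤ := by
  intro h
  have h1 : Ideal.span {DD.r} ≤ RingHom.ker (RA.res (s := es) (w := ew) ez_mem) := by
    rw [Ideal.span_singleton_le_iff_mem, RA.mem_res_ker]
    exact Ideal.zero_mem _
  rw [h] at h1
  exact (RA.res_ker_max (s := es) (w := ew) ez_mem).ne_top (top_le_iff.1 h1)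

lemma nontriv1 : Nontrivial (RR ⧸ Ideal.span {DD.r}) :=
  Ideal.Quotient.nontrivial_iff.2 span_r_ne_top

lemma nontriv2 : Nontrivial DD.Mod := by
  by_contra h
  rw [not_nontrivial_iff_subsingleton] at h
  have h1 : Module.annihilator RR DD.Mod = ⊤ := Module.annihilator_eq_top_iff.2 h
  have h2 : Module.annihilator RR DD.Mod ≤ RA.cc es ez ew := RA.ann_le
  rw [h1] at h2
  exact cc_prime.ne_top (top_le_iff.1 h2)

lemma prime_eq (P : Ideal RR) (hP : P.IsPrime)
    (hle : Module.annihilator RR (TensorProduct RR (RR ⧸ Ideal.span {DD.r}) DD.Mod) ≤ P) :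
    P = RingHom.ker (RA.res (s := es) (w := ew) ez_mem) := by
  obtain ⟨hx, hy, hz, hw, hr⟩ := Five.mem_of_prime DR_rels P hP hle
  refine RA.eq_res_ker ez_mem P hP hx hr ?_
  have hs : (RA.ι es : RR) ∈ P := by
    have : (RA.ι es : RR) = DD.x + DD.y + DD.r := by
      ext <;> simp [DR]
    rw [this]
    exact Ideal.add_mem _ (Ideal.add_mem _ hx hy) hr
  intro t ht
  exact maximalIdeal_le (P.comap RA.ι) hs hz hw ht

end Pool.Agent.Helper84
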